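import Pool.Agent.H66.TIE.Leaf2
import Pool.Agent.H38.TIE.Row

/-!
# Fullness in a context; relations between monomials only

`ctx_full`: what is full given a function of the line and the time stays full given the context.
`no_mon`: a context has no relation between the monomials of the position.
-/

set_option autoImplicit false

namespace Pool.TIE66

open Finset Polynomial
open Pool.Agent.H49.Ent Pool.Agent.H32.Dense Pool.STK Pool.BFL Pool.GLB Pool.CLU Pool.REL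

variable {h m c : ℕ} {NN : Finset (Fin h →₀ ℕ)} {B : Bd h m c}

/-- **Fullness in a context.** -/
theorem ctx_full {θ' : ℝ} (D : Ctx B θ') {S T : Type} (X : B.Ω → S) (U : B.Ω → T)
    (hX : Det B.p (fun ω => (B.L ω, B.th ω)) X) (hU : Det B.p (fun ω => (B.L ω, B.th ω)) U) :
    CH B.p X (fun ω => (U ω, (B.b ω, B.th ω))) - θ' ≤
      CH D.q (fun w => X (D.pr w)) (fun w => (D.x w, U (D.pr w))) := by
  have n0 := D.isLaw.nonneg
  have h1 := D.inf
  have hX' := D.mg.det n0 hX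
  have hU' := D.mg.det n0 hU
  have e0 : CH B.p X (fun ω => (U ω, (B.b ω, B.th ω))) =
      CH D.q (fun w => X (D.pr w)) (fun w => (U (D.pr w), (B.b (D.pr w), B.th (D.pr w)))) :=
    (D.mg.CH X (fun ω => (U ω, (B.b ω, B.th ω)))).symm
  rw [e0]
  have a3 : CH D.q (fun w => B.L (D.pr w))
      (fun w => ((X (D.pr w), U (D.pr w)), D.x w)) ≤
      CH D.q (fun w => B.L (D.pr w))
        (fun w => ((X (D.pr w), U (D.pr w)), (B.b (D.pr w), B.th (D.pr w)))) :=
    CH_mono_cond n0 fun w w' a b e => by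
      obtain ⟨e1, e2⟩ := Prod.ext_iff.mp e
      exact Prod.ext e1 (Prod.ext (D.x_b w w' a b e2) (D.x_t w w' a b e2))
  have a4 : CH D.q (fun w => B.L (D.pr w)) (fun w => (B.b (D.pr w), B.th (D.pr w))) ≤
      CH D.q (fun w => B.L (D.pr w)) (fun w => B.b (D.pr w)) :=
    CH_mono_cond n0 fun w w' a b e => (Prod.ext_iff.mp e).1
  have a5 : CH D.q (fun w => U (D.pr w)) D.x ≤
      CH D.q (fun w => U (D.pr w)) (fun w => (B.b (D.pr w), B.th (D.pr w))) :=
    CH_mono_cond n0 fun w w' a b e => Prod.ext (D.x_b w w' a b e) (D.x_t w w' a b e)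
  have c1 : H D.q (fun w => (B.L (D.pr w), ((X (D.pr w), U (D.pr w)), D.x w))) =
      H D.q (fun w => (B.L (D.pr w), D.x w)) :=
    H_congr n0 (fun w w' a b e => by
        obtain ⟨e1, e2⟩ := Prod.ext_iff.mp e
        have e3 : (fun w => (B.L (D.pr w), B.th (D.pr w))) w =
            (fun w => (B.L (D.pr w), B.th (D.pr w))) w' := Prod.ext e1 (D.x_t w w' a b e2)
        exact Prod.ext e1 (Prod.ext (Prod.ext (hX' w w' a b e3) (hU' w w' a b e3)) e2))
      (fun w w' a b e => by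
        obtain ⟨e1, e2⟩ := Prod.ext_iff.mp e
        exact Prod.ext e1 (Prod.ext_iff.mp e2).2)
  have c2 : H D.q (fun w => (B.L (D.pr w), ((X (D.pr w), U (D.pr w)),
      (B.b (D.pr w), B.th (D.pr w))))) =
      H D.q (fun w => (B.L (D.pr w), (B.b (D.pr w), B.th (D.pr w)))) :=
    H_congr n0 (fun w w' a b e => by
        obtain ⟨e1, e2⟩ := Prod.ext_iff.mp e
        have e3 : (fun w => (B.L (D.pr w), B.th (D.pr w))) w =
            (fun w => (B.L (D.pr w), B.th (D.pr w))) w' := Prod.ext e1 (Prod.ext_iff.mp e2).2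
        exact Prod.ext e1 (Prod.ext (Prod.ext (hX' w w' a b e3) (hU' w w' a b e3)) e2))
      (fun w w' a b e => by
        obtain ⟨e1, e2⟩ := Prod.ext_iff.mp e
        exact Prod.ext e1 (Prod.ext_iff.mp e2).2)
  have c3 : H D.q (fun w => (X (D.pr w), (D.x w, U (D.pr w)))) =
      H D.q (fun w => ((X (D.pr w), U (D.pr w)), D.x w)) :=
    H_congr n0 (fun w w' a b e => by
        obtain ⟨e1, e2⟩ := Prod.ext_iff.mp e
        obtain ⟨e3, e4⟩ := Prod.ext_iff.mp e1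
        exact Prod.ext e3 (Prod.ext e2 e4))
      (fun w w' a b e => by
        obtain ⟨e1, e2⟩ := Prod.ext_iff.mp e
        obtain ⟨e3, e4⟩ := Prod.ext_iff.mp e2
        exact Prod.ext (Prod.ext e1 e4) e3)
  have c4 : H D.q (fun w => (D.x w, U (D.pr w))) = H D.q (fun w => (U (D.pr w), D.x w)) :=
    H_congr n0 (fun w w' a b e => by
        obtain ⟨e1, e2⟩ := Prod.ext_iff.mp e
        exact Prod.ext e2 e1)
      (fun w w' a b e => by
        obtain ⟨e1, e2⟩ := Prod.ext_iff.mp e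
        exact Prod.ext e2 e1)
  have c5 : H D.q (fun w => (X (D.pr w), (U (D.pr w), (B.b (D.pr w), B.th (D.pr w))))) =
      H D.q (fun w => ((X (D.pr w), U (D.pr w)), (B.b (D.pr w), B.th (D.pr w)))) :=
    H_congr n0 (fun w w' a b e => by
        obtain ⟨e1, e2⟩ := Prod.ext_iff.mp e
        obtain ⟨e3, e4⟩ := Prod.ext_iff.mp e1
        exact Prod.ext e3 (Prod.ext e4 e2))
      (fun w w' a b e => by
        obtain ⟨e1, e2⟩ := Prod.ext_iff.mp e
        obtain ⟨e3, e4⟩ := Prod.ext_iff.mp e2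
        exact Prod.ext (Prod.ext e1 e3) e4)
  unfold CH at h1 a3 a4 a5 ⊢
  rw [c1, c2] at a3
  rw [c3, c4, c5]
  linarith

section Idx

variable {d N : ℕ} (ix : Fin m ≃ Fin d ⊕ {k // k ∈ Mn d N})

/-- The index of a partial derivative. -/
def gI (a : Fin d) : Fin m := ix.symm (Sum.inl a)

/-- The index of a monomial. -/
def mI (k : {k // k ∈ Mn d N}) : Fin m := ix.symm (Sum.inr k)

/-- The indices of the partial derivatives. -/
def Qs : Finset (Fin m) := univ.image (gI ix)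

theorem sum_ix {A : Type*} [AddCommMonoid A] (g : Fin m → A) :
    ∑ α, g α = ∑ a, g (gI ix a) + ∑ k, g (mI ix k) := by
  rw [← Equiv.sum_comp ix.symm g, Fintype.sum_sum_type]
  rfl

theorem gI_inj : Function.Injective (gI ix) := fun _ _ h =>
  Sum.inl_injective (ix.symm.injective h)

theorem mI_notMem (k : {k // k ∈ Mn d N}) : mI ix k ∉ Qs ix := by
  intro h
  obtain ⟨a, -, ha⟩ := Finset.mem_image.1 h
  have := ix.symm.injective ha
  cases this

theorem cases_ix (α : Fin m) : (∃ a, gI ix a = α) ∨ ∃ k, mI ix k = α := by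
  rcases h : ix α with a | k
  · left
    refine ⟨a, ?_⟩
    unfold gI
    rw [← h, Equiv.symm_apply_apply]
  · right
    refine ⟨k, ?_⟩
    unfold mI
    rw [← h, Equiv.symm_apply_apply]

/-- The right side of a row. -/
noncomputable def kap {A : Type*} [CommRing A] (v : Fin m → A) : MvPolynomial (Fin d) A :=
  pm fun k => -v (mI ix k)

theorem eval_kap (v : Fin m → ℝ) (x : Fin d → ℝ) : MvPolynomial.eval x (kap ix v) =
    -∑ k : {k // k ∈ Mn d N}, v (mI ix k) * ∏ i, x i ^ k.1 i := by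
  unfold kap pm
  rw [map_sum, ← Finset.sum_neg_distrib]
  refine Finset.sum_congr rfl fun k _ => ?_
  rw [MvPolynomial.eval_monomial, Finsupp.prod_fintype _ _ (fun _ => pow_zero _)]
  ring

/-- The value of an equation at a typical sample. -/
theorem ev_typ {B : Bd h m 1} {a : Fin 1 → {γ // γ ∈ NN} → Fin m → ℝ[X]} {C₀ τ₀ R : ℝ}
    {xv : B.Ξ → Fin d → ℝ} (hfv : ∀ ξ k, B.fv ξ (mI ix k) 0 = ∏ i, xv ξ i ^ k.1 i) {ω : B.Ω}
    (hω : B.Ty a C₀ τ₀ ω) {s : Fin m → ℝ} (hs : ∀ α, |s α| ≤ R) :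
    |B.ev a ω s 0 - (∑ e, s (gI ix e) * B.fv (B.pt ω) (gI ix e) 0 -
      MvPolynomial.eval (xv (B.pt ω)) (kap ix s))| ≤ m * (R * τ₀) := by
  have e1 : ∑ e, s (gI ix e) * B.fv (B.pt ω) (gI ix e) 0 -
      MvPolynomial.eval (xv (B.pt ω)) (kap ix s) = ∑ α, s α * B.fv (B.pt ω) α 0 := by
    rw [sum_ix ix, eval_kap, sub_neg_eq_add]
    refine congrArg _ (Finset.sum_congr rfl fun k _ => ?_)
    rw [hfv]
  rw [e1, B.ev_sum a ω s 0, ← Finset.sum_sub_distrib]
  refine (Finset.abs_sum_le_sum_abs _ _).trans ?_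
  have e2 : ∀ α ∈ (univ : Finset (Fin m)), |s α * B.ev a ω (Pi.single α 1) 0 -
      s α * B.fv (B.pt ω) α 0| ≤ R * τ₀ := fun α _ => by
    rw [← mul_sub, abs_mul]
    exact mul_le_mul (hs α) (hω.2.2 α 0) (abs_nonneg _) ((abs_nonneg _).trans (hs α))
  refine (Finset.sum_le_sum e2).trans (le_of_eq ?_)
  rw [Finset.sum_const, Finset.card_univ, Fintype.card_fin, nsmul_eq_mul]

end Idx

/-- **There is no relation between the monomials of the position.** -/
theorem no_mon (d N : ℕ) : ∃ C : ℝ, 1 ≤ C ∧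
    ∀ (h m : ℕ) (NN : Finset (Fin h →₀ ℕ)) (a : Fin 1 → {γ // γ ∈ NN} → Fin m → ℝ[X])
      (ix : Fin m ≃ Fin d ⊕ {k // k ∈ Mn d N}) (B : Bd h m 1) (C₀ τ τ₀ θ θ' ρ : ℝ)
      (xv : B.Ξ → Fin d → ℝ) (T : Type) (U : B.Ω → T) (L : ℕ), B.Ok →
      (∀ ξ k, B.fv ξ (mI ix k) 0 = ∏ i, xv ξ i ^ k.1 i) →
      (∀ ω, 0 < B.p ω → ∀ i, |xv (B.pt ω) i| ≤ 1) →
      Det B.p (fun ω => (B.L ω, B.th ω)) U →
      d * (L * Real.log 2) - θ ≤ CH B.p (fun ω => dg L (xv (B.pt ω)))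
        (fun ω => (U ω, (B.b ω, B.th ω))) →
      0 ≤ θ → 0 ≤ θ' → 0 < τ → 0 ≤ τ₀ → 0 < ρ → ρ ≤ 1 →
      C * (θ + θ' + 1) / (ρ / 2) ^ 2 ≤ L * Real.log 2 →
      Real.exp (C * (θ + θ' + 1) / (ρ / 2) ^ 2) * (τ + m * τ₀) < 1 →
      ∀ D : Ctx B θ', ¬ D.Rel a C₀ τ₀ (Qs ix)ᶜ τ ρ := by
  classical
  obtain ⟨C, hC, hcf⟩ := uni_cf d N
  refine ⟨C, hC, ?_⟩
  intro h m NN a ix B C₀ τ τ₀ θ θ' ρ xv T U L hB hfv hx hU hful hθ hθ' hτ hτ₀ hρ hρ1 hL hsm D hR
  obtain ⟨s, hs1, hs0, hs2⟩ := hR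
  have n0 := D.isLaw.nonneg
  have hX : Det B.p (fun ω => (B.L ω, B.th ω)) (fun ω => dg L (xv (B.pt ω))) := by
    intro ω ω' a1 a2 e
    have := hB.pt_L ω ω' a1 a2 e
    simp only [this]
  have h1 := ctx_full D (fun ω => dg L (xv (B.pt ω))) U hX hU
  have hτ2 : 0 < τ + m * τ₀ := by positivity
  have key := hcf D.W (D.G × T) D.q L (fun w => xv (B.pt (D.pr w)))
    (fun w => (D.x w, U (D.pr w))) (fun z => kap ix (s z.1)) (D.Gd a C₀ τ₀ τ s) (τ + m * τ₀)
    (θ + θ') (ρ / 2) D.isLaw (fun z => deg_pm _) (by linarith) (by linarith) (by linarith) hτ2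
    (fun w hw => hx _ (D.mg.pos n0 hw)) (by linarith) hL (fun w hw hG => ?_)
  · have h2 : ρ ≤ Pb D.q (D.Gd a C₀ τ₀ τ s) := hs2
    have h3 : 0 < Pb D.q (fun w => D.Gd a C₀ τ₀ τ s w ∧
        Cf (Real.exp (C * (θ + θ' + 1) / (ρ / 2) ^ 2) * (τ + m * τ₀)) (kap ix (s (D.x w)))) := by
      have h4 : Pb D.q (D.Gd a C₀ τ₀ τ s) ≤ Pb D.q (fun w => (D.Gd a C₀ τ₀ τ s w ∧
          Cf (Real.exp (C * (θ + θ' + 1) / (ρ / 2) ^ 2) * (τ + m * τ₀)) (kap ix (s (D.x w)))) ∨
          (D.Gd a C₀ τ₀ τ s w ∧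
          ¬ Cf (Real.exp (C * (θ + θ' + 1) / (ρ / 2) ^ 2) * (τ + m * τ₀))
            (kap ix (s (D.x w))))) :=
        Pool.MIC.Pb_le_of_imp n0 fun w _ hw => by
          by_cases hc : Cf (Real.exp (C * (θ + θ' + 1) / (ρ / 2) ^ 2) * (τ + m * τ₀))
            (kap ix (s (D.x w)))
          · exact Or.inl ⟨hw, hc⟩
          · exact Or.inr ⟨hw, hc⟩
      have h5 := Pb_or66 n0 (fun w => D.Gd a C₀ τ₀ τ s w ∧
          Cf (Real.exp (C * (θ + θ' + 1) / (ρ / 2) ^ 2) * (τ + m * τ₀)) (kap ix (s (D.x w))))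
        (fun w => D.Gd a C₀ τ₀ τ s w ∧
          ¬ Cf (Real.exp (C * (θ + θ' + 1) / (ρ / 2) ^ 2) * (τ + m * τ₀)) (kap ix (s (D.x w))))
      linarith
    obtain ⟨w, hw0, hw1, hw2⟩ : ∃ w, 0 < D.q w ∧ D.Gd a C₀ τ₀ τ s w ∧
        Cf (Real.exp (C * (θ + θ' + 1) / (ρ / 2) ^ 2) * (τ + m * τ₀)) (kap ix (s (D.x w))) := by
      by_contra hn
      push Not at hn
      have : Pb D.q (fun w => D.Gd a C₀ τ₀ τ s w ∧
        Cf (Real.exp (C * (θ + θ' + 1) / (ρ / 2) ^ 2) * (τ + m * τ₀)) (kap ix (s (D.x w)))) ≤ 0 := by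
        unfold Pb
        refine Finset.sum_nonpos fun w _ => ?_
        rcases (n0 w).eq_or_lt with h6 | h6
        · rw [← h6]
          split_ifs <;> exact le_rfl
        · split_ifs with h7
          · exact absurd h7.2 (hn w h6 h7.1)
          · exact le_rfl
      linarith
    obtain ⟨α, hα⟩ := hw1.2.1
    rcases cases_ix ix α with ⟨e, he⟩ | ⟨k, hk⟩
    · have h6 : α ∉ (Qs ix)ᶜ := by
        rw [Finset.mem_compl, not_not, ← he]
        exact Finset.mem_image_of_mem _ (Finset.mem_univ e)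
      rw [hs0 _ α h6, abs_zero] at hα
      exact absurd hα (by norm_num)
    · have h6 := hw2 k.1
      have h7 : MvPolynomial.coeff k.1 (kap ix (s (D.x w))) = -s (D.x w) α := by
        rw [← hk]
        exact coeff_pm _ k
      rw [h7, abs_neg, hα] at h6
      linarith
  · have h2 := ev_typ ix hfv hG.1 (s := s (D.x w)) (R := 1) (fun α => hs1 _ α)
    have h3 := hG.2.2 0
    have h4 : ∑ e, s (D.x w) (gI ix e) * B.fv (B.pt (D.pr w)) (gI ix e) 0 = 0 := by
      refine Finset.sum_eq_zero fun e _ => ?_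
      rw [hs0 _ _ (by
        rw [Finset.mem_compl, not_not]
        exact Finset.mem_image_of_mem _ (Finset.mem_univ e)), zero_mul]
    rw [h4, zero_sub] at h2
    have h5 : |MvPolynomial.eval (xv (B.pt (D.pr w))) (kap ix (s (D.x w)))| ≤ τ + m * τ₀ := by
      have h6 := abs_add_le (B.ev a (D.pr w) (s (D.x w)) 0 -
        -MvPolynomial.eval (xv (B.pt (D.pr w))) (kap ix (s (D.x w))))
        (-B.ev a (D.pr w) (s (D.x w)) 0)
      rw [abs_neg] at h6
      have h7 : B.ev a (D.pr w) (s (D.x w)) 0 -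
        -MvPolynomial.eval (xv (B.pt (D.pr w))) (kap ix (s (D.x w))) +
        -B.ev a (D.pr w) (s (D.x w)) 0 =
          MvPolynomial.eval (xv (B.pt (D.pr w))) (kap ix (s (D.x w))) := by ring
      rw [h7] at h6
      rw [one_mul] at h2
      linarith
    exact h5

end Pool.TIE66
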