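import Pool.Agent.H66.TIE.Pot3
import Pool.Agent.H66.TIE.Cxf

/-!
# The potential of a family of rows

A family of rows `z π` (`π` in a set `P` of indices of partial derivatives) gives a potential
`Phi`; `fam_pt` is the pointwise statement about the visible and the closed family.
-/

set_option autoImplicit false
set_option linter.unusedSectionVars false

namespace Pool.TIE66

open Finset Polynomial
open Pool.REL (em em_mem em_inj em_surj VecF)

section

variable {A : Type*} [CommRing A] [Algebra ℝ A] {m d N : ℕ}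
variable (ix : Fin m ≃ Fin d ⊕ {k // k ∈ Mn d N}) (P : Finset (Fin m))

/-- The direction of a row. -/
def vdir (v : Fin m → A) (a : Fin d) : A := v (gI ix a)

/-- The coordinates of the pivots. -/
def Pd : Finset (Fin d) := univ.filter fun a => gI ix a ∈ P

/-- The pivots. -/
noncomputable def pI (ρ : Fin (Pd ix P).card) : Fin m := gI ix (em (Pd ix P) ρ)

theorem pI_mem (ρ : Fin (Pd ix P).card) : pI ix P ρ ∈ P :=
  (Finset.mem_filter.1 (em_mem (Pd ix P) ρ)).2

theorem pI_inj : Function.Injective (pI ix P) := fun _ _ h => em_inj _ (gI_inj ix h)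

variable {P} in
theorem sum_P (hP : P ⊆ Qs ix) (g : Fin m → A) : ∑ π ∈ P, g π = ∑ ρ, g (pI ix P ρ) := by
  classical
  have h1 : P = univ.image (pI ix P) := by
    refine Finset.ext fun π => ⟨fun h => ?_, fun h => ?_⟩
    · obtain ⟨a, -, ha⟩ := Finset.mem_image.1 (hP h)
      have h2 : a ∈ Pd ix P := Finset.mem_filter.2 ⟨Finset.mem_univ a, by rw [ha]; exact h⟩
      obtain ⟨ρ, hρ⟩ := em_surj _ h2
      refine Finset.mem_image.2 ⟨ρ, Finset.mem_univ ρ, ?_⟩
      unfold pI
      rw [hρ, ha]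
    · obtain ⟨ρ, -, hρ⟩ := Finset.mem_image.1 h
      rw [← hρ]
      exact pI_mem ix P ρ
  have h2 : ∑ π ∈ univ.image (pI ix P), g π = ∑ ρ, g (pI ix P ρ) :=
    Finset.sum_image fun _ _ _ _ e => pI_inj ix P e
  rw [← h2, ← h1]

/-- The entries of a family of rows. -/
noncomputable def yE (z : Fin m → Fin m → A) : En d (Pd ix P).card (Mn d N) → A :=
  Sum.elim (fun i => z (pI ix P i.1) (gI ix i.2)) fun i => -z (pI ix P i.1) (mI ix i.2)

theorem wv_yE (z : Fin m → Fin m → A) (ρ : Fin (Pd ix P).card) :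
    wv (yE ix P z) ρ = vdir ix (z (pI ix P ρ)) := rfl

theorem kv_yE (z : Fin m → Fin m → A) (ρ : Fin (Pd ix P).card) :
    kv (yE ix P z) ρ = kap ix (z (pI ix P ρ)) := rfl

/-- **The potential of a family.** -/
noncomputable def Phi (z : Fin m → Fin m → A) : MvPolynomial (Fin d) A :=
  pot (em (Pd ix P)) (wv (yE ix P z)) (kv (yE ix P z))

theorem deg_Phi [Nontrivial A] (z : Fin m → Fin m → A) : (Phi ix P z).totalDegree ≤ N + 1 :=
  deg_pot _ _ fun _ => deg_pmA _

end

section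

variable {m d N : ℕ} (ix : Fin m ≃ Fin d ⊕ {k // k ∈ Mn d N})

theorem kap_sub_row (v : Fin m → ℝ) {r : ℕ} (c : Fin r → ℝ) (z : Fin r → Fin m → ℝ) {ε : ℝ}
    (hε : 0 ≤ ε) (h : ∀ β, |v β - ∑ ρ, c ρ * z ρ β| ≤ ε) :
    Cf ε (kap ix v - ∑ ρ, MvPolynomial.C (c ρ) * kap ix (z ρ)) := by
  classical
  intro k
  by_cases hk : k ∈ Mn d N
  · have e1 : ∀ u : Fin m → ℝ, MvPolynomial.coeff k (kap ix u) = -u (mI ix ⟨k, hk⟩) := fun u =>
      coeff_pm _ ⟨k, hk⟩
    rw [MvPolynomial.coeff_sub, MvPolynomial.coeff_sum]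
    simp only [MvPolynomial.coeff_C_mul, e1]
    have e2 : -v (mI ix ⟨k, hk⟩) - ∑ ρ, c ρ * -z ρ (mI ix ⟨k, hk⟩) =
        -(v (mI ix ⟨k, hk⟩) - ∑ ρ, c ρ * z ρ (mI ix ⟨k, hk⟩)) := by
      simp only [mul_neg, Finset.sum_neg_distrib]
      ring
    rw [e2, abs_neg]
    exact h _
  · have e1 : ∀ u : Fin m → ℝ, MvPolynomial.coeff k (kap ix u) = 0 := fun u =>
      coeff_pm_of_notMem _ hk
    rw [MvPolynomial.coeff_sub, MvPolynomial.coeff_sum]
    simp only [MvPolynomial.coeff_C_mul, e1, mul_zero, Finset.sum_const_zero, sub_zero, abs_zero]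
    exact hε

theorem Cf_kap {R : ℝ} (hR : 0 ≤ R) {v : Fin m → ℝ} (hv : ∀ α, |v α| ≤ R) : Cf R (kap ix v) := by
  intro k
  by_cases hk : k ∈ Mn d N
  · have e1 : MvPolynomial.coeff k (kap ix v) = -v (mI ix ⟨k, hk⟩) := coeff_pm _ ⟨k, hk⟩
    rw [e1, abs_neg]
    exact hv _
  · have e1 : MvPolynomial.coeff k (kap ix v) = 0 := coeff_pm_of_notMem _ hk
    rw [e1, abs_zero]
    exact hR

/-- **The potential of a family**, at one sample. -/
theorem fam_pt (P : Finset (Fin m)) : ∃ (C' : ℝ) (D : ℕ), 1 ≤ C' ∧ ∀ R : ℝ, 1 ≤ R →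
    (∀ sv : Fin m → Fin m → ℝ, (∀ π α, |sv π α| ≤ R) → Cf (C' * R ^ D) (Phi ix P sv)) ∧
    (∀ (F : Fin m → Fin m → ℝ[X]) (K : ℕ), (∀ π α, (F π α).natDegree ≤ K) →
      ∀ k, (MvPolynomial.coeff k (Phi ix P F)).natDegree ≤ D * K) ∧
    ∀ (s sv : Fin m → Fin m → ℝ) (δ : ℝ), P ⊆ Qs ix → 0 ≤ δ → δ ≤ 1 →
      (∀ π α, |s π α| ≤ R) → (∀ π α, |sv π α| ≤ R) → (∀ π ∈ P, s π π = 1) →
      (∀ π ∈ P, ∀ α ∈ P, α ≠ π → s π α = 0) → (∀ π ∈ P, ∀ β, |s π β - sv π β| ≤ δ) →
      (∀ (F : Fin m → Fin m → ℝ[X]) (t : ℝ), (∀ π ∈ P, ∀ β, |s π β - (F π β).eval t| ≤ δ) →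
        ∀ k, |MvPolynomial.coeff k (Phi ix P sv) - (MvPolynomial.coeff k (Phi ix P F)).eval t| ≤
          C' * R ^ D * δ) ∧
      ∀ (v : Fin m → ℝ) (δ' : ℝ), 0 ≤ δ' → (∀ α, |v α| ≤ R) →
        (∀ β, |v β - ∑ π ∈ P, v π * s π β| ≤ δ) →
        (∀ π ∈ P, Cf δ' (dD (vdir ix v) (kap ix (s π)) - dD (vdir ix (s π)) (kap ix v))) →
        Cf (C' * R ^ D * (δ + δ')) (dD (vdir ix v) (Phi ix P sv) - kap ix v) := by
  classical
  obtain ⟨C₁, D₁, h1, hdeg, hb⟩ := pot_bd (r := (Pd ix P).card) (Mn d N) (em (Pd ix P))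
  obtain ⟨C₂, D₂, h2, he⟩ := pot_err (r := (Pd ix P).card) N (em (Pd ix P))
  obtain ⟨D₃, ht⟩ := pot_time (r := (Pd ix P).card) (Mn d N) (em (Pd ix P))
  obtain ⟨C₃, hC₃⟩ : ∃ C₃ : ℝ, C₃ = 4 ^ D₁ * C₁ := ⟨_, rfl⟩
  have hC₃1 : 1 ≤ C₃ := by
    rw [hC₃]
    exact one_le_mul_of_one_le_of_one_le (one_le_pow₀ (by norm_num)) h1
  refine ⟨C₂ + (d + 2) * (N + 2) * C₃, D₁ + D₂ + D₃ + 1, by
    have : (0 : ℝ) ≤ (d + 2) * (N + 2) * C₃ := by positivity
    linarith, ?_⟩
  intro R hR
  have hR0 : 0 < R := by linarith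
  have hCC : C₃ ≤ (d + 2) * (N + 2) * C₃ := by
    have e1 : (1 : ℝ) ≤ (d + 2) * (N + 2) := by
      have e2 : (0 : ℝ) ≤ d := Nat.cast_nonneg _
      have e3 : (0 : ℝ) ≤ N := Nat.cast_nonneg _
      nlinarith
    exact le_mul_of_one_le_left (by linarith) e1
  have hpw : ∀ n, n ≤ D₁ + D₂ + D₃ + 1 → R ^ n ≤ R ^ (D₁ + D₂ + D₃ + 1) := fun n hn =>
    pow_le_pow_right₀ hR hn
  have hpR : 0 < R ^ (D₁ + D₂ + D₃ + 1) := by positivity
  have hC₁C₃ : C₁ ≤ C₃ := by
    rw [hC₃]
    exact le_mul_of_one_le_left (by linarith) (one_le_pow₀ (by norm_num))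
  refine ⟨fun sv hsv k => ?_, fun F K hF k => ?_, ?_⟩
  · refine ((hb R hR (yE ix P sv) fun i => ?_).1 k).trans ?_
    · rcases i with i | i
      · exact hsv _ _
      · have : |-sv (pI ix P i.1) (mI ix i.2)| ≤ R := by
          rw [abs_neg]
          exact hsv _ _
        exact this
    · exact mul_le_mul (by linarith) (hpw _ (by omega)) (by positivity) (by linarith)
  · refine ((ht K (yE ix P F) fun i => ?_).2.1 k).trans (Nat.mul_le_mul_right _ (by omega))
    rcases i with i | i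
    · exact hF _ _
    · have : (-F (pI ix P i.1) (mI ix i.2)).natDegree ≤ K := by
        rw [natDegree_neg]
        exact hF _ _
      exact this
  · intro s sv δ hP hδ hδ1 hs hsv hs1 hs0 hd
    have hys : ∀ i, |yE ix P s i| ≤ R := by
      rintro (i | i)
      · exact hs _ _
      · have : |-s (pI ix P i.1) (mI ix i.2)| ≤ R := by
          rw [abs_neg]
          exact hs _ _
        exact this
    have hyv : ∀ i, |yE ix P sv i| ≤ R := by
      rintro (i | i)
      · exact hsv _ _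
      · have : |-sv (pI ix P i.1) (mI ix i.2)| ≤ R := by
          rw [abs_neg]
          exact hsv _ _
        exact this
    have hyd : ∀ i, |yE ix P s i - yE ix P sv i| ≤ δ := by
      rintro (i | i)
      · exact hd _ (pI_mem ix P _) _
      · have : |-s (pI ix P i.1) (mI ix i.2) - -sv (pI ix P i.1) (mI ix i.2)| ≤ δ := by
          rw [neg_sub_neg, abs_sub_comm]
          exact hd _ (pI_mem ix P _) _
        exact this
    have hsvs : ∀ k, |MvPolynomial.coeff k (Phi ix P s) - MvPolynomial.coeff k (Phi ix P sv)| ≤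
        C₁ * R ^ D₁ * δ := (hb R hR (yE ix P s) hys).2 (yE ix P sv) δ hδ hyv hyd
    constructor
    · intro F t hF k
      have e1 : (MvPolynomial.coeff k (Phi ix P F)).eval t =
          MvPolynomial.coeff k (pot (em (Pd ix P)) (wv fun i => ((yE ix P F) i).eval t)
            (kv fun i => ((yE ix P F) i).eval t)) :=
        (ht (Finset.univ.sup fun i => (yE ix P F i).natDegree) (yE ix P F)
          fun i => Finset.le_sup (f := fun i => (yE ix P F i).natDegree)
            (Finset.mem_univ i)).2.2 t k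
      rw [e1]
      have hyF : ∀ i, |yE ix P s i - ((yE ix P F) i).eval t| ≤ δ := by
        rintro (i | i)
        · exact hF _ (pI_mem ix P _) _
        · have : |-s (pI ix P i.1) (mI ix i.2) - (-F (pI ix P i.1) (mI ix i.2)).eval t| ≤ δ := by
            rw [Polynomial.eval_neg, neg_sub_neg, abs_sub_comm]
            exact hF _ (pI_mem ix P _) _
          exact this
      have e2 : ∀ i, |yE ix P sv i - ((yE ix P F) i).eval t| ≤ 2 * δ := fun i => by
        have e3 := abs_sub_le (yE ix P sv i) (yE ix P s i) (((yE ix P F) i).eval t)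
        have e4 := hyd i
        rw [abs_sub_comm] at e4
        have e5 := hyF i
        linarith
      have e6 : ∀ i, |((yE ix P F) i).eval t| ≤ 2 * R := fun i => by
        have e3 := near_bd (a := ((yE ix P F) i).eval t) (b := yE ix P s i) (R := R) (τ := δ)
          (by rw [abs_sub_comm]; exact hyF i) (hys i)
        linarith
      have e7 := ((hb (2 * R) (by linarith) (yE ix P sv) fun i => (hyv i).trans (by linarith)).2
        (fun i => ((yE ix P F) i).eval t) (2 * δ) (by linarith) e6 e2) k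
      refine e7.trans ?_
      have e8 : C₁ * (2 * R) ^ D₁ * (2 * δ) ≤ (2 * C₃) * (R ^ D₁ * δ) := by
        rw [mul_pow, hC₃]
        have e9 : (2 : ℝ) ^ D₁ ≤ 4 ^ D₁ := pow_le_pow_left₀ (by norm_num) (by norm_num) _
        have e10 : 0 ≤ C₁ * R ^ D₁ * (2 * δ) := by positivity
        have e11 := mul_le_mul_of_nonneg_right e9 e10
        nlinarith
      refine e8.trans ?_
      have e12 : R ^ D₁ * δ ≤ R ^ (D₁ + D₂ + D₃ + 1) * δ :=
        mul_le_mul_of_nonneg_right (hpw _ (by omega)) hδ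
      have e13 : 2 * C₃ ≤ C₂ + (d + 2) * (N + 2) * C₃ := by
        have e14 : (2 : ℝ) ≤ (d + 2) * (N + 2) := by
          have e2 : (0 : ℝ) ≤ d := Nat.cast_nonneg _
          have e3 : (0 : ℝ) ≤ N := Nat.cast_nonneg _
          nlinarith
        have := mul_le_mul_of_nonneg_right e14 (by linarith : (0 : ℝ) ≤ C₃)
        linarith
      have e15 := mul_le_mul e13 e12 (by positivity) (by linarith)
      refine e15.trans (le_of_eq ?_)
      ring
    · intro v δ' hδ' hv hspan hskew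
      have hpiv : Piv (em (Pd ix P)) (wv (yE ix P s)) := by
        refine ⟨em_inj _, fun ρ σ => ?_⟩
        have e1 : wv (yE ix P s) ρ (em (Pd ix P) σ) = s (pI ix P ρ) (pI ix P σ) := rfl
        rw [e1]
        by_cases h : ρ = σ
        · rw [if_pos h, ← h]
          exact hs1 _ (pI_mem ix P ρ)
        · rw [if_neg h]
          exact hs0 _ (pI_mem ix P ρ) _ (pI_mem ix P σ) fun e => h (pI_inj ix P e).symm
      have hspan' : ∀ β, |v β - ∑ ρ, v (pI ix P ρ) * s (pI ix P ρ) β| ≤ δ := fun β => by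
        rw [← sum_P ix hP fun π => v π * s π β]
        exact hspan β
      have a1 := he R hR (yE ix P s) hys hpiv (vdir ix v) (kap ix v) (δ + δ')
        (fun a => hv _) (deg_pm _) (Cf_kap ix hR0.le hv) (by linarith)
        (fun a => (hspan' (gI ix a)).trans (by linarith))
        ((kap_sub_row ix v (fun ρ => v (pI ix P ρ)) (fun ρ => s (pI ix P ρ)) (by linarith)
          hspan').mono (by linarith))
        (fun σ => (hskew (pI ix P σ) (pI_mem ix P σ)).mono (by linarith))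
      have a2 : Cf (C₁ * R ^ D₁ * δ) (Phi ix P sv - Phi ix P s) := fun k => by
        rw [MvPolynomial.coeff_sub, abs_sub_comm]
        exact hsvs k
      have a3 := a2.dD (N := N + 1) ((MvPolynomial.totalDegree_sub _ _).trans
        (max_le (deg_Phi ix P sv) (deg_Phi ix P s))) (v := vdir ix v) (fun a => hv _)
      have a4 : dD (vdir ix v) (Phi ix P sv) - kap ix v =
          (dD (vdir ix v) (Phi ix P s) - kap ix v) +
            dD (vdir ix v) (Phi ix P sv - Phi ix P s) := by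
        rw [dD_sub]
        ring
      rw [a4]
      refine (Cf.add a1 a3).mono ?_
      have b1 : C₂ * R ^ D₂ * (δ + δ') ≤ C₂ * R ^ (D₁ + D₂ + D₃ + 1) * (δ + δ') :=
        mul_le_mul_of_nonneg_right (mul_le_mul_of_nonneg_left (hpw _ (by omega)) (by linarith))
          (by linarith)
      have b2 : (d : ℝ) * (R * ((((N + 1 : ℕ) : ℝ) + 1) * (C₁ * R ^ D₁ * δ))) ≤
          (d + 2) * (N + 2) * C₃ * R ^ (D₁ + D₂ + D₃ + 1) * (δ + δ') := by
        have c1 : (d : ℝ) * (R * ((((N + 1 : ℕ) : ℝ) + 1) * (C₁ * R ^ D₁ * δ))) =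
            (d * (N + 2)) * (C₁ * (R ^ (D₁ + 1) * δ)) := by
          push_cast
          ring
        have c2 : (d + 2) * (N + 2) * C₃ * R ^ (D₁ + D₂ + D₃ + 1) * (δ + δ') =
            ((d + 2) * (N + 2)) * (C₃ * (R ^ (D₁ + D₂ + D₃ + 1) * (δ + δ'))) := by ring
        rw [c1, c2]
        refine mul_le_mul ?_ ?_ (by positivity) (by positivity)
        · have : (0 : ℝ) ≤ N + 2 := by positivity
          nlinarith
        · refine mul_le_mul hC₁C₃ ?_ (by positivity) (by linarith)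
          exact mul_le_mul (hpw _ (by omega)) (by linarith) hδ (by positivity)
      have b3 : (C₂ + (d + 2) * (N + 2) * C₃) * R ^ (D₁ + D₂ + D₃ + 1) * (δ + δ') =
          C₂ * R ^ (D₁ + D₂ + D₃ + 1) * (δ + δ') +
            (d + 2) * (N + 2) * C₃ * R ^ (D₁ + D₂ + D₃ + 1) * (δ + δ') := by ring
      rw [b3]
      exact add_le_add b1 b2

end

end Pool.TIE66
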