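import Pool.Agent.H66.TIE.Rmz
import Pool.Agent.H50.LBL.Ml1

/-!
# Relations along the own leaf

`leaf_row`: a relation `sum w_a (x) p_a = kap (x)` whose coefficients are functions of the context
can be differentiated along the own leaf.
-/

set_option autoImplicit false

namespace Pool.TIE66

open Finset Real MvPolynomial
open Pool.Agent.H49.Ent Pool.Agent.H32.Dense Pool.STK Pool.STAT
open Pool.BFL (Pb)
open Pool.MIC.Frm (Pb_supp)

variable {d k : ℕ}

theorem prod_two {t : Fin d → ℝ} (ht : ∀ i, |t i| ≤ 2) {N : ℕ} {m : Fin d →₀ ℕ}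
    (hm : m ∈ Mn d N) : |∏ i, t i ^ m i| ≤ 2 ^ N := by
  have h1 := mem_Mn.1 hm
  rw [Finsupp.sum_fintype _ _ (fun _ => rfl)] at h1
  rw [Finset.abs_prod]
  calc ∏ i, |t i ^ m i| ≤ ∏ i, (2 : ℝ) ^ m i := by
        refine Finset.prod_le_prod (fun i _ => abs_nonneg _) fun i _ => ?_
        rw [abs_pow]
        exact pow_le_pow_left₀ (abs_nonneg _) (ht i) _
    _ = 2 ^ (∑ i, m i) := Finset.prod_pow_eq_pow_sum _ _ _
    _ ≤ 2 ^ N := pow_le_pow_right₀ (by norm_num) h1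

theorem prod_two_lip {t u : Fin d → ℝ} (ht : ∀ i, |t i| ≤ 2) (hu : ∀ i, |u i| ≤ 2) {r : ℝ}
    (hr0 : 0 ≤ r) (hr : ∀ i, |t i - u i| ≤ r) {N : ℕ} {m : Fin d →₀ ℕ}
    (hm : m ∈ Mn d N) : |∏ i, t i ^ m i - ∏ i, u i ^ m i| ≤ 2 ^ N * N * r := by
  have h1 := mem_Mn.1 hm
  rw [Finsupp.sum_fintype _ _ (fun _ => rfl)] at h1
  have h2 := Pool.GLM.prod_lip (t := fun i => t i / 2) (u := fun i => u i / 2) (r := r / 2)
    (fun i => by rw [abs_div, abs_two]; linarith [ht i])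
    (fun i => by rw [abs_div, abs_two]; linarith [hu i])
    (fun i => by
      have : t i / 2 - u i / 2 = (t i - u i) / 2 := by ring
      rw [this, abs_div, abs_two]
      linarith [hr i]) m Finset.univ
  have e : ∀ z : Fin d → ℝ, ∏ i, z i ^ m i = 2 ^ (∑ i, m i) * ∏ i, (z i / 2) ^ m i := by
    intro z
    rw [← Finset.prod_pow_eq_pow_sum, ← Finset.prod_mul_distrib]
    refine Finset.prod_congr rfl fun i _ => ?_
    rw [← mul_pow]
    refine congrArg (fun y => y ^ m i) ?_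
    ring
  rw [e t, e u, ← mul_sub, abs_mul, abs_of_pos (by positivity : (0 : ℝ) < 2 ^ (∑ i, m i))]
  have h3 : ((∑ i, m i : ℕ) : ℝ) ≤ N := by exact_mod_cast h1
  calc (2 : ℝ) ^ (∑ i, m i) * |∏ i, (t i / 2) ^ m i - ∏ i, (u i / 2) ^ m i| ≤
        2 ^ N * ((∑ i, m i : ℕ) * (r / 2)) :=
        mul_le_mul (pow_le_pow_right₀ (by norm_num) h1) h2 (abs_nonneg _) (by positivity)
    _ ≤ 2 ^ N * (N * r) := by
        refine mul_le_mul_of_nonneg_left ?_ (by positivity)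
        have h4 : ((∑ i, m i : ℕ) : ℝ) * (r / 2) ≤ N * (r / 2) :=
          mul_le_mul_of_nonneg_right h3 (by linarith)
        have h5 : (0 : ℝ) ≤ N := Nat.cast_nonneg _
        nlinarith
    _ = _ := by ring

theorem eval_Mn {N : ℕ} {P : MvPolynomial (Fin d) ℝ} (hP : P.totalDegree ≤ N) (t : Fin d → ℝ) :
    eval t P = ∑ m ∈ Mn d N, coeff m P * ∏ i, t i ^ m i := by
  rw [MvPolynomial.eval_eq']
  refine Finset.sum_subset (supp_Mn.2 hP) fun m _ hm => ?_
  rw [notMem_support_iff.1 hm, zero_mul]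

/-- Bounds on the box of side two. -/
theorem bd2 (d K : ℕ) : ∃ N₀ : ℝ, 1 ≤ N₀ ∧ ∀ (R : ℝ) (P : MvPolynomial (Fin d) ℝ), 0 ≤ R →
    P.totalDegree ≤ K → Cf R P →
    (∀ t : Fin d → ℝ, (∀ i, |t i| ≤ 2) → |eval t P| ≤ N₀ * R) ∧
    (∀ (t u : Fin d → ℝ) (r : ℝ), 0 ≤ r → (∀ i, |t i| ≤ 2) → (∀ i, |u i| ≤ 2) →
      (∀ i, |t i - u i| ≤ r) → |eval t P - eval u P| ≤ N₀ * R * r) := by
  obtain ⟨c, hc⟩ : ∃ c : ℝ, c = (Mn d K).card := ⟨_, rfl⟩
  have hc0 : 0 ≤ c := by rw [hc]; positivity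
  refine ⟨1 + c * (2 ^ K * (1 + K)), by
    have : 0 ≤ c * ((2 : ℝ) ^ K * (1 + K)) := by positivity
    linarith, ?_⟩
  intro R P hR hP hC
  have hK : (0 : ℝ) ≤ K := Nat.cast_nonneg _
  have h2 : (0 : ℝ) < 2 ^ K := by positivity
  constructor
  · intro t ht
    rw [eval_Mn hP]
    refine (Finset.abs_sum_le_sum_abs _ _).trans ?_
    have h1 : ∀ m ∈ Mn d K, |coeff m P * ∏ i, t i ^ m i| ≤ R * 2 ^ K := fun m hm => by
      rw [abs_mul]
      exact mul_le_mul (hC m) (prod_two ht hm) (abs_nonneg _) hR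
    refine (Finset.sum_le_sum h1).trans ?_
    rw [Finset.sum_const, nsmul_eq_mul, ← hc]
    have e1 : 0 ≤ c * (2 ^ K * K) * R := by positivity
    nlinarith
  · intro t u r hr0 ht hu hr
    rw [eval_Mn hP, eval_Mn hP, ← Finset.sum_sub_distrib]
    refine (Finset.abs_sum_le_sum_abs _ _).trans ?_
    have h1 : ∀ m ∈ Mn d K, |coeff m P * ∏ i, t i ^ m i - coeff m P * ∏ i, u i ^ m i| ≤
        R * (2 ^ K * K * r) := fun m hm => by
      rw [← mul_sub, abs_mul]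
      exact mul_le_mul (hC m) (prod_two_lip ht hu hr0 hr hm) (abs_nonneg _) hR
    refine (Finset.sum_le_sum h1).trans ?_
    rw [Finset.sum_const, nsmul_eq_mul, ← hc]
    have e1 : 0 ≤ c * 2 ^ K * R * r := by positivity
    have e2 : 0 ≤ R * r := by positivity
    nlinarith

theorem mul_err {a a' b b' A B δ ε : ℝ} (ha : |a| ≤ A) (hb : |b'| ≤ B) (h1 : |a - a'| ≤ δ)
    (h2 : |b - b'| ≤ ε) : |a * b - a' * b'| ≤ A * ε + B * δ := by
  have e : a * b - a' * b' = a * (b - b') + b' * (a - a') := by ring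
  rw [e]
  refine (abs_add_le _ _).trans (add_le_add ?_ ?_)
  · rw [abs_mul]
    exact mul_le_mul ha h2 (abs_nonneg _) ((abs_nonneg _).trans ha)
  · rw [abs_mul]
    exact mul_le_mul hb h1 (abs_nonneg _) ((abs_nonneg _).trans hb)

theorem near_bd {a b R τ : ℝ} (h : |a - b| ≤ τ) (hb : |b| ≤ R) : |a| ≤ R + τ := by
  have := abs_add_le (a - b) b
  rw [sub_add_cancel] at this
  linarith

/-- The chain rule. -/
theorem pderiv_aev (y : Fin d → MvPolynomial (Fin k) ℝ) (j : Fin k)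
    (P : MvPolynomial (Fin d) ℝ) :
    pderiv j (aeval y P) = ∑ b, aeval y (pderiv b P) * pderiv j (y b) := by
  classical
  induction P using MvPolynomial.induction_on with
  | C a => simp [algHom_C, algebraMap_eq]
  | add p q hp hq =>
    simp only [map_add, hp, hq, add_mul, Finset.sum_add_distrib]
  | mul_X p b hp =>
    rw [map_mul, aeval_X, Derivation.leibniz, hp, smul_eq_mul, smul_eq_mul]
    have h1 : ∀ b', aeval y (pderiv b' (p * X b)) * pderiv j (y b') =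
        (if b' = b then aeval y p * pderiv j (y b) else 0) +
          y b * (aeval y (pderiv b' p) * pderiv j (y b')) := by
      intro b'
      rw [Derivation.leibniz, pderiv_X]
      by_cases h : b' = b
      · subst h
        simp only [Pi.single_eq_same, smul_eq_mul, mul_one, map_add, map_mul, aeval_X, if_true]
        ring
      · rw [if_neg h, Pi.single_eq_of_ne (fun e => h e.symm)]
        simp only [smul_eq_mul, mul_zero, zero_add, map_mul, aeval_X]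
        ring
    rw [Finset.sum_congr rfl fun b' _ => h1 b', Finset.sum_add_distrib, Finset.sum_ite_eq' univ b,
      if_pos (Finset.mem_univ b), Finset.mul_sum]

theorem deg_aev {y : Fin d → MvPolynomial (Fin k) ℝ} {K : ℕ} (hy : ∀ i, (y i).totalDegree ≤ K)
    (P : MvPolynomial (Fin d) ℝ) {N : ℕ} (hP : P.totalDegree ≤ N) :
    (aeval y P).totalDegree ≤ N * K := by
  rw [MvPolynomial.aeval_def, MvPolynomial.eval₂_eq']
  refine MvPolynomial.totalDegree_finsetSum_le fun m hm => ?_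
  refine (MvPolynomial.totalDegree_mul _ _).trans ?_
  have h0 : (algebraMap ℝ (MvPolynomial (Fin k) ℝ) (MvPolynomial.coeff m P)).totalDegree = 0 := by
    rw [MvPolynomial.algebraMap_eq, MvPolynomial.totalDegree_C]
  rw [h0, zero_add]
  refine (MvPolynomial.totalDegree_finsetProd _ _).trans ?_
  have h1 : ∀ i ∈ (Finset.univ : Finset (Fin d)), ((y i) ^ m i).totalDegree ≤ m i * K := by
    intro i _
    exact (MvPolynomial.totalDegree_pow _ _).trans (Nat.mul_le_mul_left _ (hy i))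
  refine (Finset.sum_le_sum h1).trans ?_
  rw [← Finset.sum_mul]
  refine Nat.mul_le_mul_right _ ?_
  have h3 : ∑ i, m i = m.sum fun _ e => e := by
    rw [Finsupp.sum_fintype _ _ fun _ => rfl]
  rw [h3]
  exact (MvPolynomial.le_totalDegree hm).trans hP

theorem eval_aev (y : Fin d → MvPolynomial (Fin k) ℝ) (P : MvPolynomial (Fin d) ℝ)
    (t : Fin k → ℝ) : eval t (aeval y P) = eval (fun i => eval t (y i)) P := by
  induction P using MvPolynomial.induction_on with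
  | C a => simp [algHom_C, algebraMap_eq]
  | add p q hp hq => simp only [map_add, hp, hq]
  | mul_X p b hp => simp only [map_mul, aeval_X, eval_X, hp]

/-- The relation along the leaf. -/
noncomputable def rlf (lam pi : Fin d → MvPolynomial (Fin k) ℝ) (w : Fin d → MvPolynomial (Fin d) ℝ)
    (κ : MvPolynomial (Fin d) ℝ) : MvPolynomial (Fin k) ℝ :=
  ∑ a, aeval lam (w a) * pi a - aeval lam κ

theorem deg_rlf {lam pi : Fin d → MvPolynomial (Fin k) ℝ} {w : Fin d → MvPolynomial (Fin d) ℝ}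
    {κ : MvPolynomial (Fin d) ℝ} {K : ℕ} (h1 : ∀ a, (lam a).totalDegree ≤ K)
    (h2 : ∀ a, (pi a).totalDegree ≤ K) (h3 : ∀ a, (w a).totalDegree ≤ K)
    (h4 : κ.totalDegree ≤ K) : (rlf lam pi w κ).totalDegree ≤ K * K + K := by
  unfold rlf
  refine (totalDegree_sub _ _).trans (max_le ?_ ((deg_aev h1 _ h4).trans (Nat.le_add_right _ _)))
  refine totalDegree_finsetSum_le fun a _ => ?_
  exact (totalDegree_mul _ _).trans (Nat.add_le_add (deg_aev h1 _ (h3 a)) (h2 a))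

theorem eval_rlf (lam pi : Fin d → MvPolynomial (Fin k) ℝ) (w : Fin d → MvPolynomial (Fin d) ℝ)
    (κ : MvPolynomial (Fin d) ℝ) (t : Fin k → ℝ) : eval t (rlf lam pi w κ) =
      ∑ a, eval (fun i => eval t (lam i)) (w a) * eval t (pi a) -
        eval (fun i => eval t (lam i)) κ := by
  unfold rlf
  rw [map_sub, map_sum, eval_aev]
  simp only [map_mul, eval_aev]

theorem eval_pd_rlf (lam pi : Fin d → MvPolynomial (Fin k) ℝ)
    (w : Fin d → MvPolynomial (Fin d) ℝ) (κ : MvPolynomial (Fin d) ℝ) (j : Fin k)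
    (t : Fin k → ℝ) : eval t (pderiv j (rlf lam pi w κ)) =
      ∑ a, (eval (fun i => eval t (lam i)) (w a) * eval t (pderiv j (pi a)) +
        (∑ b, eval (fun i => eval t (lam i)) (pderiv b (w a)) * eval t (pderiv j (lam b))) *
          eval t (pi a)) -
        ∑ b, eval (fun i => eval t (lam i)) (pderiv b κ) * eval t (pderiv j (lam b)) := by
  unfold rlf
  rw [map_sub, map_sum, map_sub, map_sum, pderiv_aev, map_sum]
  refine congrArg₂ (fun x y => x - y) ?_ ?_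
  · refine Finset.sum_congr rfl fun a _ => ?_
    rw [Derivation.leibniz, smul_eq_mul, smul_eq_mul, map_add, map_mul, map_mul, pderiv_aev,
      map_sum, eval_aev]
    simp only [map_mul, eval_aev]
    ring
  · refine Finset.sum_congr rfl fun b _ => ?_
    rw [map_mul, eval_aev]

/-- The derivative of the relation along the own leaf, at the own point: `v` = derivative of the
position, `q` = derivative of the gradient `P`. -/
noncomputable def drw (w : Fin d → MvPolynomial (Fin d) ℝ) (κ : MvPolynomial (Fin d) ℝ)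
    (x P v q : Fin d → ℝ) : ℝ :=
  ∑ a, (eval x (w a) * q a + (∑ b, eval x (pderiv b (w a)) * v b) * P a) -
    ∑ b, eval x (pderiv b κ) * v b

theorem Cf.pderiv' {R : ℝ} (_hR : 0 ≤ R) {P : MvPolynomial (Fin d) ℝ} {K : ℕ}
    (hP : P.totalDegree ≤ K) (h : Cf R P) (i : Fin d) : Cf ((K + 1) * R) (MvPolynomial.pderiv i P) :=
  h.pderiv hP i

theorem sum_err {ι : Type*} (s : Finset ι) {f g : ι → ℝ} {ε : ℝ} (h : ∀ i ∈ s, |f i - g i| ≤ ε) :
    |∑ i ∈ s, f i - ∑ i ∈ s, g i| ≤ s.card * ε := by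
  rw [← Finset.sum_sub_distrib]
  refine (Finset.abs_sum_le_sum_abs _ _).trans ?_
  refine (Finset.sum_le_sum h).trans (le_of_eq ?_)
  rw [Finset.sum_const, nsmul_eq_mul]

/-- The value of the relation along the leaf at the own point. -/
theorem rlf_pt (d K : ℕ) : ∃ N₁ : ℝ, 1 ≤ N₁ ∧ ∀ (k : ℕ) (lam pi : Fin d → MvPolynomial (Fin k) ℝ)
    (w : Fin d → MvPolynomial (Fin d) ℝ) (κ : MvPolynomial (Fin d) ℝ) (y : Fin k → ℝ)
    (x P : Fin d → ℝ) (R τ : ℝ), 1 ≤ R → 0 ≤ τ → τ ≤ 1 →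
    (∀ a, (w a).totalDegree ≤ K) → κ.totalDegree ≤ K → (∀ a, Cf R (w a)) → Cf R κ →
    (∀ i, |x i| ≤ 1) → (∀ a, |P a| ≤ R) → (∀ b, |eval y (lam b) - x b| ≤ τ) →
    (∀ a, |eval y (pi a) - P a| ≤ τ) → |∑ a, eval x (w a) * P a - eval x κ| ≤ τ →
    |eval y (rlf lam pi w κ)| ≤ N₁ * R ^ 2 * τ := by
  obtain ⟨N₀, hN, h0⟩ := bd2 d K
  refine ⟨(2 * d + 1) * N₀ + 1, by
    have : (0 : ℝ) ≤ (2 * d + 1) * N₀ := by positivity
    linarith, ?_⟩
  intro k lam pi w κ y x P R τ hR hτ hτ1 dw dκ cw cκ hx hP hl hp hrel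
  have hR0 : 0 ≤ R := by linarith
  have hx' : ∀ i, |eval y (lam i)| ≤ 2 := fun i => (near_bd (hl i) (hx i)).trans (by linarith)
  have hx2 : ∀ i, |x i| ≤ 2 := fun i => (hx i).trans (by norm_num)
  rw [eval_rlf]
  have e1 : |∑ a, eval (fun i => eval y (lam i)) (w a) * eval y (pi a) -
      ∑ a, eval x (w a) * P a| ≤ d * (2 * N₀ * R ^ 2 * τ) := by
    refine (sum_err univ (ε := 2 * N₀ * R ^ 2 * τ) fun a _ => ?_).trans (le_of_eq ?_)
    · obtain ⟨b1, b2⟩ := h0 R (w a) hR0 (dw a) (cw a)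
      have := mul_err (b1 _ hx') (hP a) (b2 _ _ τ hτ hx' hx2 hl) (hp a)
      refine this.trans ?_
      have c1 : R * τ ≤ R ^ 2 * τ := by
        refine mul_le_mul_of_nonneg_right ?_ hτ
        nlinarith
      have c2 : N₀ * (R * τ) ≤ N₀ * (R ^ 2 * τ) := mul_le_mul_of_nonneg_left c1 (by linarith)
      nlinarith
    · rw [Finset.card_univ, Fintype.card_fin]
  have e2 : |eval (fun i => eval y (lam i)) κ - eval x κ| ≤ N₀ * R * τ :=
    (h0 R κ hR0 dκ cκ).2 _ _ τ hτ hx' hx2 hl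
  have e3 : ∑ a, eval (fun i => eval y (lam i)) (w a) * eval y (pi a) -
        eval (fun i => eval y (lam i)) κ =
      (∑ a, eval (fun i => eval y (lam i)) (w a) * eval y (pi a) - ∑ a, eval x (w a) * P a) -
      (eval (fun i => eval y (lam i)) κ - eval x κ) + (∑ a, eval x (w a) * P a - eval x κ) := by
    ring
  rw [e3]
  refine (abs_add_le _ _).trans ?_
  have e4 := abs_sub (∑ a, eval (fun i => eval y (lam i)) (w a) * eval y (pi a) -
    ∑ a, eval x (w a) * P a) (eval (fun i => eval y (lam i)) κ - eval x κ)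
  have c1 : R ≤ R ^ 2 := by nlinarith
  have c2 : N₀ * R * τ ≤ N₀ * R ^ 2 * τ := by
    refine mul_le_mul_of_nonneg_right (mul_le_mul_of_nonneg_left c1 (by linarith)) hτ
  have c3 : τ ≤ R ^ 2 * τ := le_mul_of_one_le_left hτ (by nlinarith)
  nlinarith

/-- The derivative of the relation along the leaf at the own point. -/
theorem drw_pt (d K : ℕ) : ∃ N₁ : ℝ, 1 ≤ N₁ ∧ ∀ (k : ℕ) (lam pi : Fin d → MvPolynomial (Fin k) ℝ)
    (w : Fin d → MvPolynomial (Fin d) ℝ) (κ : MvPolynomial (Fin d) ℝ) (y : Fin k → ℝ) (j : Fin k)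
    (x P v q : Fin d → ℝ) (R τ : ℝ), 1 ≤ R → 0 ≤ τ → τ ≤ 1 →
    (∀ a, (w a).totalDegree ≤ K) → κ.totalDegree ≤ K → (∀ a, Cf R (w a)) → Cf R κ →
    (∀ i, |x i| ≤ 1) → (∀ a, |P a| ≤ R) → (∀ a, |v a| ≤ R) → (∀ a, |q a| ≤ R) →
    (∀ b, |eval y (lam b) - x b| ≤ τ) → (∀ a, |eval y (pi a) - P a| ≤ τ) →
    (∀ b, |eval y (pderiv j (lam b)) - v b| ≤ τ) → (∀ a, |eval y (pderiv j (pi a)) - q a| ≤ τ) →
    |eval y (pderiv j (rlf lam pi w κ)) - drw w κ x P v q| ≤ N₁ * R ^ 3 * τ := by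
  obtain ⟨N₀, hN, h0⟩ := bd2 d K
  obtain ⟨M, hM⟩ : ∃ M : ℝ, M = N₀ * (K + 1) := ⟨_, rfl⟩
  have hM1 : N₀ ≤ M := by
    rw [hM]
    have : (0 : ℝ) ≤ K := Nat.cast_nonneg _
    nlinarith
  have hM0 : 0 ≤ M := by linarith
  refine ⟨d * (2 * M + d * (4 * M) + 3 * (d * M)) + 3 * (d * M) + 1, by
    have : (0 : ℝ) ≤ d * (2 * M + d * (4 * M) + 3 * (d * M)) + 3 * (d * M) := by positivity
    linarith, ?_⟩
  intro k lam pi w κ y j x P v q R τ hR hτ hτ1 dw dκ cw cκ hx hP hv hq hl hp hl' hp'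
  have hR0 : 0 ≤ R := by linarith
  have hx' : ∀ i, |eval y (lam i)| ≤ 2 := fun i => (near_bd (hl i) (hx i)).trans (by linarith)
  have hx2 : ∀ i, |x i| ≤ 2 := fun i => (hx i).trans (by norm_num)
  have c1 : R ≤ R ^ 3 := by nlinarith [sq_nonneg R]
  have c2 : R ^ 2 ≤ R ^ 3 := by nlinarith [sq_nonneg R]
  have c0 : 1 ≤ R ^ 3 := by linarith
  -- products with a derivative of the position
  have key : ∀ Q : MvPolynomial (Fin d) ℝ, Q.totalDegree ≤ K → Cf R Q →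
      |∑ b, eval (fun i => eval y (lam i)) (MvPolynomial.pderiv b Q) * eval y (MvPolynomial.pderiv j (lam b)) -
        ∑ b, eval x (MvPolynomial.pderiv b Q) * v b| ≤ d * (M * R * τ + R * (M * R * τ)) ∧
      |∑ b, eval (fun i => eval y (lam i)) (MvPolynomial.pderiv b Q) * eval y (MvPolynomial.pderiv j (lam b))| ≤
        d * (M * R * (2 * R)) := by
    intro Q dQ cQ
    constructor
    · refine (sum_err univ (ε := M * R * τ + R * (M * R * τ)) fun b _ => ?_).trans (le_of_eq ?_)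
      · obtain ⟨b1, b2⟩ := h0 ((K + 1) * R) (MvPolynomial.pderiv b Q) (by positivity)
          (deg_pderiv dQ b) (cQ.pderiv' hR0 dQ b)
        have e1 := mul_err (b1 _ hx') (hv b) (b2 _ _ τ hτ hx' hx2 hl) (hl' b)
        refine e1.trans (le_of_eq ?_)
        rw [hM]
        ring
      · rw [Finset.card_univ, Fintype.card_fin]
    · refine (Finset.abs_sum_le_sum_abs _ _).trans ?_
      have e1 : ∀ b ∈ (univ : Finset (Fin d)),
          |eval (fun i => eval y (lam i)) (MvPolynomial.pderiv b Q) * eval y (MvPolynomial.pderiv j (lam b))| ≤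
          M * R * (2 * R) := fun b _ => by
        rw [abs_mul]
        obtain ⟨b1, -⟩ := h0 ((K + 1) * R) (MvPolynomial.pderiv b Q) (by positivity)
          (deg_pderiv dQ b) (cQ.pderiv' hR0 dQ b)
        refine mul_le_mul ((b1 _ hx').trans (le_of_eq (by rw [hM]; ring)))
          ((near_bd (hl' b) (hv b)).trans (by linarith)) (abs_nonneg _) (by positivity)
      refine (Finset.sum_le_sum e1).trans (le_of_eq ?_)
      rw [Finset.sum_const, Finset.card_univ, Fintype.card_fin, nsmul_eq_mul]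
  rw [eval_pd_rlf]
  unfold drw
  have e1 : |∑ a, (eval (fun i => eval y (lam i)) (w a) * eval y (MvPolynomial.pderiv j (pi a)) +
        (∑ b, eval (fun i => eval y (lam i)) (MvPolynomial.pderiv b (w a)) *
          eval y (MvPolynomial.pderiv j (lam b))) * eval y (pi a)) -
      ∑ a, (eval x (w a) * q a + (∑ b, eval x (MvPolynomial.pderiv b (w a)) * v b) * P a)| ≤
      d * ((2 * M + d * (4 * M)) * R ^ 3 * τ) := by
    refine (sum_err univ (ε := (2 * M + d * (4 * M)) * R ^ 3 * τ) fun a _ => ?_).trans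
      (le_of_eq (by rw [Finset.card_univ, Fintype.card_fin]))
    obtain ⟨b1, b2⟩ := h0 R (w a) hR0 (dw a) (cw a)
    have f1 := mul_err (b1 _ hx') (hq a) (b2 _ _ τ hτ hx' hx2 hl) (hp' a)
    obtain ⟨g1, g2⟩ := key (w a) (dw a) (cw a)
    have f2 := mul_err g2 (hP a) g1 (hp a)
    have e0 : (eval (fun i => eval y (lam i)) (w a) * eval y (MvPolynomial.pderiv j (pi a)) +
        (∑ b, eval (fun i => eval y (lam i)) (MvPolynomial.pderiv b (w a)) *
          eval y (MvPolynomial.pderiv j (lam b))) * eval y (pi a)) -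
        (eval x (w a) * q a + (∑ b, eval x (MvPolynomial.pderiv b (w a)) * v b) * P a) =
        (eval (fun i => eval y (lam i)) (w a) * eval y (MvPolynomial.pderiv j (pi a)) -
          eval x (w a) * q a) +
        ((∑ b, eval (fun i => eval y (lam i)) (MvPolynomial.pderiv b (w a)) *
          eval y (MvPolynomial.pderiv j (lam b))) * eval y (pi a) -
          (∑ b, eval x (MvPolynomial.pderiv b (w a)) * v b) * P a) := by ring
    rw [e0]
    refine (abs_add_le _ _).trans ((add_le_add f1 f2).trans ?_)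
    have a1 : N₀ * R * τ + R * (N₀ * R * τ) ≤ 2 * M * R ^ 3 * τ := by
      have b3 : N₀ * (R * τ) ≤ M * (R ^ 3 * τ) :=
        mul_le_mul hM1 (mul_le_mul_of_nonneg_right c1 hτ) (by positivity) hM0
      have b4 : N₀ * (R ^ 2 * τ) ≤ M * (R ^ 3 * τ) :=
        mul_le_mul hM1 (mul_le_mul_of_nonneg_right c2 hτ) (by positivity) hM0
      nlinarith
    have a2 : d * (M * R * (2 * R)) * τ + R * (d * (M * R * τ + R * (M * R * τ))) ≤
        d * (4 * M) * R ^ 3 * τ := by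
      have b3 : (d * M : ℝ) * (R ^ 2 * τ) ≤ (d * M) * (R ^ 3 * τ) :=
        mul_le_mul_of_nonneg_left (mul_le_mul_of_nonneg_right c2 hτ) (by positivity)
      nlinarith
    linarith
  have e2 := (key κ dκ cκ).1
  have e3 : d * (M * R * τ + R * (M * R * τ)) ≤ 2 * (d * M) * R ^ 3 * τ := by
    have b3 : (d * M : ℝ) * (R * τ) ≤ (d * M) * (R ^ 3 * τ) :=
      mul_le_mul_of_nonneg_left (mul_le_mul_of_nonneg_right c1 hτ) (by positivity)
    have b4 : (d * M : ℝ) * (R ^ 2 * τ) ≤ (d * M) * (R ^ 3 * τ) :=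
      mul_le_mul_of_nonneg_left (mul_le_mul_of_nonneg_right c2 hτ) (by positivity)
    nlinarith
  obtain ⟨S1, hS1⟩ : ∃ z : ℝ, z = ∑ a, (eval (fun i => eval y (lam i)) (w a) *
    eval y (MvPolynomial.pderiv j (pi a)) + (∑ b, eval (fun i => eval y (lam i))
      (MvPolynomial.pderiv b (w a)) * eval y (MvPolynomial.pderiv j (lam b))) * eval y (pi a)) :=
    ⟨_, rfl⟩
  obtain ⟨S2, hS2⟩ : ∃ z : ℝ, z = ∑ a, (eval x (w a) * q a +
    (∑ b, eval x (MvPolynomial.pderiv b (w a)) * v b) * P a) := ⟨_, rfl⟩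
  obtain ⟨S3, hS3⟩ : ∃ z : ℝ, z = ∑ b, eval (fun i => eval y (lam i))
    (MvPolynomial.pderiv b κ) * eval y (MvPolynomial.pderiv j (lam b)) := ⟨_, rfl⟩
  obtain ⟨S4, hS4⟩ : ∃ z : ℝ, z = ∑ b, eval x (MvPolynomial.pderiv b κ) * v b := ⟨_, rfl⟩
  rw [← hS1, ← hS2] at e1
  rw [← hS3, ← hS4] at e2
  rw [← hS1, ← hS2, ← hS3, ← hS4]
  have e5 : S1 - S3 - (S2 - S4) = (S1 - S2) - (S3 - S4) := by ring
  rw [e5]
  refine (abs_sub _ _).trans ?_
  have a3 : 0 ≤ R ^ 3 * τ := by positivity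
  have a4 : 0 ≤ (d : ℝ) * M * (R ^ 3 * τ) := by positivity
  have a5 : 0 ≤ (d : ℝ) * (d * M) * (R ^ 3 * τ) := by positivity
  nlinarith

/-- The own leaf at a sample. -/
structure Leaf (lam pi : Fin d → MvPolynomial (Fin k) ℝ) (y : Fin k → ℝ) (x P : Fin d → ℝ)
    (v q : Fin k → Fin d → ℝ) (R τ : ℝ) : Prop where
  hy : ∀ j, |y j| ≤ 1
  hx : ∀ i, |x i| ≤ 1
  hP : ∀ a, |P a| ≤ R
  hv : ∀ j a, |v j a| ≤ R
  hq : ∀ j a, |q j a| ≤ R
  pos : ∀ b, |eval y (lam b) - x b| ≤ τ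
  grd : ∀ a, |eval y (pi a) - P a| ≤ τ
  dpos : ∀ j b, |eval y (MvPolynomial.pderiv j (lam b)) - v j b| ≤ τ
  dgrd : ∀ j a, |eval y (MvPolynomial.pderiv j (pi a)) - q j a| ≤ τ

/-- **A relation can be differentiated along the own leaf**, up to a small event. -/
theorem leaf_row (d k K : ℕ) : ∃ C : ℝ, 1 ≤ C ∧
    ∀ (Ω Γ Lf : Type) [Fintype Ω] (p : Ω → ℝ) (L : ℕ) (c : Ω → Γ) (l : Ω → Lf)
      (lam pi : Lf → Fin d → MvPolynomial (Fin k) ℝ) (w : Γ → Fin d → MvPolynomial (Fin d) ℝ)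
      (κ : Γ → MvPolynomial (Fin d) ℝ) (y : Ω → Fin k → ℝ) (x P : Ω → Fin d → ℝ)
      (v q : Ω → Fin k → Fin d → ℝ) (E : Ω → Prop) (R τ θ η : ℝ),
      IsLaw p → 1 ≤ R → 0 < τ → τ ≤ 1 → 0 ≤ θ → 0 < η → η ≤ 1 →
      (∀ z a, (lam z a).totalDegree ≤ K) → (∀ z a, (pi z a).totalDegree ≤ K) →
      (∀ z a, (w z a).totalDegree ≤ K) → (∀ z, (κ z).totalDegree ≤ K) →
      (∀ z a, Cf R (w z a)) → (∀ z, Cf R (κ z)) →
      (∀ ω, 0 < p ω → ∀ j, |y ω j| ≤ 1) →
      (∀ ω, 0 < p ω → E ω → Leaf (lam (l ω)) (pi (l ω)) (y ω) (x ω) (P ω) (v ω) (q ω) R τ) →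
      k * (L * Real.log 2) - θ ≤ CH p (fun ω => dg L (y ω)) (fun ω => (c ω, l ω)) →
      C * (θ + 1) / η ^ 2 ≤ L * Real.log 2 →
      (∀ ω, 0 < p ω → E ω →
        |∑ a, eval (x ω) (w (c ω) a) * P ω a - eval (x ω) (κ (c ω))| ≤ τ) →
      Pb p (fun ω => E ω ∧ ¬ ∀ j, |drw (w (c ω)) (κ (c ω)) (x ω) (P ω) (v ω j) (q ω j)| ≤
        Real.exp (C * (θ + 1) / η ^ 2) * R ^ 3 * τ) ≤ η := by
  classical
  obtain ⟨N₁, hN₁, h₁⟩ := rlf_pt d K
  obtain ⟨N₂, hN₂, h₂⟩ := drw_pt d K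
  obtain ⟨N₃, hN₃, h₃⟩ := bd2 k (K * K + K)
  obtain ⟨C, hC, h⟩ := uni_cf k (K * K + K)
  obtain ⟨B, hB⟩ : ∃ B : ℝ, B = N₃ * ((K * K + K : ℕ) + 1) * N₁ + N₂ := ⟨_, rfl⟩
  have hB1 : 1 ≤ B := by
    rw [hB]
    have : 0 ≤ N₃ * (((K * K + K : ℕ) : ℝ) + 1) * N₁ := by positivity
    linarith
  refine ⟨C + B, by linarith, ?_⟩
  intro Ω Γ Lf _ p L c l lam pi w κ y x P v q E R τ θ η hp hR hτ hτ1 hθ hη hη1 dl dpi dw dκ cw cκ
    hy hlf hH hL hrel
  have hR0 : 0 ≤ R := by linarith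
  have hη2 : η ^ 2 ≤ 1 := pow_le_one₀ hη.le hη1
  have hηp : 0 < η ^ 2 := by positivity
  have hc1 : C * (θ + 1) / η ^ 2 ≤ (C + B) * (θ + 1) / η ^ 2 :=
    div_le_div_of_nonneg_right (by nlinarith) hηp.le
  have key := h Ω (Γ × Lf) p L y (fun ω => (c ω, l ω))
    (fun z => rlf (lam z.2) (pi z.2) (w z.1) (κ z.1)) E (N₁ * R ^ 2 * τ) θ η hp
    (fun z => deg_rlf (dl _) (dpi _) (dw _) (dκ _)) hθ hη hη1 (by positivity) hy hH
    (hc1.trans hL) (fun ω hω hE => ?_)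
  · refine le_trans (Pb_supp hp.nonneg fun ω hω0 hω => ⟨hω.1, fun hb => hω.2 fun j => ?_⟩) key
    have hl := hlf ω hω0 hω.1
    have e1 := h₂ k (lam (l ω)) (pi (l ω)) (w (c ω)) (κ (c ω)) (y ω) j (x ω) (P ω) (v ω j)
      (q ω j) R τ hR hτ.le hτ1 (dw _) (dκ _) (cw _) (cκ _) hl.hx hl.hP (hl.hv j) (hl.hq j) hl.pos
      hl.grd (hl.dpos j) (hl.dgrd j)
    obtain ⟨ex, hex⟩ : ∃ z : ℝ, z = Real.exp (C * (θ + 1) / η ^ 2) := ⟨_, rfl⟩
    rw [← hex] at hb
    have hex1 : 1 ≤ ex := by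
      rw [hex]
      exact Real.one_le_exp (by positivity)
    have e2 := (h₃ ((((K * K + K : ℕ) : ℝ) + 1) * (ex * (N₁ * R ^ 2 * τ)))
      (MvPolynomial.pderiv j (rlf (lam (l ω)) (pi (l ω)) (w (c ω)) (κ (c ω))))
      (by positivity) (deg_pderiv (deg_rlf (dl _) (dpi _) (dw _) (dκ _)) j)
      (hb.pderiv' (by positivity) (deg_rlf (dl _) (dpi _) (dw _) (dκ _)) j)).1 (y ω)
      fun i => (hl.hy i).trans (by norm_num)
    have e3 : |drw (w (c ω)) (κ (c ω)) (x ω) (P ω) (v ω j) (q ω j)| ≤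
        N₃ * ((((K * K + K : ℕ) : ℝ) + 1) * (ex * (N₁ * R ^ 2 * τ))) + N₂ * R ^ 3 * τ := by
      have := abs_sub_abs_le_abs_sub (drw (w (c ω)) (κ (c ω)) (x ω) (P ω) (v ω j) (q ω j))
        (eval (y ω) (MvPolynomial.pderiv j (rlf (lam (l ω)) (pi (l ω)) (w (c ω)) (κ (c ω)))))
      rw [abs_sub_comm] at e1
      linarith
    refine e3.trans ?_
    have e4 : Real.exp ((C + B) * (θ + 1) / η ^ 2) =
        Real.exp (B * (θ + 1) / η ^ 2) * ex := by
      rw [hex, ← Real.exp_add]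
      refine congrArg Real.exp ?_
      field_simp
      ring
    have e5 : B ≤ Real.exp (B * (θ + 1) / η ^ 2) := by
      have e6 : B ≤ B * (θ + 1) / η ^ 2 := by
        rw [le_div_iff₀ hηp]
        have : B * η ^ 2 ≤ B * 1 := mul_le_mul_of_nonneg_left hη2 (by linarith)
        nlinarith
      have := Real.add_one_le_exp (B * (θ + 1) / η ^ 2)
      linarith
    rw [e4]
    have e7 : B * ex * R ^ 3 * τ ≤ Real.exp (B * (θ + 1) / η ^ 2) * ex * R ^ 3 * τ :=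
      mul_le_mul_of_nonneg_right (mul_le_mul_of_nonneg_right
        (mul_le_mul_of_nonneg_right e5 (by linarith)) (by positivity)) hτ.le
    refine le_trans ?_ e7
    rw [hB]
    have c2 : R ^ 2 ≤ R ^ 3 := by nlinarith [sq_nonneg R]
    obtain ⟨G, hG⟩ : ∃ G : ℝ, G = N₃ * (((K * K + K : ℕ) : ℝ) + 1) * N₁ := ⟨_, rfl⟩
    have hG0 : 0 ≤ G := by
      rw [hG]
      positivity
    have a1 : N₃ * ((((K * K + K : ℕ) : ℝ) + 1) * (ex * (N₁ * R ^ 2 * τ))) =
        G * (ex * (R ^ 2 * τ)) := by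
      rw [hG]
      ring
    rw [a1, ← hG]
    have a2 : G * (ex * (R ^ 2 * τ)) ≤ G * (ex * (R ^ 3 * τ)) := by
      refine mul_le_mul_of_nonneg_left (mul_le_mul_of_nonneg_left
        (mul_le_mul_of_nonneg_right c2 hτ.le) (by linarith)) hG0
    have a3 : N₂ * R ^ 3 * τ ≤ ex * (N₂ * R ^ 3 * τ) :=
      le_mul_of_one_le_left (by positivity) hex1
    nlinarith
  · have hl := hlf ω hω hE
    exact h₁ k (lam (l ω)) (pi (l ω)) (w (c ω)) (κ (c ω)) (y ω) (x ω) (P ω) R τ hR hτ.le hτ1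
      (dw _) (dκ _) (cw _) (cκ _) hl.hx hl.hP hl.pos hl.grd (hrel ω hω hE)

end Pool.TIE66
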