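import Pool.Agent.H66.TIE.Leaf

/-!
# Constant fields: the skew form of the own direction vanishes

`leaf_const`: if `w . p = kap (x)` with `w, kap` functions of the context holds on an event then
`D_j kap = w . grad f_j` for the own directions `D_j` and the own `f_j`, coefficient by coefficient,
up to a small event.
-/

set_option autoImplicit false

namespace Pool.TIE66

open Finset Real MvPolynomial
open Pool.Agent.H49.Ent Pool.Agent.H32.Dense Pool.STK Pool.STAT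
open Pool.BFL (Pb)
open Pool.MIC.Frm (Pb_supp)

variable {d k : ℕ}

theorem eval_dD (v : Fin d → ℝ) (P : MvPolynomial (Fin d) ℝ) (x : Fin d → ℝ) :
    eval x (dD v P) = ∑ a, v a * eval x (MvPolynomial.pderiv a P) := by
  unfold dD
  rw [map_sum]
  refine Finset.sum_congr rfl fun a _ => ?_
  rw [map_mul, eval_C]

theorem drw_const (w : Fin d → ℝ) (κ f : MvPolynomial (Fin d) ℝ) (x P v : Fin d → ℝ) :
    drw (fun a => C (w a)) κ x P v (fun a => eval x (MvPolynomial.pderiv a f)) =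
      eval x (dD w f - dD v κ) := by
  unfold drw
  rw [map_sub, eval_dD, eval_dD]
  refine congrArg₂ (fun a b => a - b) ?_ ?_
  · refine Finset.sum_congr rfl fun a _ => ?_
    rw [eval_C]
    have : ∀ b, eval x (MvPolynomial.pderiv b (C (w a) : MvPolynomial (Fin d) ℝ)) * v b = 0 := by
      intro b
      rw [pderiv_C, map_zero, zero_mul]
    rw [Finset.sum_congr rfl fun b _ => this b, Finset.sum_const_zero, zero_mul, add_zero]
  · exact Finset.sum_congr rfl fun b _ => mul_comm _ _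

theorem Cf_C {R : ℝ} (hR : 0 ≤ R) {a : ℝ} (ha : |a| ≤ R) :
    Cf R (C a : MvPolynomial (Fin d) ℝ) := by
  classical
  intro m
  rw [coeff_C]
  split_ifs
  · exact ha
  · rw [abs_zero]
    exact hR

theorem Pb_or66 {Ω : Type} [Fintype Ω] {p : Ω → ℝ} (hp : ∀ ω, 0 ≤ p ω) (A B : Ω → Prop) :
    Pb p (fun ω => A ω ∨ B ω) ≤ Pb p A + Pb p B := by
  classical
  unfold Pb
  rw [← Finset.sum_add_distrib]
  refine Finset.sum_le_sum fun ω _ => ?_
  have h0 := hp ω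
  by_cases hA : A ω <;> by_cases hB : B ω <;> simp [hA, hB, h0]

/-- **Constant fields: the skew form of the own directions vanishes**, up to a small event. -/
theorem leaf_const (d k K : ℕ) : ∃ C' : ℝ, 1 ≤ C' ∧
    ∀ (Ω Γ Lf S : Type) [Fintype Ω] (p : Ω → ℝ) (L : ℕ) (c : Ω → Γ) (l : Ω → Lf) (s : Ω → S)
      (lam pi : Lf → Fin d → MvPolynomial (Fin k) ℝ) (w : Γ → Fin d → ℝ)
      (κ : Γ → MvPolynomial (Fin d) ℝ) (Dr : S → Fin k → Fin d → ℝ)
      (f : S → Fin k → MvPolynomial (Fin d) ℝ) (y : Ω → Fin k → ℝ) (x P : Ω → Fin d → ℝ)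
      (E : Ω → Prop) (R τ θ η : ℝ),
      IsLaw p → 1 ≤ R → 0 < τ → τ ≤ 1 → 0 ≤ θ → 0 < η → η ≤ 1 →
      (∀ z a, (lam z a).totalDegree ≤ K) → (∀ z a, (pi z a).totalDegree ≤ K) →
      (∀ z, (κ z).totalDegree ≤ K) → (∀ z j, (f z j).totalDegree ≤ K) →
      (∀ z a, |w z a| ≤ R) → (∀ z, Cf R (κ z)) →
      (∀ ω, 0 < p ω → ∀ j, |y ω j| ≤ 1) → (∀ ω, 0 < p ω → ∀ j, |x ω j| ≤ 1) →
      (∀ ω, 0 < p ω → E ω → Leaf (lam (l ω)) (pi (l ω)) (y ω) (x ω) (P ω) (Dr (s ω))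
        (fun j a => eval (x ω) (MvPolynomial.pderiv a (f (s ω) j))) R τ) →
      k * (L * Real.log 2) - θ ≤ CH p (fun ω => dg L (y ω)) (fun ω => (c ω, l ω)) →
      d * (L * Real.log 2) - θ ≤ CH p (fun ω => dg L (x ω)) (fun ω => (c ω, s ω)) →
      C' * (θ + 1) / η ^ 2 ≤ L * Real.log 2 →
      (∀ ω, 0 < p ω → E ω → |∑ a, w (c ω) a * P ω a - eval (x ω) (κ (c ω))| ≤ τ) →
      Pb p (fun ω => E ω ∧ ¬ ∀ j, Cf (Real.exp (C' * (θ + 1) / η ^ 2) * R ^ 3 * τ)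
        (dD (Dr (s ω) j) (κ (c ω)) - dD (w (c ω)) (f (s ω) j))) ≤ (k + 1) * η := by
  classical
  obtain ⟨C₁, hC₁, h₁⟩ := leaf_row d k K
  obtain ⟨C₂, hC₂, h₂⟩ := uni_cf d K
  refine ⟨C₁ + C₂, by linarith, ?_⟩
  intro Ω Γ Lf S _ p L c l s lam pi w κ Dr f y x P E R τ θ η hp hR hτ hτ1 hθ hη hη1 dl dpi dκ df
    bw cκ hy hx hlf hHy hHx hL hrel
  have hR0 : 0 ≤ R := by linarith
  have hηp : 0 < η ^ 2 := by positivity
  have hc1 : C₁ * (θ + 1) / η ^ 2 ≤ (C₁ + C₂) * (θ + 1) / η ^ 2 :=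
    div_le_div_of_nonneg_right (by nlinarith) hηp.le
  have hc2 : C₂ * (θ + 1) / η ^ 2 ≤ (C₁ + C₂) * (θ + 1) / η ^ 2 :=
    div_le_div_of_nonneg_right (by nlinarith) hηp.le
  have k1 := h₁ Ω Γ Lf p L c l lam pi (fun z a => C (w z a)) κ y x P (fun ω => Dr (s ω))
    (fun ω j a => eval (x ω) (MvPolynomial.pderiv a (f (s ω) j))) E R τ θ η hp hR hτ hτ1 hθ hη hη1
    dl dpi (fun z a => by rw [totalDegree_C]; exact Nat.zero_le _) dκ
    (fun z a => Cf_C hR0 (bw z a)) cκ hy hlf hHy (hc1.trans hL)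
    (fun ω hω hE => by
      have := hrel ω hω hE
      simp only [eval_C]
      exact this)
  obtain ⟨e₁, he₁⟩ : ∃ z : ℝ, z = Real.exp (C₁ * (θ + 1) / η ^ 2) * R ^ 3 * τ := ⟨_, rfl⟩
  have he₁0 : 0 < e₁ := by
    rw [he₁]
    have := Real.exp_pos (C₁ * (θ + 1) / η ^ 2)
    positivity
  have ee : Real.exp ((C₁ + C₂) * (θ + 1) / η ^ 2) * R ^ 3 * τ =
      Real.exp (C₂ * (θ + 1) / η ^ 2) * e₁ := by
    have : Real.exp ((C₁ + C₂) * (θ + 1) / η ^ 2) =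
        Real.exp (C₂ * (θ + 1) / η ^ 2) * Real.exp (C₁ * (θ + 1) / η ^ 2) := by
      rw [← Real.exp_add]
      refine congrArg Real.exp ?_
      field_simp
      ring
    rw [this, he₁]
    ring
  rw [← he₁] at k1
  obtain ⟨E1, hE1⟩ : ∃ E1 : Ω → Prop, E1 = fun ω => E ω ∧ ∀ j, |drw (fun a => C (w (c ω) a))
    (κ (c ω)) (x ω) (P ω) (Dr (s ω) j)
      (fun a => eval (x ω) (MvPolynomial.pderiv a (f (s ω) j)))| ≤ e₁ := ⟨_, rfl⟩
  have k2 : ∀ j, Pb p (fun ω => E1 ω ∧ ¬ Cf (Real.exp (C₂ * (θ + 1) / η ^ 2) * e₁)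
      (dD (w (c ω)) (f (s ω) j) - dD (Dr (s ω) j) (κ (c ω)))) ≤ η := by
    intro j
    refine h₂ Ω (Γ × S) p L x (fun ω => (c ω, s ω))
      (fun z => dD (w z.1) (f z.2 j) - dD (Dr z.2 j) (κ z.1)) E1 e₁ θ η hp
      (fun z => (totalDegree_sub _ _).trans (max_le (deg_dD (df _ _) _) (deg_dD (dκ _) _)))
      hθ hη hη1 he₁0 hx hHx (hc2.trans hL) (fun ω hω hE => ?_)
    rw [hE1] at hE
    have := hE.2 j
    rw [drw_const] at this
    exact this
  have k3 : Pb p (fun ω => ∃ j, E1 ω ∧ ¬ Cf (Real.exp (C₂ * (θ + 1) / η ^ 2) * e₁)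
      (dD (w (c ω)) (f (s ω) j) - dD (Dr (s ω) j) (κ (c ω)))) ≤ k * η := by
    refine (Pool.MIC.Pb_exists_le hp.nonneg _).trans ?_
    refine (Finset.sum_le_sum fun j _ => k2 j).trans (le_of_eq ?_)
    rw [Finset.sum_const, Finset.card_univ, Fintype.card_fin, nsmul_eq_mul]
  have k4 : Pb p (fun ω => E ω ∧ ¬ ∀ j, Cf (Real.exp ((C₁ + C₂) * (θ + 1) / η ^ 2) * R ^ 3 * τ)
        (dD (Dr (s ω) j) (κ (c ω)) - dD (w (c ω)) (f (s ω) j))) ≤
      Pb p (fun ω => E ω ∧ ¬ ∀ j, |drw (fun a => C (w (c ω) a))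
        (κ (c ω)) (x ω) (P ω) (Dr (s ω) j)
        (fun a => eval (x ω) (MvPolynomial.pderiv a (f (s ω) j)))| ≤ e₁) +
      Pb p (fun ω => ∃ j, E1 ω ∧ ¬ Cf (Real.exp (C₂ * (θ + 1) / η ^ 2) * e₁)
        (dD (w (c ω)) (f (s ω) j) - dD (Dr (s ω) j) (κ (c ω)))) := by
    refine (Pool.MIC.Pb_le_of_imp hp.nonneg fun ω _ hω => ?_).trans
      (Pb_or66 hp.nonneg _ _)
    by_cases h : ∀ j, |drw (fun a => C (w (c ω) a))
        (κ (c ω)) (x ω) (P ω) (Dr (s ω) j)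
        (fun a => eval (x ω) (MvPolynomial.pderiv a (f (s ω) j)))| ≤ e₁
    · right
      by_contra hn
      refine hω.2 fun j => ?_
      rw [ee]
      have h1 : Cf (Real.exp (C₂ * (θ + 1) / η ^ 2) * e₁)
          (dD (w (c ω)) (f (s ω) j) - dD (Dr (s ω) j) (κ (c ω))) := by
        by_contra h2
        refine hn ⟨j, ?_, h2⟩
        rw [hE1]
        exact ⟨hω.1, h⟩
      have h3 := h1.neg
      rw [neg_sub] at h3
      exact h3
    · left
      exact ⟨hω.1, h⟩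
  linarith

end Pool.TIE66
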