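import Mathlib

/-!
# Polynomials: size and Lipschitz bounds

The constants depend on the polynomial only; the growth in the size of the argument is a power.
-/

set_option autoImplicit false

namespace Pool.TIE66

open Finset MvPolynomial

variable {σ : Type*}

/-- The bounds for one polynomial. -/
def Lip (P : MvPolynomial σ ℝ) (C : ℝ) (D : ℕ) : Prop :=
  ∀ (R : ℝ), 1 ≤ R → ∀ y : σ → ℝ, (∀ i, |y i| ≤ R) → |eval y P| ≤ C * R ^ D ∧
    ∀ (y' : σ → ℝ) (δ : ℝ), 0 ≤ δ → (∀ i, |y' i| ≤ R) → (∀ i, |y i - y' i| ≤ δ) →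
      |eval y P - eval y' P| ≤ C * R ^ D * δ

theorem Lip.mono {P : MvPolynomial σ ℝ} {C C' : ℝ} {D D' : ℕ} (h : Lip P C D) (h0 : 0 ≤ C)
    (hC : C ≤ C') (hD : D ≤ D') : Lip P C' D' := by
  intro R hR y hy
  obtain ⟨h1, h2⟩ := h R hR y hy
  have e1 : C * R ^ D ≤ C' * R ^ D' :=
    mul_le_mul hC (pow_le_pow_right₀ hR hD) (by positivity) (h0.trans hC)
  refine ⟨h1.trans e1, fun y' δ hδ hy' hd => (h2 y' δ hδ hy' hd).trans ?_⟩
  exact mul_le_mul_of_nonneg_right e1 hδ

theorem lip (P : MvPolynomial σ ℝ) : ∃ (C : ℝ) (D : ℕ), 1 ≤ C ∧ Lip P C D := by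
  induction P using MvPolynomial.induction_on with
  | C a =>
    refine ⟨|a| + 1, 0, by linarith [abs_nonneg a], ?_⟩
    intro R hR y hy
    refine ⟨?_, fun y' δ hδ _ _ => ?_⟩
    · rw [eval_C, pow_zero]
      linarith
    · rw [eval_C, eval_C, sub_self, abs_zero, pow_zero]
      have := abs_nonneg a
      positivity
  | add p q hp hq =>
    obtain ⟨C, D, h1, hp⟩ := hp
    obtain ⟨C', D', h1', hq⟩ := hq
    refine ⟨C + C', D + D', by linarith, ?_⟩
    intro R hR y hy
    have a1 := hp.mono (C' := C) (D' := D + D') (by linarith) le_rfl (by omega) R hR y hy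
    have a2 := hq.mono (C' := C') (D' := D + D') (by linarith) le_rfl (by omega) R hR y hy
    refine ⟨?_, fun y' δ hδ hy' hd => ?_⟩
    · rw [eval_add]
      refine (abs_add_le _ _).trans ?_
      rw [add_mul]
      exact add_le_add a1.1 a2.1
    · rw [eval_add, eval_add, add_sub_add_comm]
      refine (abs_add_le _ _).trans ?_
      rw [add_mul, add_mul]
      exact add_le_add (a1.2 y' δ hδ hy' hd) (a2.2 y' δ hδ hy' hd)
  | mul_X p i hp =>
    obtain ⟨C, D, h1, hp⟩ := hp
    refine ⟨2 * C, D + 1, by linarith, ?_⟩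
    intro R hR y hy
    obtain ⟨a1, a2⟩ := hp R hR y hy
    have hC0 : 0 ≤ C * R ^ D := by positivity
    have hR0 : 0 ≤ R := by linarith
    have e0 : 2 * C * R ^ (D + 1) = 2 * (C * R ^ D) * R := by ring
    refine ⟨?_, fun y' δ hδ hy' hd => ?_⟩
    · rw [eval_mul, eval_X, abs_mul, e0]
      calc |eval y p| * |y i| ≤ (C * R ^ D) * R := mul_le_mul a1 (hy i) (abs_nonneg _) hC0
        _ ≤ 2 * (C * R ^ D) * R := by
          have := mul_nonneg hC0 hR0
          linarith
    · rw [eval_mul, eval_X, eval_mul, eval_X]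
      have e1 : eval y p * y i - eval y' p * y' i =
          (eval y p - eval y' p) * y i + eval y' p * (y i - y' i) := by ring
      rw [e1, e0]
      refine (abs_add_le _ _).trans ?_
      rw [abs_mul, abs_mul]
      have b1 : |eval y p - eval y' p| * |y i| ≤ (C * R ^ D * δ) * R :=
        mul_le_mul (a2 y' δ hδ hy' hd) (hy i) (abs_nonneg _) (by positivity)
      have b2 : |eval y' p| * |y i - y' i| ≤ (C * R ^ D) * δ :=
        mul_le_mul (hp R hR y' hy').1 (hd i) (abs_nonneg _) hC0
      have b3 : (C * R ^ D) * δ ≤ (C * R ^ D) * δ * R := by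
        have : 0 ≤ (C * R ^ D) * δ := by positivity
        exact le_mul_of_one_le_right this hR
      calc _ ≤ (C * R ^ D * δ) * R + (C * R ^ D) * δ := add_le_add b1 b2
        _ ≤ (C * R ^ D * δ) * R + (C * R ^ D) * δ * R := by linarith
        _ = 2 * (C * R ^ D) * R * δ := by ring

/-- The bounds for a finite family. -/
theorem lip_fam {ι : Type*} (s : Finset ι) (P : ι → MvPolynomial σ ℝ) :
    ∃ (C : ℝ) (D : ℕ), 1 ≤ C ∧ ∀ i ∈ s, Lip (P i) C D := by
  choose C D h1 h using fun i => lip (P i)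
  refine ⟨1 + ∑ i ∈ s, C i, ∑ i ∈ s, D i, ?_, fun i hi => ?_⟩
  · have : 0 ≤ ∑ i ∈ s, C i := Finset.sum_nonneg fun i _ => by linarith [h1 i]
    linarith
  · refine (h i).mono (by linarith [h1 i]) ?_ ?_
    · have := Finset.single_le_sum (f := C) (fun j _ => by linarith [h1 j]) hi
      linarith
    · exact Finset.single_le_sum (f := D) (fun _ _ => Nat.zero_le _) hi

/-- The degree of the value at polynomials in one variable. -/
theorem natDegree_aeval (P : MvPolynomial σ ℝ) (F : σ → Polynomial ℝ) {K : ℕ}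
    (hF : ∀ i, (F i).natDegree ≤ K) : (aeval F P).natDegree ≤ P.totalDegree * K := by
  classical
  rw [aeval_def, eval₂_eq]
  refine Polynomial.natDegree_sum_le_of_forall_le _ _ fun m hm => ?_
  refine (Polynomial.natDegree_mul_le).trans ?_
  have h0 : (algebraMap ℝ (Polynomial ℝ) (coeff m P)).natDegree = 0 := by
    rw [Polynomial.algebraMap_eq, Polynomial.natDegree_C]
  rw [h0, zero_add]
  refine (Polynomial.natDegree_prod_le _ _).trans ?_
  calc ∑ i ∈ m.support, (F i ^ m i).natDegree ≤ ∑ i ∈ m.support, m i * K := by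
        refine Finset.sum_le_sum fun i _ => ?_
        exact (Polynomial.natDegree_pow_le).trans (Nat.mul_le_mul_left _ (hF i))
    _ = (m.sum fun _ e => e) * K := by rw [← Finset.sum_mul]; rfl
    _ ≤ P.totalDegree * K := Nat.mul_le_mul_right _ (le_totalDegree hm)

theorem eval_aeval (P : MvPolynomial σ ℝ) (F : σ → Polynomial ℝ) (t : ℝ) :
    (aeval F P).eval t = eval (fun i => (F i).eval t) P := by
  induction P using MvPolynomial.induction_on with
  | C a => simp [algHom_C, algebraMap_eq]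
  | add p q hp hq => simp only [map_add, Polynomial.eval_add, hp, hq]
  | mul_X p i hp => simp only [map_mul, aeval_X, Polynomial.eval_mul, hp, eval_X]

end Pool.TIE66
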