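import Pool.Agent.H66.TIE.Fam

/-!
# The potential, closed and visible

`potOut`: the own rows `(v_j, f_j)` (`v_j . p = f_j (x)` at the exact point) are independent of the
exact point given the label and the time, and the leaf of the own sample is known. Then there is a
polynomial `Phi` of the position, function of the exact point and polynomial in the time along the
line, with `D_(v_j) Phi = f_j` for the own rows, with positive probability.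
-/

set_option autoImplicit false

namespace Pool.TIE66

open Finset Polynomial
open Pool.Agent.H49.Ent Pool.Agent.H32.Dense Pool.STK Pool.BFL Pool.GLB Pool.CLU Pool.REL
open Pool.TIE38 (Own OutT tieRows)

theorem Leaf.mono {d k : ℕ} {lam pi : Fin d → MvPolynomial (Fin k) ℝ} {y : Fin k → ℝ}
    {x P : Fin d → ℝ} {v q : Fin k → Fin d → ℝ} {R τ R' τ' : ℝ} (h : Leaf lam pi y x P v q R τ)
    (hR : R ≤ R') (hτ : τ ≤ τ') : Leaf lam pi y x P v q R' τ' :=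
  ⟨h.hy, h.hx, fun a => (h.hP a).trans hR, fun j a => (h.hv j a).trans hR,
    fun j a => (h.hq j a).trans hR, fun b => (h.pos b).trans hτ, fun a => (h.grd a).trans hτ,
    fun j b => (h.dpos j b).trans hτ, fun j a => (h.dgrd j a).trans hτ⟩

/-- The data of the own leaf. -/
structure LeafD {h m d N k : ℕ} (ix : Fin m ≃ Fin d ⊕ {k // k ∈ Mn d N}) (B : Bd h m 1) (K : ℕ)
    (xv : B.Ξ → Fin d → ℝ) {𝒯 Lf : Type} (t : B.Ω → 𝒯) (tv : 𝒯 → Fin k → Fin m → ℝ)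
    (lf : B.Ω → Lf) (lam pi : Lf → Fin d → MvPolynomial (Fin k) ℝ) (y : B.Ω → Fin k → ℝ)
    (L : ℕ) (θ : ℝ) : Prop where
  fv : ∀ ξ e, B.fv ξ (mI ix e) 0 = ∏ i, xv ξ i ^ e.1 i
  x1 : ∀ ω, 0 < B.p ω → ∀ i, |xv (B.pt ω) i| ≤ 1
  y1 : ∀ ω, 0 < B.p ω → ∀ i, |y ω i| ≤ 1
  dt : Det B.p (fun ω => (B.L ω, B.th ω)) t
  dl : Det B.p (fun ω => (B.L ω, B.th ω)) lf
  dy : Det B.p (fun ω => (B.L ω, B.th ω)) y
  dlam : ∀ z a, (lam z a).totalDegree ≤ K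
  dpi : ∀ z a, (pi z a).totalDegree ≤ K
  fulx : d * (L * Real.log 2) - θ ≤ CH B.p (fun ω => dg L (xv (B.pt ω)))
    (fun ω => (t ω, (B.b ω, B.th ω)))
  fuly : k * (L * Real.log 2) - θ ≤ CH B.p (fun ω => dg L (y ω))
    (fun ω => (lf ω, (B.b ω, B.th ω)))

/-- The own leaf is good. -/
def LGood {h m d N k : ℕ} (ix : Fin m ≃ Fin d ⊕ {k // k ∈ Mn d N}) (B : Bd h m 1)
    (xv : B.Ξ → Fin d → ℝ) {𝒯 Lf : Type} (t : B.Ω → 𝒯) (tv : 𝒯 → Fin k → Fin m → ℝ)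
    (lf : B.Ω → Lf) (lam pi : Lf → Fin d → MvPolynomial (Fin k) ℝ) (y : B.Ω → Fin k → ℝ)
    (R τ : ℝ) (ω : B.Ω) : Prop :=
  Leaf (lam (lf ω)) (pi (lf ω)) (y ω) (xv (B.pt ω)) (fun a => B.fv (B.pt ω) (gI ix a) 0)
    (fun j => vdir ix (tv (t ω) j))
    (fun j a => MvPolynomial.eval (xv (B.pt ω)) (MvPolynomial.pderiv a (kap ix (tv (t ω) j)))) R τ

/-- **The potential, closed and visible.** -/
theorem potOut (h m d N k K : ℕ) (NN : Finset (Fin h →₀ ℕ))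
    (a : Fin 1 → {γ // γ ∈ NN} → Fin m → ℝ[X]) (C₀ : ℝ) (hC₀ : 1 ≤ C₀)
    (ix : Fin m ≃ Fin d ⊕ {k // k ∈ Mn d N}) (b₀ q : ℕ) (ρ₀ : ℝ) (hρ₀ : 0 < ρ₀) :
    ∃ (Am : ℕ) (c₁ e₀ Λ₀ Cθ : ℝ), 0 < c₁ ∧ 0 < e₀ ∧ 1 ≤ Λ₀ ∧ 1 ≤ Cθ ∧
    ∀ (B : Bd h m 1) (_ : B.Ok) (θ Λ τ₀ : ℝ) (𝒯 Lf : Type) (t : B.Ω → 𝒯)
      (tv : 𝒯 → Fin k → Fin m → ℝ) (xv : B.Ξ → Fin d → ℝ) (lf : B.Ω → Lf)
      (lam pi : Lf → Fin d → MvPolynomial (Fin k) ℝ) (y : B.Ω → Fin k → ℝ) (L : ℕ),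
      Real.log 2 ≤ θ → Λ₀ ≤ Λ → Cθ * θ ≤ Real.log Λ → Cθ * θ ≤ L * Real.log 2 → 0 ≤ τ₀ →
      τ₀ * Λ ^ Am ≤ 1 →
      P2 B.p B.L (fun ω ω' => |B.th ω - B.th ω'| * Λ < 1) ≤ e₀ →
      CH B.p B.L B.b - CH B.p B.L (fun ω => (B.b ω, B.th ω)) ≤ θ →
      CH B.p t (fun ω => (B.b ω, B.th ω)) - CH B.p t B.pt ≤ θ →
      ρ₀ ≤ Pb B.p (B.Ty a C₀ τ₀) →
      (∀ x l α, |tv x l α| ≤ Λ ^ b₀) →
      LeafD ix B K xv t tv lf lam pi y L θ →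
      Pb B.p (fun ω => B.Ty a C₀ τ₀ ω ∧ ¬ Own a B τ₀ t tv ω) ≤ e₀ →
      Pb B.p (fun ω => B.Ty a C₀ τ₀ ω ∧ ¬ LGood ix B xv t tv lf lam pi y (Λ ^ b₀) τ₀ ω) ≤ e₀ →
      ∃ (A₂ : ℕ) (Φ : B.Ξ → MvPolynomial (Fin d) ℝ) (Hp : B.Λ → ℤ → MvPolynomial (Fin d) ℝ[X]),
        A₂ ≤ Am ∧ (∀ ξ, (Φ ξ).totalDegree ≤ N + 1) ∧ (∀ ξ, Cf (Λ ^ Am) (Φ ξ)) ∧
        (∀ l z, (Hp l z).totalDegree ≤ N + 1) ∧
        (∀ l z e, (MvPolynomial.coeff e (Hp l z)).natDegree ≤ Am) ∧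
        c₁ ≤ Pb B.p (fun ω => B.Ty a C₀ τ₀ ω ∧
          (∀ e, |MvPolynomial.coeff e (Φ (B.pt ω)) -
            (MvPolynomial.coeff e (Hp (B.L ω) ⌊B.th ω * Λ ^ A₂⌋)).eval (B.th ω)| ≤ 1 / Λ ^ q) ∧
          ∀ j, Cf (1 / Λ ^ q) (dD (vdir ix (tv (t ω) j)) (Φ (B.pt ω)) - kap ix (tv (t ω) j))) := by
  classical
  choose Cp Dp hCp hFam using fun P : Finset (Fin m) => fam_pt ix P
  obtain ⟨Cs, hCs⟩ : ∃ Cs : ℝ, Cs = ∑ P, Cp P := ⟨_, rfl⟩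
  obtain ⟨Ds, hDs⟩ : ∃ Ds : ℕ, Ds = ∑ P, Dp P := ⟨_, rfl⟩
  have hCP : ∀ P, Cp P ≤ Cs := fun P => by
    rw [hCs]
    exact Finset.single_le_sum (f := Cp) (fun P _ => by linarith [hCp P]) (Finset.mem_univ P)
  have hDP : ∀ P, Dp P ≤ Ds := fun P => by
    rw [hDs]
    exact Finset.single_le_sum (f := Dp) (fun P _ => Nat.zero_le _) (Finset.mem_univ P)
  have hCs1 : 1 ≤ Cs := (hCp ∅).trans (hCP ∅)
  obtain ⟨Cl, hCl, hleaf⟩ := leaf_const d k (K + N)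
  obtain ⟨Cn, hCn, hnom⟩ := no_mon d N
  -- exponents
  obtain ⟨r₀, hr₀⟩ : ∃ r₀ : ℕ, r₀ = (Qs ix).card * 4 + b₀ + 1 := ⟨_, rfl⟩
  obtain ⟨hi, hhi⟩ : ∃ hi : ℕ, hi = q + r₀ * Ds + 3 * r₀ + 6 := ⟨_, rfl⟩
  obtain ⟨Am, κm, c₁, e₀, Λ₀, hc₁, he₀, hΛ₀, H⟩ := tieRows h m 1 NN a C₀ hC₀ (Qs ix) 2 k b₀
    (fun _ _ => hi) ρ₀ hρ₀
  obtain ⟨c₂, hc₂⟩ : ∃ c₂ : ℝ, c₂ = min c₁ 1 := ⟨_, rfl⟩
  have hc₂0 : 0 < c₂ := by
    rw [hc₂]
    exact lt_min hc₁ one_pos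
  have hc₂1 : c₂ ≤ 1 := by
    rw [hc₂]
    exact min_le_right _ _
  have hc₂c : c₂ ≤ c₁ := by
    rw [hc₂]
    exact min_le_left _ _
  obtain ⟨η, hη⟩ : ∃ η : ℝ, η = c₂ / (4 * (m + 1) * (k + 1)) := ⟨_, rfl⟩
  have hη0 : 0 < η := by
    rw [hη]
    positivity
  have hη1 : η ≤ 1 := by
    rw [hη, div_le_one (by positivity)]
    have e1 : (0 : ℝ) ≤ m := Nat.cast_nonneg _
    have e2 : (0 : ℝ) ≤ k := Nat.cast_nonneg _
    nlinarith [mul_nonneg e1 e2]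
  have hη2 : m * ((k + 1) * η) ≤ c₂ / 4 := by
    rw [hη]
    have e1 : (m : ℝ) * ((k + 1) * (c₂ / (4 * (m + 1) * (k + 1)))) = m / (m + 1) * (c₂ / 4) := by
      field_simp
    rw [e1]
    have e2 : (m : ℝ) / (m + 1) ≤ 1 := by
      rw [div_le_one (by positivity)]
      linarith
    nlinarith [mul_le_mul_of_nonneg_right e2 (by positivity : (0 : ℝ) ≤ c₂ / 4)]
  obtain ⟨Cθ, hCθ⟩ : ∃ Cθ : ℝ, Cθ = 1 + Cl * (κm + 3) / η ^ 2 + Cn * (κm + 3) / (c₂ / 2) ^ 2 :=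
    ⟨_, rfl⟩
  have hCθ1 : 1 ≤ Cθ := by
    rw [hCθ]
    have e1 : 0 ≤ Cl * (κm + 3) / η ^ 2 := by positivity
    have e2 : 0 ≤ Cn * (κm + 3) / (c₂ / 2) ^ 2 := by positivity
    linarith
  refine ⟨Am + hi + r₀ + r₀ * Ds + Ds * Am + 3, c₂ / 4, min e₀ (c₂ / 4), Λ₀ + Cs + 2 * m + 4, Cθ,
    by linarith, lt_min he₀ (by linarith), by
      have : (0 : ℝ) ≤ m := Nat.cast_nonneg _
      linarith, hCθ1, ?_⟩
  intro B hB θ Λ τ₀ 𝒯 Lf t tv xv lf lam pi y L hθ2 hΛ hθΛ hθL hτ00 hτ₀ hsep hLt htp hTy htv hLD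
    hown hlg
  have p0 := hB.isLaw.nonneg
  have hl2 : 0 < Real.log 2 := Real.log_pos (by norm_num)
  have hl2' : 1 / 2 ≤ Real.log 2 := by
    have := Real.log_two_gt_d9
    linarith
  have hθ0 : 0 ≤ θ := hl2.le.trans hθ2
  have hm0 : (0 : ℝ) ≤ m := Nat.cast_nonneg _
  have hΛ4 : 4 ≤ Λ := by linarith
  have hΛ1 : 1 ≤ Λ := by linarith
  have hΛ0 : 0 < Λ := by linarith
  have hΛc : Λ₀ ≤ Λ := by linarith
  have hpp : ∀ n : ℕ, 0 < Λ ^ n := fun n => pow_pos hΛ0 n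
  have hτA : ∀ n, n ≤ Am + hi + r₀ + r₀ * Ds + Ds * Am + 3 → τ₀ * Λ ^ n ≤ 1 := fun n hn =>
    (mul_le_mul_of_nonneg_left (pow_le_pow_right₀ hΛ1 hn) hτ00).trans hτ₀
  -- costs
  have hco : ∀ (C : ℝ) (e : ℝ), 1 ≤ C → 0 < e → C * (θ + κm * θ + 1) / e ≤
      C * (κm + 3) / e * θ := by
    intro C e hC he
    have e1 : θ + κm * θ + 1 ≤ (κm + 3) * θ := by linarith
    have e2 : C * (κm + 3) / e * θ = C * ((κm + 3) * θ) / e := by ring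
    rw [e2]
    exact div_le_div_of_nonneg_right (mul_le_mul_of_nonneg_left e1 (by linarith)) he.le
  have hcl : Cl * (θ + κm * θ + 1) / η ^ 2 ≤ Cθ * θ := by
    refine (hco Cl (η ^ 2) hCl (by positivity)).trans (mul_le_mul_of_nonneg_right ?_ hθ0)
    rw [hCθ]
    have e2 : 0 ≤ Cn * (κm + 3) / (c₂ / 2) ^ 2 := by positivity
    linarith
  have hcn : Cn * (θ + κm * θ + 1) / (c₂ / 2) ^ 2 ≤ Cθ * θ := by
    refine (hco Cn ((c₂ / 2) ^ 2) hCn (by positivity)).trans (mul_le_mul_of_nonneg_right ?_ hθ0)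
    rw [hCθ]
    have e2 : 0 ≤ Cl * (κm + 3) / η ^ 2 := by positivity
    linarith
  have hexp : ∀ z, z ≤ Cθ * θ → Real.exp z ≤ Λ := fun z hz => by
    have := Real.exp_le_exp.2 (hz.trans hθΛ)
    rwa [Real.exp_log hΛ0] at this
  -- no relation between the monomials
  have hFU : ∀ D'' : Ctx B (κm * θ), ¬ D''.Rel a C₀ τ₀ (Qs ix)ᶜ (1 / Λ ^ 2) c₁ := by
    intro D'' hR
    refine hnom h m NN a ix B C₀ (1 / Λ ^ 2) τ₀ θ (κm * θ) c₂ xv 𝒯 t L hB hLD.fv hLD.x1 hLD.dt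
      hLD.fulx hθ0 (by positivity) (by positivity) hτ00 hc₂0 hc₂1 (hcn.trans hθL) ?_ D''
      (hR.mono le_rfl hc₂c)
    have e1 := hexp _ hcn
    have e2 : τ₀ ≤ 1 / Λ ^ 2 := by
      rw [le_div_iff₀ (hpp 2)]
      exact hτA 2 (by omega)
    have e3 : 0 ≤ 1 / Λ ^ 2 + m * τ₀ := by positivity
    have e4 : 1 / Λ ^ 2 + m * τ₀ ≤ (1 + m) * (1 / Λ ^ 2) := by
      nlinarith [mul_le_mul_of_nonneg_left e2 hm0]
    calc Real.exp _ * (1 / Λ ^ 2 + m * τ₀) ≤ Λ * ((1 + m) * (1 / Λ ^ 2)) :=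
          mul_le_mul e1 e4 e3 hΛ0.le
      _ = (1 + m) / Λ := by
          field_simp
      _ < 1 := by
          rw [div_lt_one hΛ0]
          linarith
  obtain ⟨b, lo, hi', A₂, K₂, P, D, s, sv, F, hb, hlo, hhiA, hA₂, hK₂, hhi', hPQ, O⟩ :=
    H B hB θ Λ τ₀ 𝒯 t tv hθ2 hΛc hτ00 (hτA Am (by omega)) (hsep.trans (min_le_left _ _)) hLt htp
      hFU hTy htv (hown.trans (min_le_left _ _))
  rw [hhi'] at O
  have n0 := D.isLaw.nonneg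
  have hbr : b ≤ r₀ := by omega
  have hb₀r : b₀ ≤ r₀ := by omega
  have hR1 : 1 ≤ Λ ^ r₀ := one_le_pow₀ hΛ1
  have hsR : ∀ g π α, |s g π α| ≤ Λ ^ r₀ := fun g π α =>
    (O.vec.1 g π α).trans (pow_le_pow_right₀ hΛ1 hbr)
  have hvR : ∀ g π α, |sv g π α| ≤ Λ ^ r₀ := fun g π α =>
    (O.vecv.1 g π α).trans (pow_le_pow_right₀ hΛ1 hbr)
  have htR : ∀ x l α, |tv x l α| ≤ Λ ^ r₀ := fun x l α =>
    (htv x l α).trans (pow_le_pow_right₀ hΛ1 hb₀r)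
  obtain ⟨δ, hδ⟩ : ∃ δ : ℝ, δ = 1 / Λ ^ hi := ⟨_, rfl⟩
  have hδ0 : 0 < δ := by
    rw [hδ]
    exact div_pos one_pos (hpp hi)
  have hδ1 : 2 * δ ≤ 1 := by
    rw [hδ]
    have e1 : (2 : ℝ) ≤ Λ ^ hi := by
      calc (2 : ℝ) ≤ Λ := by linarith
        _ = Λ ^ 1 := (pow_one Λ).symm
        _ ≤ Λ ^ hi := pow_le_pow_right₀ hΛ1 (by omega)
    rw [mul_one_div, div_le_one (hpp hi)]
    exact e1
  have hdl : ∀ z : ℝ, z * Λ ^ hi ≤ 1 → z ≤ δ := fun z hz => by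
    rw [hδ, le_div_iff₀ (hpp hi)]
    exact hz
  have hτδ : m * (Λ ^ r₀ * τ₀) ≤ δ ∧ τ₀ ≤ δ := by
    have e1 := hτA (hi + r₀ + 1) (by omega)
    have e2 : τ₀ * Λ ^ r₀ * Λ ≤ δ := by
      rw [hδ, le_div_iff₀ (hpp hi)]
      refine le_trans (le_of_eq ?_) e1
      ring
    have e3 : (m : ℝ) ≤ Λ := by linarith
    have e4 : 0 ≤ τ₀ * Λ ^ r₀ := by positivity
    constructor
    · nlinarith [mul_le_mul_of_nonneg_right e3 e4]
    · have e5 : τ₀ ≤ τ₀ * Λ ^ r₀ := le_mul_of_one_le_right hτ00 hR1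
      nlinarith [mul_le_mul_of_nonneg_left hΛ1 e4]
  -- the event
  obtain ⟨E0, hE0⟩ : ∃ E0 : D.W → Prop, E0 = fun w =>
    D.GpR a C₀ τ₀ (1 / Λ ^ hi) P s w ∧ Own a B τ₀ t tv (D.pr w) ∧
    (∀ π ∈ P, sv (B.pt (D.pr w)) π π = 1) ∧
    (∀ π ∈ P, ∀ β, |s (D.x w) π β - sv (B.pt (D.pr w)) π β| * Λ ^ hi ≤ 1) ∧
    (∀ π ∈ P, ∀ β, |s (D.x w) π β - (F (B.L (D.pr w)) ⌊B.th (D.pr w) * Λ ^ A₂⌋ π β).eval
      (B.th (D.pr w))| * Λ ^ hi ≤ 1) ∧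
    ∀ l β, |tv (t (D.pr w)) l β - ∑ π ∈ P, tv (t (D.pr w)) l π * s (D.x w) π β| * Λ ^ hi ≤ 1 :=
    ⟨_, rfl⟩
  have hpE0 : c₁ ≤ Pb D.q E0 := by
    rw [hE0]
    exact O.pb
  obtain ⟨E1, hE1⟩ : ∃ E1 : D.W → Prop, E1 = fun w => E0 w ∧
    LGood ix B xv t tv lf lam pi y (Λ ^ b₀) τ₀ (D.pr w) := ⟨_, rfl⟩
  have hbad1 : Pb D.q (fun w => E0 w ∧
      ¬ LGood ix B xv t tv lf lam pi y (Λ ^ b₀) τ₀ (D.pr w)) ≤ c₂ / 4 := by
    have e1 := Pool.MIC.Marg.Pb_eq D.mg (fun ω => B.Ty a C₀ τ₀ ω ∧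
      ¬ LGood ix B xv t tv lf lam pi y (Λ ^ b₀) τ₀ ω)
    refine le_trans (Pool.MIC.Pb_le_of_imp n0 fun w _ hw => ?_)
      (e1.le.trans (hlg.trans (min_le_right _ _)))
    rw [hE0] at hw
    exact ⟨hw.1.1.1, hw.2⟩
  -- the skew form
  obtain ⟨ε, hε⟩ : ∃ ε : ℝ, ε = Real.exp (Cl * (θ + κm * θ + 1) / η ^ 2) * (Λ ^ r₀) ^ 3 *
    (2 * δ) := ⟨_, rfl⟩
  have hε0 : 0 ≤ ε := by
    rw [hε]
    have := Real.exp_pos (Cl * (θ + κm * θ + 1) / η ^ 2)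
    positivity
  have hX : Det B.p (fun ω => (B.L ω, B.th ω)) (fun ω => dg L (xv (B.pt ω))) := by
    intro ω ω' a1 a2 e
    have := hB.pt_L ω ω' a1 a2 e
    simp only [this]
  have hY : Det B.p (fun ω => (B.L ω, B.th ω)) (fun ω => dg L (y ω)) := by
    intro ω ω' a1 a2 e
    have := hLD.dy ω ω' a1 a2 e
    simp only [this]
  have hfx := ctx_full D (fun ω => dg L (xv (B.pt ω))) t hX hLD.dt
  have hfy := ctx_full D (fun ω => dg L (y ω)) lf hY hLD.dl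
  have hfulx := hLD.fulx
  have hfuly := hLD.fuly
  have hskew : ∀ π ∈ P, Pb D.q (fun w => E1 w ∧ ¬ ∀ j, Cf ε
      (dD (vdir ix (tv (t (D.pr w)) j)) (kap ix (s (D.x w) π)) -
        dD (vdir ix (s (D.x w) π)) (kap ix (tv (t (D.pr w)) j)))) ≤ (k + 1) * η := by
    intro π hπ
    have h1 := hleaf D.W D.G Lf 𝒯 D.q L D.x (fun w => lf (D.pr w)) (fun w => t (D.pr w)) lam pi
      (fun g => vdir ix (s g π)) (fun g => kap ix (s g π)) (fun z j => vdir ix (tv z j))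
      (fun z j => kap ix (tv z j)) (fun w => y (D.pr w)) (fun w => xv (B.pt (D.pr w)))
      (fun w a => B.fv (B.pt (D.pr w)) (gI ix a) 0) E1 (Λ ^ r₀) (2 * δ) (θ + κm * θ) η D.isLaw
      hR1 (by linarith) hδ1 (by positivity) hη0 hη1
      (fun z e => (hLD.dlam z e).trans (Nat.le_add_right _ _))
      (fun z e => (hLD.dpi z e).trans (Nat.le_add_right _ _))
      (fun z => (deg_pm _).trans (Nat.le_add_left _ _))
      (fun z j => (deg_pm _).trans (Nat.le_add_left _ _))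
      (fun z e => hsR _ _ _) (fun z => Cf_kap ix (by linarith) fun α => hsR _ _ _)
      (fun w hw => hLD.y1 _ (D.mg.pos n0 hw)) (fun w hw => hLD.x1 _ (D.mg.pos n0 hw))
      (fun w hw hE => ?_) (by linarith) (by linarith) (hcl.trans hθL) (fun w hw hE => ?_)
    · rw [← hε] at h1
      exact h1
    · rw [hE1] at hE
      exact hE.2.mono (pow_le_pow_right₀ hΛ1 hb₀r) (by linarith [hτδ.2])
    · rw [hE1, hE0] at hE
      have e1 := ev_typ ix hLD.fv hE.1.1.1 (s := s (D.x w) π) (R := Λ ^ r₀) fun α => hsR _ _ _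
      have e2 := (hE.1.1.2 π hπ).2 0
      rw [← hδ] at e2
      have e3 := abs_add_le (-(B.ev a (D.pr w) (s (D.x w) π) 0 -
        (∑ e, s (D.x w) π (gI ix e) * B.fv (B.pt (D.pr w)) (gI ix e) 0 -
          MvPolynomial.eval (xv (B.pt (D.pr w))) (kap ix (s (D.x w) π)))))
        (B.ev a (D.pr w) (s (D.x w) π) 0)
      rw [abs_neg] at e3
      have e4 : -(B.ev a (D.pr w) (s (D.x w) π) 0 -
        (∑ e, s (D.x w) π (gI ix e) * B.fv (B.pt (D.pr w)) (gI ix e) 0 -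
          MvPolynomial.eval (xv (B.pt (D.pr w))) (kap ix (s (D.x w) π)))) +
        B.ev a (D.pr w) (s (D.x w) π) 0 =
        ∑ e, s (D.x w) π (gI ix e) * B.fv (B.pt (D.pr w)) (gI ix e) 0 -
          MvPolynomial.eval (xv (B.pt (D.pr w))) (kap ix (s (D.x w) π)) := by ring
      rw [e4] at e3
      have e5 := hτδ.1
      have e6 : |∑ e, s (D.x w) π (gI ix e) * B.fv (B.pt (D.pr w)) (gI ix e) 0 -
          MvPolynomial.eval (xv (B.pt (D.pr w))) (kap ix (s (D.x w) π))| ≤ 2 * δ := by linarith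
      exact e6
  have hbad2 : Pb D.q (fun w => ∃ π, π ∈ P ∧ E1 w ∧ ¬ ∀ j, Cf ε
      (dD (vdir ix (tv (t (D.pr w)) j)) (kap ix (s (D.x w) π)) -
        dD (vdir ix (s (D.x w) π)) (kap ix (tv (t (D.pr w)) j)))) ≤ c₂ / 4 := by
    refine (Pool.MIC.Pb_exists_le n0 _).trans (le_trans (Finset.sum_le_sum
      (g := fun _ => (k + 1) * η) fun π _ => ?_) (le_trans (le_of_eq ?_) hη2))
    · by_cases hπ : π ∈ P
      · exact (Pool.MIC.Pb_le_of_imp n0 fun w _ hw => hw.2).trans (hskew π hπ)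
      · have e1 : Pb D.q (fun w => π ∈ P ∧ E1 w ∧ ¬ ∀ j, Cf ε
          (dD (vdir ix (tv (t (D.pr w)) j)) (kap ix (s (D.x w) π)) -
          dD (vdir ix (s (D.x w) π)) (kap ix (tv (t (D.pr w)) j)))) ≤ 0 := by
          unfold Pb
          refine Finset.sum_nonpos fun w _ => ?_
          rw [if_neg fun h => hπ h.1]
        exact e1.trans (by positivity)
    · rw [Finset.sum_const, Finset.card_univ, Fintype.card_fin, nsmul_eq_mul]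
  -- numbers
  have hnum : Cp P * (Λ ^ r₀) ^ Dp P * (δ + ε) ≤ 1 / Λ ^ q := by
    have e1 : ε ≤ Λ * Λ ^ (3 * r₀) * (2 * δ) := by
      rw [hε, ← pow_mul, mul_comm r₀ 3]
      exact mul_le_mul_of_nonneg_right (mul_le_mul_of_nonneg_right (hexp _ hcl) (by positivity))
        (by linarith)
    have e2 : δ + ε ≤ Λ ^ (3 * r₀ + 2) * δ := by
      have e3 : 1 ≤ Λ ^ (3 * r₀) := one_le_pow₀ hΛ1
      have e4 : Λ ^ (3 * r₀ + 2) = Λ ^ (3 * r₀) * Λ * Λ := by ring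
      have e5 : δ ≤ Λ ^ (3 * r₀) * Λ * δ := by
        have e6 : 1 ≤ Λ ^ (3 * r₀) * Λ := one_le_mul_of_one_le_of_one_le e3 hΛ1
        exact le_mul_of_one_le_left hδ0.le e6
      have e7 : 0 ≤ Λ ^ (3 * r₀) * Λ * δ := by positivity
      have e8 := mul_le_mul_of_nonneg_right hΛ4 e7
      rw [e4]
      nlinarith
    have e3 : (Λ ^ r₀) ^ Dp P ≤ Λ ^ (r₀ * Ds) := by
      rw [← pow_mul]
      exact pow_le_pow_right₀ hΛ1 (Nat.mul_le_mul_left _ (hDP P))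
    have e4 : Cp P ≤ Λ := (hCP P).trans (by linarith)
    have e5 : Λ * Λ ^ (r₀ * Ds) * (Λ ^ (3 * r₀ + 2) * δ) ≤ 1 / Λ ^ q := by
      rw [hδ, hhi]
      have e6 : Λ * Λ ^ (r₀ * Ds) * (Λ ^ (3 * r₀ + 2) * (1 / Λ ^ (q + r₀ * Ds + 3 * r₀ + 6))) =
          1 / Λ ^ (q + 3) := by
        rw [show q + r₀ * Ds + 3 * r₀ + 6 = (q + 3) + (1 + r₀ * Ds + (3 * r₀ + 2)) by ring,
          pow_add Λ (q + 3), pow_add Λ (1 + r₀ * Ds), pow_add Λ 1, pow_one]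
        field_simp
      rw [e6]
      exact one_div_le_one_div_of_le (hpp q) (pow_le_pow_right₀ hΛ1 (by omega))
    refine le_trans ?_ e5
    refine mul_le_mul (mul_le_mul e4 e3 (by positivity) hΛ0.le) e2 (by linarith) (by positivity)
  have hnum' : Cp P * (Λ ^ r₀) ^ Dp P * δ ≤ 1 / Λ ^ q :=
    le_trans (mul_le_mul_of_nonneg_left (by linarith)
      (mul_nonneg (by linarith [hCp P]) (by positivity))) hnum
  obtain ⟨hF1, hF2, hF3⟩ := hFam P (Λ ^ r₀) hR1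
  refine ⟨A₂, fun ξ => Phi ix P (sv ξ), fun l z => Phi ix P (F l z), by omega,
    fun ξ => deg_Phi ix P _, fun ξ => (hF1 (sv ξ) fun π α => hvR _ _ _).mono ?_,
    fun l z => deg_Phi ix P _, fun l z e => (hF2 (F l z) K₂ (fun π α => O.deg l z π α) e).trans ?_,
    ?_⟩
  · have e3 : (Λ ^ r₀) ^ Dp P ≤ Λ ^ (r₀ * Ds) := by
      rw [← pow_mul]
      exact pow_le_pow_right₀ hΛ1 (Nat.mul_le_mul_left _ (hDP P))
    have e4 : Cp P ≤ Λ := (hCP P).trans (by linarith)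
    refine (mul_le_mul e4 e3 (by positivity) hΛ0.le).trans ?_
    rw [← pow_succ']
    exact pow_le_pow_right₀ hΛ1 (by omega)
  · have e1 : Dp P * K₂ ≤ Ds * Am := Nat.mul_le_mul (hDP P) hK₂
    omega
  · -- the probability
    have e1 : Pb D.q E0 ≤ Pb D.q (fun w => (E1 w ∧ ∀ π ∈ P, ∀ j, Cf ε
        (dD (vdir ix (tv (t (D.pr w)) j)) (kap ix (s (D.x w) π)) -
        dD (vdir ix (s (D.x w) π)) (kap ix (tv (t (D.pr w)) j)))) ∨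
        ((E0 w ∧ ¬ LGood ix B xv t tv lf lam pi y (Λ ^ b₀) τ₀ (D.pr w)) ∨
        (∃ π, π ∈ P ∧ E1 w ∧ ¬ ∀ j, Cf ε
        (dD (vdir ix (tv (t (D.pr w)) j)) (kap ix (s (D.x w) π)) -
        dD (vdir ix (s (D.x w) π)) (kap ix (tv (t (D.pr w)) j)))))) := by
      refine Pool.MIC.Pb_le_of_imp n0 fun w _ hw => ?_
      by_cases h1 : LGood ix B xv t tv lf lam pi y (Λ ^ b₀) τ₀ (D.pr w)
      · have h2 : E1 w := by
          rw [hE1]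
          exact ⟨hw, h1⟩
        by_cases h3 : ∀ π ∈ P, ∀ j, Cf ε
          (dD (vdir ix (tv (t (D.pr w)) j)) (kap ix (s (D.x w) π)) -
          dD (vdir ix (s (D.x w) π)) (kap ix (tv (t (D.pr w)) j)))
        · exact Or.inl ⟨h2, h3⟩
        · rw [not_forall] at h3
          obtain ⟨π, h4⟩ := h3
          rw [Classical.not_imp] at h4
          exact Or.inr (Or.inr ⟨π, h4.1, h2, h4.2⟩)
      · exact Or.inr (Or.inl ⟨hw, h1⟩)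
    have e2 := Pb_or66 n0 (fun w => E1 w ∧ ∀ π ∈ P, ∀ j, Cf ε
        (dD (vdir ix (tv (t (D.pr w)) j)) (kap ix (s (D.x w) π)) -
        dD (vdir ix (s (D.x w) π)) (kap ix (tv (t (D.pr w)) j))))
      (fun w => (E0 w ∧ ¬ LGood ix B xv t tv lf lam pi y (Λ ^ b₀) τ₀ (D.pr w)) ∨
        (∃ π, π ∈ P ∧ E1 w ∧ ¬ ∀ j, Cf ε
        (dD (vdir ix (tv (t (D.pr w)) j)) (kap ix (s (D.x w) π)) -
        dD (vdir ix (s (D.x w) π)) (kap ix (tv (t (D.pr w)) j)))))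
    have e3 := Pb_or66 n0
      (fun w => E0 w ∧ ¬ LGood ix B xv t tv lf lam pi y (Λ ^ b₀) τ₀ (D.pr w))
      (fun w => ∃ π, π ∈ P ∧ E1 w ∧ ¬ ∀ j, Cf ε
        (dD (vdir ix (tv (t (D.pr w)) j)) (kap ix (s (D.x w) π)) -
        dD (vdir ix (s (D.x w) π)) (kap ix (tv (t (D.pr w)) j))))
    have e4 : c₂ / 4 ≤ Pb D.q (fun w => E1 w ∧ ∀ π ∈ P, ∀ j, Cf ε
        (dD (vdir ix (tv (t (D.pr w)) j)) (kap ix (s (D.x w) π)) -
        dD (vdir ix (s (D.x w) π)) (kap ix (tv (t (D.pr w)) j)))) := by linarith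
    refine e4.trans ?_
    rw [← Pool.MIC.Marg.Pb_eq D.mg (fun ω => B.Ty a C₀ τ₀ ω ∧
          (∀ e, |MvPolynomial.coeff e (Phi ix P (sv (B.pt ω))) -
            (MvPolynomial.coeff e (Phi ix P (F (B.L ω) ⌊B.th ω * Λ ^ A₂⌋))).eval (B.th ω)| ≤
              1 / Λ ^ q) ∧
          ∀ j, Cf (1 / Λ ^ q) (dD (vdir ix (tv (t ω) j)) (Phi ix P (sv (B.pt ω))) -
            kap ix (tv (t ω) j)))]
    refine Pool.MIC.Pb_le_of_imp n0 fun w _ hw => ?_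
    obtain ⟨hw1, hw2⟩ := hw
    rw [hE1, hE0] at hw1
    obtain ⟨⟨⟨g1, g2⟩, -, g3, g4, g5, g6⟩, -⟩ := hw1
    obtain ⟨k1, k2⟩ := hF3 (s (D.x w)) (sv (B.pt (D.pr w))) δ hPQ hδ0.le (by linarith)
      (fun π α => hsR _ _ _) (fun π α => hvR _ _ _) (fun π hπ => (g2 π hπ).1)
      (fun π hπ α hα hne => O.vec.2 _ _ hπ _ hα hne) (fun π hπ β => hdl _ (g4 π hπ β))
    refine ⟨g1, fun e => (k1 (F (B.L (D.pr w)) ⌊B.th (D.pr w) * Λ ^ A₂⌋) (B.th (D.pr w))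
      (fun π hπ β => hdl _ (g5 π hπ β)) e).trans hnum', fun j => ?_⟩
    exact (k2 (tv (t (D.pr w)) j) ε hε0 (fun α => htR _ _ _) (fun β => hdl _ (g6 j β))
      (fun π hπ => hw2 π hπ j)).mono hnum

end Pool.TIE66
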