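import Mathlib

/-!
# Potentials along the leaves of constant fields

`w ρ` are vectors with pivots `pv ρ`, `κ ρ` polynomials. `pot` is the potential along the leaves of
the span of the `w ρ`: its derivative in the direction `D = ∑ c ρ • w ρ` is `∑ c ρ • κ ρ` as soon as
`D` is in the kernel of the skew form `∂_(w ρ) κ σ - ∂_(w σ) κ ρ`; the form itself need not be zero.
The coefficients are in a commutative `ℝ`-algebra.
-/

set_option autoImplicit false
set_option linter.unusedSectionVars false

namespace Pool.TIE66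

open Finset MvPolynomial

variable {A B : Type*} [CommRing A] [Algebra ℝ A] [CommRing B] [Algebra ℝ B] {d r : ℕ}

/-- The degree in the coordinates `S`. -/
def dgS (S : Finset (Fin d)) (m : Fin d →₀ ℕ) : ℕ := ∑ i ∈ S, m i

/-- The coefficient of a monomial of degree `k` in the coordinates `S` is divided by `k + e`. -/
noncomputable def Lp (S : Finset (Fin d)) (e : ℕ) :
    MvPolynomial (Fin d) A →ₗ[A] MvPolynomial (Fin d) A :=
  (basisMonomials (Fin d) A).constr A fun m =>
    monomial m (algebraMap ℝ A (1 / ((dgS S m : ℝ) + e)))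

theorem Lp_monomial (S : Finset (Fin d)) (e : ℕ) (m : Fin d →₀ ℕ) (a : A) :
    Lp S e (monomial m a) = monomial m (algebraMap ℝ A (1 / ((dgS S m : ℝ) + e)) * a) := by
  have h1 : (monomial m a : MvPolynomial (Fin d) A) = a • monomial m (1 : A) := by
    rw [smul_monomial, smul_eq_mul, mul_one]
  have h2 : (monomial m (1 : A) : MvPolynomial (Fin d) A) = basisMonomials (Fin d) A m := by
    rw [coe_basisMonomials]
  rw [h1, map_smul, h2, Lp, Module.Basis.constr_basis, smul_monomial, smul_eq_mul, mul_comm]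

theorem dgS_single {S : Finset (Fin d)} {i : Fin d} (hi : i ∈ S) (m : Fin d →₀ ℕ) (hm : m i ≠ 0) :
    dgS S m = dgS S (m - Finsupp.single i 1) + 1 := by
  classical
  unfold dgS
  rw [← Finset.add_sum_erase _ _ hi, ← Finset.add_sum_erase _ _ hi]
  have h1 : ∑ j ∈ S.erase i, m j = ∑ j ∈ S.erase i, (m - Finsupp.single i 1 : Fin d →₀ ℕ) j := by
    refine Finset.sum_congr rfl fun j hj => ?_
    rw [Finsupp.tsub_apply, Finsupp.single_apply, if_neg (Finset.ne_of_mem_erase hj).symm,
      Nat.sub_zero]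
  rw [h1, Finsupp.tsub_apply, Finsupp.single_apply, if_pos rfl]
  omega

/-- The derivative of the averaged polynomial. -/
theorem pderiv_Lp {S : Finset (Fin d)} {i : Fin d} (hi : i ∈ S) (e : ℕ)
    (P : MvPolynomial (Fin d) A) : pderiv i (Lp S e P) = Lp S (e + 1) (pderiv i P) := by
  induction P using MvPolynomial.induction_on' with
  | monomial m a =>
    rw [Lp_monomial, pderiv_monomial, pderiv_monomial, Lp_monomial]
    by_cases hm : m i = 0
    · rw [hm]
      simp
    · have h1 : ((dgS S m : ℕ) : ℝ) + e = (dgS S (m - Finsupp.single i 1) : ℝ) + (e + 1 : ℕ) := by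
        rw [dgS_single hi m hm]
        push_cast
        ring
      rw [h1, mul_assoc]
  | add p q hp hq => simp only [map_add, hp, hq]

/-- Euler. -/
theorem euler_Lp (S : Finset (Fin d)) (P : MvPolynomial (Fin d) A) :
    P - Lp S 1 P = ∑ i ∈ S, X i * Lp S 2 (pderiv i P) := by
  classical
  induction P using MvPolynomial.induction_on' with
  | monomial m a =>
    have h1 : ∀ i ∈ S, X i * Lp S 2 (pderiv i (monomial m a)) =
        monomial m ((m i : A) * (algebraMap ℝ A (1 / ((dgS S m : ℝ) + 1)) * a)) := by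
      intro i hi
      rw [pderiv_monomial, Lp_monomial]
      by_cases hm : m i = 0
      · rw [hm]
        simp
      · rw [X, monomial_mul, one_mul]
        have h2 : Finsupp.single i 1 + (m - Finsupp.single i 1) = m := by
          refine add_tsub_cancel_of_le ?_
          rw [Finsupp.single_le_iff]
          omega
        have h3 : (dgS S (m - Finsupp.single i 1) : ℝ) + (2 : ℕ) = (dgS S m : ℝ) + 1 := by
          rw [dgS_single hi m hm]
          push_cast
          ring
        rw [h2, h3, mul_comm a, mul_left_comm]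
    rw [Finset.sum_congr rfl h1, Lp_monomial, ← map_sub, ← map_sum, ← Finset.sum_mul]
    refine congrArg (monomial m) ?_
    have h4 : (∑ i ∈ S, (m i : A)) = algebraMap ℝ A (dgS S m : ℝ) := by
      unfold dgS
      push_cast
      simp
    rw [h4]
    have h5 : ((dgS S m : ℝ) + 1) ≠ 0 := by positivity
    have h6 : algebraMap ℝ A (dgS S m : ℝ) * (algebraMap ℝ A (1 / ((dgS S m : ℝ) + 1)) * a) =
        a - algebraMap ℝ A (1 / ((dgS S m : ℝ) + 1)) * a := by
      rw [← mul_assoc, ← map_mul]
      have h7 : (dgS S m : ℝ) * (1 / ((dgS S m : ℝ) + 1)) = 1 - 1 / ((dgS S m : ℝ) + 1) := by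
        field_simp
        ring
      rw [h7, map_sub, map_one]
      ring
    rw [Nat.cast_one]
    exact h6.symm
  | add p q hp hq =>
    simp only [map_add, mul_add, Finset.sum_add_distrib]
    rw [← hp, ← hq]
    ring

/-- The derivative in the direction `v`. -/
noncomputable def dD (v : Fin d → A) (P : MvPolynomial (Fin d) A) : MvPolynomial (Fin d) A :=
  ∑ a, C (v a) * pderiv a P

theorem dD_add (v : Fin d → A) (P Q : MvPolynomial (Fin d) A) : dD v (P + Q) = dD v P + dD v Q := by
  unfold dD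
  rw [← Finset.sum_add_distrib]
  refine Finset.sum_congr rfl fun a _ => ?_
  rw [map_add, mul_add]

theorem dD_mul (v : Fin d → A) (P Q : MvPolynomial (Fin d) A) :
    dD v (P * Q) = P * dD v Q + Q * dD v P := by
  unfold dD
  rw [Finset.mul_sum, Finset.mul_sum, ← Finset.sum_add_distrib]
  refine Finset.sum_congr rfl fun a _ => ?_
  rw [Derivation.leibniz]
  simp only [smul_eq_mul]
  ring

theorem dD_C (v : Fin d → A) (a : A) : dD v (C a) = 0 := by
  unfold dD
  simp

theorem dD_X (v : Fin d → A) (b : Fin d) : dD v (X b) = C (v b) := by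
  classical
  unfold dD
  rw [Finset.sum_eq_single b]
  · simp
  · intro a _ hab
    rw [pderiv_X_of_ne hab.symm]
    simp
  · simp

theorem dD_sum {ι : Type*} (s : Finset ι) (v : Fin d → A) (P : ι → MvPolynomial (Fin d) A) :
    dD v (∑ i ∈ s, P i) = ∑ i ∈ s, dD v (P i) := by
  unfold dD
  rw [Finset.sum_comm]
  refine Finset.sum_congr rfl fun a _ => ?_
  rw [map_sum, Finset.mul_sum]

theorem dD_comb {ι : Type*} (s : Finset ι) (c : ι → A) (w : ι → Fin d → A)
    (P : MvPolynomial (Fin d) A) :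
    dD (fun a => ∑ i ∈ s, c i * w i a) P = ∑ i ∈ s, C (c i) * dD (w i) P := by
  unfold dD
  simp only [map_sum, Finset.sum_mul, map_mul, Finset.mul_sum]
  rw [Finset.sum_comm]
  refine Finset.sum_congr rfl fun i _ => Finset.sum_congr rfl fun a _ => ?_
  ring

/-- The chain rule for a direction. -/
theorem dD_aeval (v : Fin d → A) (y : Fin d → MvPolynomial (Fin d) A)
    (P : MvPolynomial (Fin d) A) :
    dD v (aeval y P) = ∑ b, aeval y (pderiv b P) * dD v (y b) := by
  classical
  induction P using MvPolynomial.induction_on with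
  | C a => simp [dD_C, algHom_C, algebraMap_eq]
  | add p q hp hq =>
    simp only [map_add, dD_add, hp, hq, add_mul, Finset.sum_add_distrib]
  | mul_X p b hp =>
    rw [map_mul, aeval_X, dD_mul, hp]
    have h1 : ∀ b', aeval y (pderiv b' (p * X b)) * dD v (y b') =
        (if b' = b then aeval y p * dD v (y b) else 0) +
          y b * (aeval y (pderiv b' p) * dD v (y b')) := by
      intro b'
      rw [Derivation.leibniz, pderiv_X]
      by_cases h : b' = b
      · subst h
        simp only [Pi.single_eq_same, smul_eq_mul, mul_one, map_add, map_mul, aeval_X, if_true]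
        ring
      · rw [if_neg h, Pi.single_eq_of_ne (fun e => h e.symm)]
        simp only [smul_eq_mul, mul_zero, zero_add, map_mul, aeval_X]
        ring
    rw [Finset.sum_congr rfl fun b' _ => h1 b', Finset.sum_add_distrib, Finset.sum_ite_eq' univ b,
      if_pos (Finset.mem_univ b), Finset.mul_sum]

/-- The images of the coordinates. -/
noncomputable def ty (pv : Fin r → Fin d) (w : Fin r → Fin d → A) (a : Fin d) :
    MvPolynomial (Fin d) A :=
  X a + ∑ σ, C (w σ a) * X (pv σ)

open Classical in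
/-- The non-pivot part of the vectors. -/
noncomputable def w0 (pv : Fin r → Fin d) (w : Fin r → Fin d → A) (σ : Fin r) (a : Fin d) : A :=
  if a ∈ Set.range pv then 0 else w σ a

/-- The pivots. -/
structure Piv (pv : Fin r → Fin d) (w : Fin r → Fin d → A) : Prop where
  inj : Function.Injective pv
  dl : ∀ ρ σ, w ρ (pv σ) = if ρ = σ then 1 else 0

/-- The change of coordinates. -/
noncomputable def tau (pv : Fin r → Fin d) (w : Fin r → Fin d → A) :
    MvPolynomial (Fin d) A →ₐ[A] MvPolynomial (Fin d) A := aeval (ty pv (w0 pv w))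

/-- The inverse change of coordinates. -/
noncomputable def tai (pv : Fin r → Fin d) (w : Fin r → Fin d → A) :
    MvPolynomial (Fin d) A →ₐ[A] MvPolynomial (Fin d) A :=
  aeval (ty pv (fun σ a => - w0 pv w σ a))

theorem w0_pv (pv : Fin r → Fin d) (w : Fin r → Fin d → A) (σ τ : Fin r) :
    w0 pv w σ (pv τ) = 0 := by
  unfold w0
  rw [if_pos ⟨τ, rfl⟩]

theorem tai_X (pv : Fin r → Fin d) (w : Fin r → Fin d → A) (a : Fin d) :
    tai pv w (X a) = X a - ∑ σ, C (w0 pv w σ a) * X (pv σ) := by
  unfold tai ty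
  rw [aeval_X]
  simp only [map_neg, neg_mul, Finset.sum_neg_distrib]
  ring

theorem tai_X_pv (pv : Fin r → Fin d) (w : Fin r → Fin d → A) (τ : Fin r) :
    tai pv w (X (pv τ)) = X (pv τ) := by
  rw [tai_X]
  simp [w0_pv]

theorem tai_tau (pv : Fin r → Fin d) (w : Fin r → Fin d → A) (P : MvPolynomial (Fin d) A) :
    tai pv w (tau pv w P) = P := by
  have h : (tai pv w).comp (tau pv w) = AlgHom.id A _ := by
    refine MvPolynomial.algHom_ext fun a => ?_
    rw [AlgHom.comp_apply, AlgHom.id_apply]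
    have h1 : tau pv w (X a) = X a + ∑ σ, C (w0 pv w σ a) * X (pv σ) := by
      unfold tau ty
      rw [aeval_X]
    rw [h1, map_add, map_sum, tai_X]
    have h2 : ∀ σ ∈ (univ : Finset (Fin r)), tai pv w (C (w0 pv w σ a) * X (pv σ)) =
        C (w0 pv w σ a) * X (pv σ) := by
      intro σ _
      have h3 : tai pv w (C (w0 pv w σ a)) = (C (w0 pv w σ a) : MvPolynomial (Fin d) A) := by
        unfold tai
        rw [algHom_C, algebraMap_eq]
      rw [map_mul, tai_X_pv, h3]
    rw [Finset.sum_congr rfl h2]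
    ring
  have h1 := DFunLike.congr_fun h P
  rwa [AlgHom.comp_apply, AlgHom.id_apply] at h1

/-- The direction `w ρ` in the old coordinates is the coordinate `pv ρ` in the new ones. -/
theorem dD_tai {pv : Fin r → Fin d} {w : Fin r → Fin d → A} (hp : Piv pv w) (ρ : Fin r)
    (P : MvPolynomial (Fin d) A) : dD (w ρ) (tai pv w P) = tai pv w (pderiv (pv ρ) P) := by
  classical
  unfold tai
  rw [dD_aeval]
  have h1 : ∀ b, dD (w ρ) (ty pv (fun σ a => - w0 pv w σ a) b) = if b = pv ρ then 1 else 0 := by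
    intro b
    unfold ty
    rw [dD_add, dD_X, dD_sum]
    have h2 : ∀ σ ∈ (univ : Finset (Fin r)), dD (w ρ) (C (- w0 pv w σ b) * X (pv σ)) =
        if ρ = σ then C (- w0 pv w σ b) else 0 := by
      intro σ _
      rw [dD_mul, dD_X, dD_C, hp.dl, mul_zero, add_zero]
      split_ifs <;> simp
    rw [Finset.sum_congr rfl h2, Finset.sum_ite_eq univ ρ, if_pos (Finset.mem_univ ρ)]
    by_cases hb : b ∈ Set.range pv
    · obtain ⟨τ, rfl⟩ := hb
      rw [w0_pv, hp.dl]
      by_cases h3 : ρ = τ
      · subst h3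
        simp
      · rw [if_neg h3, if_neg (fun e => h3 (hp.inj e).symm)]
        simp
    · have h3 : w0 pv w ρ b = w ρ b := by
        unfold w0
        rw [if_neg hb]
      rw [h3, if_neg (fun e => hb ⟨ρ, e.symm⟩)]
      simp
  rw [Finset.sum_congr rfl fun b _ => by rw [h1 b, mul_ite, mul_one, mul_zero],
    Finset.sum_ite_eq' univ (pv ρ), if_pos (Finset.mem_univ _)]

theorem pderiv_aeval (y : Fin d → MvPolynomial (Fin d) A) (i : Fin d)
    (P : MvPolynomial (Fin d) A) :
    pderiv i (aeval y P) = ∑ b, aeval y (pderiv b P) * pderiv i (y b) := by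
  classical
  have h1 : ∀ Q : MvPolynomial (Fin d) A, pderiv i Q = dD (Pi.single i 1) Q := by
    intro Q
    unfold dD
    rw [Finset.sum_eq_single i]
    · simp
    · intro a _ ha
      rw [Pi.single_eq_of_ne ha]
      simp
    · simp
  rw [h1, dD_aeval]
  refine Finset.sum_congr rfl fun b _ => ?_
  rw [← h1]

theorem pderiv_tau {pv : Fin r → Fin d} {w : Fin r → Fin d → A} (hp : Piv pv w) (ρ : Fin r)
    (P : MvPolynomial (Fin d) A) : pderiv (pv ρ) (tau pv w P) = tau pv w (dD (w ρ) P) := by
  classical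
  unfold tau
  rw [pderiv_aeval]
  unfold dD
  rw [map_sum]
  refine Finset.sum_congr rfl fun b _ => ?_
  rw [map_mul]
  have h0 : aeval (ty pv (w0 pv w)) (C (w ρ b)) = (C (w ρ b) : MvPolynomial (Fin d) A) := by
    rw [algHom_C, algebraMap_eq]
  rw [h0, mul_comm]
  refine congrArg (· * aeval (ty pv (w0 pv w)) (pderiv b P)) ?_
  unfold ty
  rw [map_add, map_sum, pderiv_X]
  have h2 : ∀ σ ∈ (univ : Finset (Fin r)), pderiv (pv ρ) (C (w0 pv w σ b) * X (pv σ)) =
      if ρ = σ then C (w0 pv w σ b) else 0 := by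
    intro σ _
    rw [Derivation.leibniz, pderiv_C, pderiv_X]
    by_cases h3 : ρ = σ
    · subst h3
      simp
    · rw [if_neg h3, Pi.single_eq_of_ne (fun e => h3 (hp.inj e).symm)]
      simp
  rw [Finset.sum_congr rfl h2, Finset.sum_ite_eq univ ρ, if_pos (Finset.mem_univ ρ)]
  by_cases hb : b ∈ Set.range pv
  · obtain ⟨τ, rfl⟩ := hb
    rw [w0_pv, hp.dl]
    by_cases h3 : ρ = τ
    · subst h3
      simp
    · rw [if_neg h3, Pi.single_eq_of_ne (fun e => h3 (hp.inj e).symm)]
      simp
  · have h3 : w0 pv w ρ b = w ρ b := by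
      unfold w0
      rw [if_neg hb]
    rw [h3, Pi.single_eq_of_ne (fun e => hb ⟨ρ, e.symm⟩)]
    simp

/-- **The potential along the leaves.** -/
noncomputable def pot (pv : Fin r → Fin d) (w : Fin r → Fin d → A)
    (κ : Fin r → MvPolynomial (Fin d) A) : MvPolynomial (Fin d) A :=
  tai pv w (∑ ρ, X (pv ρ) * Lp (univ.image pv) 1 (tau pv w (κ ρ)))

/-- The skew form. -/
noncomputable def crl (w : Fin r → Fin d → A) (κ : Fin r → MvPolynomial (Fin d) A) (ρ σ : Fin r) :
    MvPolynomial (Fin d) A := dD (w ρ) (κ σ) - dD (w σ) (κ ρ)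

/-- The average of the skew form. -/
noncomputable def avg (pv : Fin r → Fin d) (w : Fin r → Fin d → A)
    (Q : Fin r → MvPolynomial (Fin d) A) : MvPolynomial (Fin d) A :=
  tai pv w (∑ σ, X (pv σ) * Lp (univ.image pv) 2 (tau pv w (Q σ)))

/-- **The derivative of the potential.** -/
theorem dD_pot {pv : Fin r → Fin d} {w : Fin r → Fin d → A} (hp : Piv pv w)
    (κ : Fin r → MvPolynomial (Fin d) A) (ρ : Fin r) :
    dD (w ρ) (pot pv w κ) = κ ρ + avg pv w (crl w κ ρ) := by
  classical
  unfold pot avg crl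
  rw [dD_tai hp]
  have h1 : ∀ σ ∈ (univ : Finset (Fin r)),
      pderiv (pv ρ) (X (pv σ) * Lp (univ.image pv) 1 (tau pv w (κ σ))) =
        (if ρ = σ then Lp (univ.image pv) 1 (tau pv w (κ σ)) else 0) +
          X (pv σ) * Lp (univ.image pv) 2 (tau pv w (dD (w ρ) (κ σ))) := by
    intro σ _
    rw [Derivation.leibniz, pderiv_Lp (Finset.mem_image_of_mem pv (Finset.mem_univ ρ)),
      pderiv_tau hp, pderiv_X]
    by_cases h3 : ρ = σ
    · subst h3
      simp only [Pi.single_eq_same, smul_eq_mul, mul_one, if_true]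
      ring
    · rw [if_neg h3, Pi.single_eq_of_ne (fun e => h3 (hp.inj e).symm)]
      simp
  rw [map_sum, Finset.sum_congr rfl h1, Finset.sum_add_distrib, Finset.sum_ite_eq univ ρ,
    if_pos (Finset.mem_univ ρ)]
  have h2 := euler_Lp (univ.image pv) (tau pv w (κ ρ))
  rw [Finset.sum_image (fun a _ b _ e => hp.inj e)] at h2
  have h3 : ∀ σ ∈ (univ : Finset (Fin r)), X (pv σ) * Lp (univ.image pv) 2
      (pderiv (pv σ) (tau pv w (κ ρ))) = X (pv σ) * Lp (univ.image pv) 2
        (tau pv w (dD (w σ) (κ ρ))) := by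
    intro σ _
    rw [pderiv_tau hp]
  rw [Finset.sum_congr rfl h3] at h2
  have h4 : Lp (univ.image pv) 1 (tau pv w (κ ρ)) = tau pv w (κ ρ) -
      ∑ σ, X (pv σ) * Lp (univ.image pv) 2 (tau pv w (dD (w σ) (κ ρ))) := by
    rw [← h2]
    ring
  rw [h4, sub_add, ← Finset.sum_sub_distrib, map_sub, tai_tau]
  have h5 : ∀ σ ∈ (univ : Finset (Fin r)),
      X (pv σ) * Lp (univ.image pv) 2 (tau pv w (dD (w σ) (κ ρ))) -
      X (pv σ) * Lp (univ.image pv) 2 (tau pv w (dD (w ρ) (κ σ))) =
      -(X (pv σ) * Lp (univ.image pv) 2 (tau pv w (dD (w ρ) (κ σ) - dD (w σ) (κ ρ)))) := by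
    intro σ _
    simp only [map_sub]
    ring
  rw [Finset.sum_congr rfl h5, Finset.sum_neg_distrib, map_neg]
  ring

theorem avg_comb (pv : Fin r → Fin d) (w : Fin r → Fin d → A) (c : Fin r → A)
    (Q : Fin r → Fin r → MvPolynomial (Fin d) A) :
    ∑ ρ, C (c ρ) * avg pv w (Q ρ) = avg pv w (fun σ => ∑ ρ, C (c ρ) * Q ρ σ) := by
  unfold avg
  have h0 : ∀ a : A, tai pv w (C a) = (C a : MvPolynomial (Fin d) A) := by
    intro a
    unfold tai
    rw [algHom_C, algebraMap_eq]
  have h0' : ∀ a : A, tau pv w (C a) = (C a : MvPolynomial (Fin d) A) := by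
    intro a
    unfold tau
    rw [algHom_C, algebraMap_eq]
  have h1 : ∀ ρ ∈ (univ : Finset (Fin r)), C (c ρ) * tai pv w (∑ σ, X (pv σ) *
      Lp (univ.image pv) 2 (tau pv w (Q ρ σ))) = tai pv w (∑ σ, X (pv σ) *
        Lp (univ.image pv) 2 (tau pv w (C (c ρ) * Q ρ σ))) := by
    intro ρ _
    have h2 : C (c ρ) * tai pv w (∑ σ, X (pv σ) * Lp (univ.image pv) 2 (tau pv w (Q ρ σ))) =
        tai pv w (C (c ρ) * ∑ σ, X (pv σ) * Lp (univ.image pv) 2 (tau pv w (Q ρ σ))) := by
      rw [map_mul, h0]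
    rw [h2, Finset.mul_sum]
    refine congrArg (tai pv w) (Finset.sum_congr rfl fun σ _ => ?_)
    rw [map_mul (tau pv w), h0', ← smul_eq_C_mul, ← smul_eq_C_mul, map_smul, mul_smul_comm]
  rw [Finset.sum_congr rfl h1, ← map_sum, Finset.sum_comm]
  refine congrArg (tai pv w) (Finset.sum_congr rfl fun σ _ => ?_)
  rw [← Finset.mul_sum, map_sum, map_sum]

/-- **The derivative of the potential in the direction `∑ c ρ • w ρ`.** -/
theorem dD_pot_comb {pv : Fin r → Fin d} {w : Fin r → Fin d → A} (hp : Piv pv w)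
    (κ : Fin r → MvPolynomial (Fin d) A) (c : Fin r → A) :
    dD (fun a => ∑ ρ, c ρ * w ρ a) (pot pv w κ) = ∑ ρ, C (c ρ) * κ ρ +
      avg pv w (fun σ => dD (fun a => ∑ ρ, c ρ * w ρ a) (κ σ) -
        ∑ ρ, C (c ρ) * dD (w σ) (κ ρ)) := by
  rw [dD_comb, Finset.sum_congr rfl fun ρ _ => by rw [dD_pot hp κ ρ, mul_add],
    Finset.sum_add_distrib, avg_comb]
  refine congrArg (fun Q => ∑ ρ, C (c ρ) * κ ρ + avg pv w Q) (_root_.funext fun σ => ?_)
  rw [dD_comb, ← Finset.sum_sub_distrib]
  refine Finset.sum_congr rfl fun ρ _ => ?_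
  unfold crl
  ring

/-- If the direction is in the kernel of the skew form, its derivative of the potential is the
combination of the `κ`. -/
theorem dD_pot_ker {pv : Fin r → Fin d} {w : Fin r → Fin d → A} (hp : Piv pv w)
    (κ : Fin r → MvPolynomial (Fin d) A) (c : Fin r → A)
    (hc : ∀ σ, dD (fun a => ∑ ρ, c ρ * w ρ a) (κ σ) = dD (w σ) (∑ ρ, C (c ρ) * κ ρ)) :
    dD (fun a => ∑ ρ, c ρ * w ρ a) (pot pv w κ) = ∑ ρ, C (c ρ) * κ ρ := by
  rw [dD_pot_comb hp]
  have h1 : (fun σ => dD (fun a => ∑ ρ, c ρ * w ρ a) (κ σ) -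
        ∑ ρ, C (c ρ) * dD (w σ) (κ ρ)) = fun _ => (0 : MvPolynomial (Fin d) A) := by
    funext σ
    rw [hc σ, dD_sum, sub_eq_zero]
    refine Finset.sum_congr rfl fun ρ _ => ?_
    rw [dD_mul, dD_C, mul_zero, add_zero]
  rw [h1]
  unfold avg
  simp

/-! ### Change of the coefficients -/

theorem map_Lp (f : A →ₐ[ℝ] B) (S : Finset (Fin d)) (e : ℕ) (P : MvPolynomial (Fin d) A) :
    map f.toRingHom (Lp S e P) = Lp S e (map f.toRingHom P) := by
  induction P using MvPolynomial.induction_on' with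
  | monomial m a =>
    rw [Lp_monomial, map_monomial, map_monomial, Lp_monomial, map_mul]
    have h1 : f.toRingHom (algebraMap ℝ A (1 / ((dgS S m : ℝ) + e))) =
      algebraMap ℝ B (1 / ((dgS S m : ℝ) + e)) := f.commutes _
    rw [h1]
  | add p q hp hq => simp only [map_add, hp, hq]

theorem map_ty (f : A →ₐ[ℝ] B) (pv : Fin r → Fin d) (w : Fin r → Fin d → A) (a : Fin d) :
    map f.toRingHom (ty pv w a) = ty pv (fun σ a => f (w σ a)) a := by
  unfold ty
  simp only [map_add, map_X, map_sum, map_mul, map_C]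
  rfl

theorem map_w0 (f : A →ₐ[ℝ] B) (pv : Fin r → Fin d) (w : Fin r → Fin d → A) (σ : Fin r)
    (a : Fin d) : f (w0 pv w σ a) = w0 pv (fun σ a => f (w σ a)) σ a := by
  unfold w0
  split_ifs
  · exact map_zero f
  · rfl

theorem map_aeval' (f : A →ₐ[ℝ] B) (y : Fin d → MvPolynomial (Fin d) A)
    (P : MvPolynomial (Fin d) A) : map f.toRingHom (aeval y P) =
      aeval (fun a => map f.toRingHom (y a)) (map f.toRingHom P) := by
  induction P using MvPolynomial.induction_on with
  | C a => simp [algHom_C, algebraMap_eq]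
  | add p q hp hq => simp only [map_add, hp, hq]
  | mul_X p b hp => simp only [map_mul, hp, aeval_X, map_X]

theorem map_tau (f : A →ₐ[ℝ] B) (pv : Fin r → Fin d) (w : Fin r → Fin d → A)
    (P : MvPolynomial (Fin d) A) : map f.toRingHom (tau pv w P) =
      tau pv (fun σ a => f (w σ a)) (map f.toRingHom P) := by
  unfold tau
  rw [map_aeval']
  refine congrArg (fun y => aeval y (map f.toRingHom P)) (_root_.funext fun a => ?_)
  rw [map_ty]
  refine congrArg (fun u => ty pv u a) (_root_.funext fun σ => _root_.funext fun b => ?_)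
  exact map_w0 f pv w σ b

theorem map_tai (f : A →ₐ[ℝ] B) (pv : Fin r → Fin d) (w : Fin r → Fin d → A)
    (P : MvPolynomial (Fin d) A) : map f.toRingHom (tai pv w P) =
      tai pv (fun σ a => f (w σ a)) (map f.toRingHom P) := by
  unfold tai
  rw [map_aeval']
  refine congrArg (fun y => aeval y (map f.toRingHom P)) (_root_.funext fun a => ?_)
  rw [map_ty]
  refine congrArg (fun u => ty pv u a) (_root_.funext fun σ => _root_.funext fun b => ?_)
  rw [map_neg, map_w0 f pv w σ b]

/-- **The potential and a map of the coefficients.** -/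
theorem map_pot (f : A →ₐ[ℝ] B) (pv : Fin r → Fin d) (w : Fin r → Fin d → A)
    (κ : Fin r → MvPolynomial (Fin d) A) : map f.toRingHom (pot pv w κ) =
      pot pv (fun σ a => f (w σ a)) (fun σ => map f.toRingHom (κ σ)) := by
  unfold pot
  rw [map_tai, map_sum]
  refine congrArg (tai pv fun σ a => f (w σ a)) (Finset.sum_congr rfl fun ρ _ => ?_)
  rw [map_mul, map_X, map_Lp, map_tau]

end Pool.TIE66
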