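import Pool.Agent.H66.TIE.Pot
import Pool.Agent.H66.TIE.Lip

/-!
# Bounds for the potential

The coefficients of the potential are universal polynomials in the entries of the vectors and of the
polynomials. Hence bounds, Lipschitz bounds, the degree in the time. `pot_err`: the derivative of the
potential in a direction which is a combination of the vectors, and in the kernel of the skew form, up
to small errors.
-/

set_option autoImplicit false
set_option linter.unusedSectionVars false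

namespace Pool.TIE66

open Finset MvPolynomial

section

variable {A B : Type*} [CommRing A] [Algebra ℝ A] [CommRing B] [Algebra ℝ B] {d r : ℕ}
variable {M : Finset (Fin d →₀ ℕ)}

/-- The entries of `r` vectors and of `r` polynomials. -/
abbrev En (d r : ℕ) (M : Finset (Fin d →₀ ℕ)) : Type := (Fin r × Fin d) ⊕ (Fin r × {k // k ∈ M})

/-- The vectors. -/
def wv (y : En d r M → A) (ρ : Fin r) (a : Fin d) : A := y (Sum.inl (ρ, a))

/-- The polynomial with given coefficients. -/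
noncomputable def pm (z : {k // k ∈ M} → A) : MvPolynomial (Fin d) A := ∑ k, monomial k.1 (z k)

/-- The polynomials. -/
noncomputable def kv (y : En d r M → A) (ρ : Fin r) : MvPolynomial (Fin d) A :=
  pm fun k => y (Sum.inr (ρ, k))

theorem coeff_pm (z : {k // k ∈ M} → A) (k : {k // k ∈ M}) : coeff k.1 (pm z) = z k := by
  classical
  unfold pm
  rw [coeff_sum, Finset.sum_eq_single k]
  · rw [coeff_monomial, if_pos rfl]
  · intro b _ hb
    rw [coeff_monomial, if_neg fun e => hb (Subtype.ext e)]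
  · intro h
    exact absurd (Finset.mem_univ k) h

theorem coeff_pm_of_notMem (z : {k // k ∈ M} → A) {k : Fin d →₀ ℕ} (hk : k ∉ M) :
    coeff k (pm z) = 0 := by
  classical
  unfold pm
  rw [coeff_sum]
  refine Finset.sum_eq_zero fun b _ => ?_
  rw [coeff_monomial, if_neg]
  intro e
  rw [← e] at hk
  exact hk b.2

theorem pm_coeff (P : MvPolynomial (Fin d) A) (hP : P.support ⊆ M) :
    pm (fun k : {k // k ∈ M} => coeff k.1 P) = P := by
  classical
  refine MvPolynomial.ext _ _ fun k => ?_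
  by_cases hk : k ∈ M
  · exact coeff_pm _ ⟨k, hk⟩
  · rw [coeff_pm_of_notMem _ hk]
    by_contra h
    exact hk (hP (mem_support_iff.2 fun e => h e.symm))

theorem map_pm (f : A →ₐ[ℝ] B) (z : {k // k ∈ M} → A) :
    map f.toRingHom (pm z) = pm fun k => f (z k) := by
  unfold pm
  rw [map_sum]
  refine Finset.sum_congr rfl fun k _ => ?_
  rw [map_monomial]
  rfl

/-- The average and a map of the coefficients. -/
theorem map_avg (f : A →ₐ[ℝ] B) (pv : Fin r → Fin d) (w : Fin r → Fin d → A)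
    (Q : Fin r → MvPolynomial (Fin d) A) : map f.toRingHom (avg pv w Q) =
      avg pv (fun σ a => f (w σ a)) (fun σ => map f.toRingHom (Q σ)) := by
  unfold avg
  rw [map_tai, map_sum]
  refine congrArg (tai pv fun σ a => f (w σ a)) (Finset.sum_congr rfl fun ρ _ => ?_)
  rw [map_mul, map_X, map_Lp, map_tau]

/-- The universal potential. -/
noncomputable def potU (M : Finset (Fin d →₀ ℕ)) (pv : Fin r → Fin d) :
    MvPolynomial (Fin d) (MvPolynomial (En d r M) ℝ) := pot pv (wv X) (kv X)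

/-- The universal average. -/
noncomputable def avgU (M : Finset (Fin d →₀ ℕ)) (pv : Fin r → Fin d) :
    MvPolynomial (Fin d) (MvPolynomial (En d r M) ℝ) := avg pv (wv X) (kv X)

theorem map_wv (y : En d r M → A) (σ : Fin r) (a : Fin d) :
    (aeval y : MvPolynomial (En d r M) ℝ →ₐ[ℝ] A) (wv X σ a) = wv y σ a := by
  unfold wv
  rw [aeval_X]

theorem map_kv (y : En d r M → A) (σ : Fin r) :
    map (aeval y : MvPolynomial (En d r M) ℝ →ₐ[ℝ] A).toRingHom (kv X σ) = kv y σ := by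
  unfold kv
  rw [map_pm]
  refine congrArg pm (_root_.funext fun k => ?_)
  rw [aeval_X]

theorem pot_univ (pv : Fin r → Fin d) (y : En d r M → A) :
    pot pv (wv y) (kv y) =
      map (aeval y : MvPolynomial (En d r M) ℝ →ₐ[ℝ] A).toRingHom (potU M pv) := by
  unfold potU
  rw [map_pot]
  have h1 : (fun (σ : Fin r) (a : Fin d) =>
      (aeval y : MvPolynomial (En d r M) ℝ →ₐ[ℝ] A) (wv X σ a)) = wv y :=
    _root_.funext fun σ => _root_.funext fun a => map_wv y σ a
  have h2 : (fun σ : Fin r => map (aeval y : MvPolynomial (En d r M) ℝ →ₐ[ℝ] A).toRingHom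
      (kv X σ)) = kv y := _root_.funext fun σ => map_kv y σ
  rw [h1, h2]

theorem avg_univ (pv : Fin r → Fin d) (y : En d r M → A) :
    avg pv (wv y) (kv y) =
      map (aeval y : MvPolynomial (En d r M) ℝ →ₐ[ℝ] A).toRingHom (avgU M pv) := by
  unfold avgU
  rw [map_avg]
  have h1 : (fun (σ : Fin r) (a : Fin d) =>
      (aeval y : MvPolynomial (En d r M) ℝ →ₐ[ℝ] A) (wv X σ a)) = wv y :=
    _root_.funext fun σ => _root_.funext fun a => map_wv y σ a
  have h2 : (fun σ : Fin r => map (aeval y : MvPolynomial (En d r M) ℝ →ₐ[ℝ] A).toRingHom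
      (kv X σ)) = kv y := _root_.funext fun σ => map_kv y σ
  rw [h1, h2]

theorem coeff_pot_univ (pv : Fin r → Fin d) (y : En d r M → A) (k : Fin d →₀ ℕ) :
    coeff k (pot pv (wv y) (kv y)) = aeval y (coeff k (potU M pv)) := by
  rw [pot_univ, coeff_map]
  rfl

theorem coeff_avg_univ (pv : Fin r → Fin d) (y : En d r M → A) (k : Fin d →₀ ℕ) :
    coeff k (avg pv (wv y) (kv y)) = aeval y (coeff k (avgU M pv)) := by
  rw [avg_univ, coeff_map]
  rfl

theorem coeff_univ_zero {U : MvPolynomial (Fin d) (MvPolynomial (En d r M) ℝ)} (y : En d r M → A)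
    {k : Fin d →₀ ℕ} (hk : k ∉ U.support) : aeval y (coeff k U) = 0 := by
  rw [notMem_support_iff.1 hk, map_zero]

end

section

variable {d r : ℕ} {M : Finset (Fin d →₀ ℕ)}

/-- A universal polynomial: size and Lipschitz bounds of the coefficients. -/
theorem univ_lip (U : MvPolynomial (Fin d) (MvPolynomial (En d r M) ℝ)) :
    ∃ (C : ℝ) (D : ℕ), 1 ≤ C ∧ ∀ k, Lip (coeff k U) C D := by
  obtain ⟨C, D, h1, h2⟩ := lip_fam U.support fun k => coeff k U
  refine ⟨C, D, h1, fun k => ?_⟩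
  by_cases hk : k ∈ U.support
  · exact h2 k hk
  · intro R hR y hy
    rw [notMem_support_iff.1 hk]
    refine ⟨?_, fun y' δ hδ _ _ => ?_⟩
    · rw [map_zero, abs_zero]
      positivity
    · rw [map_zero, map_zero, sub_self, abs_zero]
      positivity

/-- **The potential**: size, Lipschitz bound, support. -/
theorem pot_bd (M : Finset (Fin d →₀ ℕ)) (pv : Fin r → Fin d) : ∃ (C : ℝ) (D : ℕ), 1 ≤ C ∧
    (∀ y : En d r M → ℝ, (pot pv (wv y) (kv y)).totalDegree ≤ D) ∧
    ∀ R : ℝ, 1 ≤ R → ∀ y : En d r M → ℝ, (∀ i, |y i| ≤ R) →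
      (∀ k, |coeff k (pot pv (wv y) (kv y))| ≤ C * R ^ D) ∧
      ∀ (y' : En d r M → ℝ) (δ : ℝ), 0 ≤ δ → (∀ i, |y' i| ≤ R) → (∀ i, |y i - y' i| ≤ δ) →
        ∀ k, |coeff k (pot pv (wv y) (kv y)) - coeff k (pot pv (wv y') (kv y'))| ≤
          C * R ^ D * δ := by
  obtain ⟨C, D, h1, h2⟩ := univ_lip (potU M pv)
  refine ⟨C, D + (potU M pv).totalDegree, h1, fun y => ?_, fun R hR y hy => ?_⟩
  · rw [pot_univ]
    exact (Finset.sup_mono (support_map_subset _ _)).trans (Nat.le_add_left _ _)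
  · have h3 := fun k => (h2 k).mono (C' := C) (D' := D + (potU M pv).totalDegree) (by linarith)
      le_rfl (by omega) R hR y hy
    refine ⟨fun k => ?_, fun y' δ hδ hy' hd k => ?_⟩
    · rw [coeff_pot_univ]
      exact (h3 k).1
    · rw [coeff_pot_univ, coeff_pot_univ]
      exact (h3 k).2 y' δ hδ hy' hd

/-- The average is small if the polynomials are small. -/
theorem avg_bd (M : Finset (Fin d →₀ ℕ)) (pv : Fin r → Fin d) : ∃ (C : ℝ) (D : ℕ), 1 ≤ C ∧
    ∀ R : ℝ, 1 ≤ R → ∀ y : En d r M → ℝ, (∀ i, |y i| ≤ R) → ∀ δ : ℝ, 0 ≤ δ →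
      (∀ ρ k, |y (Sum.inr (ρ, k))| ≤ δ) →
      ∀ k, |coeff k (avg pv (wv y) (kv y))| ≤ C * R ^ D * δ := by
  obtain ⟨C, D, h1, h2⟩ := univ_lip (avgU M pv)
  refine ⟨C, D, h1, fun R hR y hy δ hδ hs k => ?_⟩
  obtain ⟨y', hy'⟩ : ∃ y' : En d r M → ℝ, y' = Sum.elim (fun i => y (Sum.inl i)) fun _ => 0 :=
    ⟨_, rfl⟩
  have h3 := (h2 k R hR y hy).2 y' δ hδ (fun i => ?_) (fun i => ?_)
  · have h4 : aeval y' (coeff k (avgU M pv)) = 0 := by
      rw [← coeff_avg_univ]
      have h5 : kv y' = fun _ => (0 : MvPolynomial (Fin d) ℝ) := by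
        funext ρ
        unfold kv pm
        refine Finset.sum_eq_zero fun k _ => ?_
        rw [hy']
        simp
      rw [h5]
      unfold avg
      simp
    rw [coeff_avg_univ]
    have h6 : eval y' (coeff k (avgU M pv)) = 0 := h4
    rw [h6, sub_zero] at h3
    exact h3
  · rw [hy']
    rcases i with i | i
    · exact hy _
    · simp only [Sum.elim_inr, abs_zero]
      linarith
  · rw [hy']
    rcases i with i | i
    · simp only [Sum.elim_inl, sub_self, abs_zero]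
      exact hδ
    · simp only [Sum.elim_inr, sub_zero]
      exact hs _ _

/-- **The potential over polynomials in the time.** -/
theorem pot_time (M : Finset (Fin d →₀ ℕ)) (pv : Fin r → Fin d) : ∃ D : ℕ,
    ∀ (K : ℕ) (F : En d r M → Polynomial ℝ), (∀ i, (F i).natDegree ≤ K) →
      (pot pv (wv F) (kv F)).totalDegree ≤ D ∧
      (∀ k, (coeff k (pot pv (wv F) (kv F))).natDegree ≤ D * K) ∧
      ∀ (t : ℝ) (k : Fin d →₀ ℕ), (coeff k (pot pv (wv F) (kv F))).eval t =
        coeff k (pot pv (wv fun i => (F i).eval t) (kv fun i => (F i).eval t)) := by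
  classical
  refine ⟨(potU M pv).totalDegree + ∑ k ∈ (potU M pv).support, (coeff k (potU M pv)).totalDegree,
    fun K F hF => ⟨?_, fun k => ?_, fun t k => ?_⟩⟩
  · rw [pot_univ]
    exact (Finset.sup_mono (support_map_subset _ _)).trans (Nat.le_add_right _ _)
  · rw [coeff_pot_univ]
    by_cases hk : k ∈ (potU M pv).support
    · refine (natDegree_aeval _ F hF).trans (Nat.mul_le_mul_right _ ?_)
      exact (Finset.single_le_sum (f := fun k => (coeff k (potU M pv)).totalDegree)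
        (fun _ _ => Nat.zero_le _) hk).trans (Nat.le_add_left _ _)
    · rw [coeff_univ_zero F hk, Polynomial.natDegree_zero]
      exact Nat.zero_le _
  · rw [coeff_pot_univ, coeff_pot_univ, eval_aeval]
    rfl

end

/-! ### Small errors -/

section

variable {d r : ℕ}

/-- The coefficients are at most `ε`. -/
def Cf (ε : ℝ) (P : MvPolynomial (Fin d) ℝ) : Prop := ∀ k, |coeff k P| ≤ ε

theorem Cf.mono {ε ε' : ℝ} {P : MvPolynomial (Fin d) ℝ} (h : Cf ε P) (hε : ε ≤ ε') : Cf ε' P :=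
  fun k => (h k).trans hε

theorem Cf.add {ε ε' : ℝ} {P Q : MvPolynomial (Fin d) ℝ} (h : Cf ε P) (h' : Cf ε' Q) :
    Cf (ε + ε') (P + Q) := fun k => by
  rw [coeff_add]
  exact (abs_add_le _ _).trans (add_le_add (h k) (h' k))

theorem Cf.sub {ε ε' : ℝ} {P Q : MvPolynomial (Fin d) ℝ} (h : Cf ε P) (h' : Cf ε' Q) :
    Cf (ε + ε') (P - Q) := fun k => by
  rw [coeff_sub]
  exact (abs_sub _ _).trans (add_le_add (h k) (h' k))

theorem Cf.neg {ε : ℝ} {P : MvPolynomial (Fin d) ℝ} (h : Cf ε P) : Cf ε (-P) := fun k => by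
  rw [coeff_neg, abs_neg]
  exact h k

theorem Cf.C_mul {ε : ℝ} {P : MvPolynomial (Fin d) ℝ} (h : Cf ε P) {a R : ℝ} (ha : |a| ≤ R) :
    Cf (R * ε) (C a * P) := fun k => by
  rw [coeff_C_mul, abs_mul]
  exact mul_le_mul ha (h k) (abs_nonneg _) ((abs_nonneg _).trans ha)

theorem Cf.sum {ι : Type*} (s : Finset ι) {ε : ℝ} {P : ι → MvPolynomial (Fin d) ℝ}
    (h : ∀ i ∈ s, Cf ε (P i)) : Cf (s.card * ε) (∑ i ∈ s, P i) := fun k => by
  rw [coeff_sum]
  refine (Finset.abs_sum_le_sum_abs _ _).trans ?_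
  refine (Finset.sum_le_sum fun i hi => h i hi k).trans (le_of_eq ?_)
  rw [Finset.sum_const, nsmul_eq_mul]

theorem Cf.pderiv {ε : ℝ} {P : MvPolynomial (Fin d) ℝ} {N : ℕ} (hP : P.totalDegree ≤ N)
    (h : Cf ε P) (i : Fin d) : Cf ((N + 1) * ε) (pderiv i P) := by
  classical
  intro m
  have hB0 : 0 ≤ ε := (abs_nonneg _).trans (h 0)
  rw [coeff_pderiv]
  by_cases hm : m + Finsupp.single i 1 ∈ P.support
  · have h1 := (le_totalDegree hm).trans hP
    have h2 : (m + Finsupp.single i 1 : Fin d →₀ ℕ) i ≤ N := by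
      refine le_trans ?_ h1
      by_cases h6 : i ∈ (m + Finsupp.single i 1 : Fin d →₀ ℕ).support
      · exact Finset.single_le_sum (f := fun j => (m + Finsupp.single i 1 : Fin d →₀ ℕ) j)
          (fun _ _ => Nat.zero_le _) h6
      · rw [Finsupp.notMem_support_iff] at h6
        rw [h6]
        exact Nat.zero_le _
    rw [Finsupp.add_apply, Finsupp.single_eq_same] at h2
    rw [abs_mul, mul_comm]
    have h3 : |((m i : ℝ) + 1)| ≤ N + 1 := by
      rw [abs_of_nonneg (by positivity)]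
      have : ((m i : ℕ) : ℝ) + 1 ≤ N := by exact_mod_cast h2
      linarith
    exact mul_le_mul h3 (h _) (abs_nonneg _) (by positivity)
  · rw [notMem_support_iff] at hm
    rw [hm, zero_mul, abs_zero]
    positivity

theorem Cf.dD {ε R : ℝ} {P : MvPolynomial (Fin d) ℝ} {N : ℕ} (hP : P.totalDegree ≤ N)
    (h : Cf ε P) {v : Fin d → ℝ} (hv : ∀ a, |v a| ≤ R) :
    Cf (d * (R * ((N + 1) * ε))) (dD v P) := by
  have h1 := Cf.sum (univ : Finset (Fin d)) (P := fun a => C (v a) * MvPolynomial.pderiv a P)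
    fun a _ => (h.pderiv hP a).C_mul (hv a)
  rw [Finset.card_univ, Fintype.card_fin] at h1
  exact h1

theorem dD_sub (v : Fin d → ℝ) (P Q : MvPolynomial (Fin d) ℝ) :
    dD v (P - Q) = dD v P - dD v Q := by
  unfold dD
  rw [← Finset.sum_sub_distrib]
  refine Finset.sum_congr rfl fun a _ => ?_
  rw [map_sub, mul_sub]

theorem dD_sub_dir (v v' : Fin d → ℝ) (P : MvPolynomial (Fin d) ℝ) :
    dD (fun a => v a - v' a) P = dD v P - dD v' P := by
  unfold dD
  rw [← Finset.sum_sub_distrib]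
  refine Finset.sum_congr rfl fun a _ => ?_
  rw [map_sub, sub_mul]

/-- The exponents of degree at most `N`. -/
noncomputable def Mn (d N : ℕ) : Finset (Fin d →₀ ℕ) :=
  (Finset.range (N + 1)).biUnion fun j => Finset.finsuppAntidiag Finset.univ j

theorem mem_Mn {N : ℕ} {k : Fin d →₀ ℕ} : k ∈ Mn d N ↔ (k.sum fun _ e => e) ≤ N := by
  classical
  have h1 : (k.sum fun _ e => e) = ∑ i, k i := Finsupp.sum_fintype _ _ fun _ => rfl
  unfold Mn
  rw [Finset.mem_biUnion, h1]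
  constructor
  · rintro ⟨j, hj, hk⟩
    rw [Finset.mem_finsuppAntidiag] at hk
    rw [Finset.mem_range] at hj
    exact (le_of_eq hk.1).trans (Nat.lt_succ_iff.1 hj)
  · intro h
    refine ⟨∑ i, k i, Finset.mem_range.2 (by omega), ?_⟩
    rw [Finset.mem_finsuppAntidiag]
    exact ⟨rfl, Finset.subset_univ _⟩

theorem supp_Mn {A : Type*} [CommRing A] {N : ℕ} {P : MvPolynomial (Fin d) A} :
    P.support ⊆ Mn d N ↔ P.totalDegree ≤ N := by
  constructor
  · intro h
    exact Finset.sup_le fun k hk => mem_Mn.1 (h hk)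
  · intro h k hk
    exact mem_Mn.2 ((le_totalDegree hk).trans h)

theorem deg_pm {N : ℕ} (z : {k // k ∈ Mn d N} → ℝ) : (pm z).totalDegree ≤ N := by
  classical
  rw [← supp_Mn]
  intro k hk
  by_contra h
  exact mem_support_iff.1 hk (coeff_pm_of_notMem z h)

theorem deg_pderiv {N : ℕ} {P : MvPolynomial (Fin d) ℝ} (hP : P.totalDegree ≤ N) (i : Fin d) :
    (pderiv i P).totalDegree ≤ N := by
  classical
  rw [← supp_Mn]
  intro k hk
  rw [mem_support_iff, coeff_pderiv] at hk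
  have h1 : k + Finsupp.single i 1 ∈ P.support := by
    rw [mem_support_iff]
    intro h
    rw [h, zero_mul] at hk
    exact hk rfl
  have h2 := (le_totalDegree h1).trans hP
  rw [mem_Mn]
  have e1 : ((k + Finsupp.single i 1 : Fin d →₀ ℕ).sum fun _ e => e) =
      (k.sum fun _ e => e) + 1 := by
    rw [Finsupp.sum_add_index' (fun _ => rfl) (fun _ _ _ => rfl), Finsupp.sum_single_index rfl]
  omega

theorem deg_dD {N : ℕ} {P : MvPolynomial (Fin d) ℝ} (hP : P.totalDegree ≤ N) (v : Fin d → ℝ) :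
    (dD v P).totalDegree ≤ N := by
  unfold dD
  refine totalDegree_finsetSum_le fun a _ => ?_
  refine (totalDegree_mul _ _).trans ?_
  rw [totalDegree_C, zero_add]
  exact deg_pderiv hP a

/-- **The derivative of the potential, with errors.** -/
theorem pot_err (N : ℕ) (pv : Fin r → Fin d) : ∃ (C' : ℝ) (D : ℕ), 1 ≤ C' ∧
    ∀ R : ℝ, 1 ≤ R → ∀ y : En d r (Mn d N) → ℝ, (∀ i, |y i| ≤ R) → Piv pv (wv y) →
      ∀ (v : Fin d → ℝ) (f : MvPolynomial (Fin d) ℝ) (ε : ℝ), (∀ a, |v a| ≤ R) →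
        f.totalDegree ≤ N → Cf R f → 0 ≤ ε →
        (∀ a, |v a - ∑ ρ, v (pv ρ) * wv y ρ a| ≤ ε) →
        Cf ε (f - ∑ ρ, C (v (pv ρ)) * kv y ρ) →
        (∀ σ, Cf ε (dD v (kv y σ) - dD (wv y σ) f)) →
        Cf (C' * R ^ D * ε) (dD v (pot pv (wv y) (kv y)) - f) := by
  classical
  obtain ⟨C₁, D₁, h1, hdeg, hpot⟩ := pot_bd (r := r) (Mn d N) pv
  obtain ⟨C₂, D₂, h2, havg⟩ := avg_bd (r := r) (Mn d N) pv
  obtain ⟨c, hc⟩ : ∃ c : ℝ, c = 1 + 2 * r * d * (N + 1) := ⟨_, rfl⟩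
  have hc1 : 1 ≤ c := by
    rw [hc]
    have : (0 : ℝ) ≤ 2 * r * d * (N + 1) := by positivity
    linarith
  obtain ⟨c', hc'⟩ : ∃ c' : ℝ, c' = 1 + 2 * d * (N + 1) := ⟨_, rfl⟩
  have hc1' : 1 ≤ c' := by
    rw [hc']
    have : (0 : ℝ) ≤ 2 * d * (N + 1) := by positivity
    linarith
  refine ⟨C₂ * c ^ D₂ * c' + d * ((D₁ + 1) * C₁) + 1, 3 * D₂ + 1 + D₁, ?_, ?_⟩
  · have : 0 ≤ C₂ * c ^ D₂ * c' + d * ((D₁ + 1) * C₁) := by positivity
    linarith
  intro R hR y hy hpv v f ε hv hf hfR hε e1 e2 e3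
  have hR0 : 0 ≤ R := by linarith
  have hw : ∀ ρ a, |wv y ρ a| ≤ R := fun ρ a => hy _
  have hk : ∀ ρ, Cf R (kv y ρ) := by
    intro ρ k
    by_cases hm : k ∈ Mn d N
    · have : coeff k (kv y ρ) = y (Sum.inr (ρ, ⟨k, hm⟩)) := coeff_pm _ ⟨k, hm⟩
      rw [this]
      exact hy _
    · have : coeff k (kv y ρ) = 0 := coeff_pm_of_notMem _ hm
      rw [this, abs_zero]
      exact hR0
  have hkd : ∀ ρ, (kv y ρ).totalDegree ≤ N := fun ρ => deg_pm _
  obtain ⟨v', hv'⟩ : ∃ v' : Fin d → ℝ, v' = fun a => ∑ ρ, v (pv ρ) * wv y ρ a := ⟨_, rfl⟩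
  obtain ⟨f', hf'⟩ : ∃ f' : MvPolynomial (Fin d) ℝ, f' = ∑ ρ, C (v (pv ρ)) * kv y ρ := ⟨_, rfl⟩
  rw [← hf'] at e2
  have e1' : ∀ a, |v a - v' a| ≤ ε := fun a => by
    rw [hv']
    exact e1 a
  have hfd' : f'.totalDegree ≤ N := by
    rw [hf']
    refine totalDegree_finsetSum_le fun ρ _ => ?_
    refine (totalDegree_mul _ _).trans ?_
    rw [totalDegree_C, zero_add]
    exact hkd ρ
  have hv'R : ∀ a, |v' a| ≤ r * R ^ 2 := by
    intro a
    rw [hv']
    refine (Finset.abs_sum_le_sum_abs _ _).trans ?_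
    have : ∀ ρ ∈ (univ : Finset (Fin r)), |v (pv ρ) * wv y ρ a| ≤ R ^ 2 := by
      intro ρ _
      rw [abs_mul, sq]
      exact mul_le_mul (hv _) (hw _ _) (abs_nonneg _) hR0
    refine (Finset.sum_le_sum this).trans (le_of_eq ?_)
    rw [Finset.sum_const, Finset.card_univ, Fintype.card_fin, nsmul_eq_mul]
  -- the skew form of the direction
  obtain ⟨Q, hQ⟩ : ∃ Q : Fin r → MvPolynomial (Fin d) ℝ, Q = fun σ =>
    dD v' (kv y σ) - dD (wv y σ) f' := ⟨_, rfl⟩
  have hQd : ∀ σ, (Q σ).totalDegree ≤ N := by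
    intro σ
    rw [hQ]
    exact (totalDegree_sub _ _).trans (max_le (deg_dD (hkd σ) _) (deg_dD hfd' _))
  have hQs : ∀ σ, Cf (c' * R * ε) (Q σ) := by
    intro σ
    have b1 : Q σ = (dD v (kv y σ) - dD (wv y σ) f) - dD (fun a => v a - v' a) (kv y σ) +
        dD (wv y σ) (f - f') := by
      rw [hQ, dD_sub, dD_sub_dir]
      ring
    rw [b1]
    have b2 := ((e3 σ).sub ((hk σ).dD (hkd σ) e1')).add (e2.dD (N := N)
      ((totalDegree_sub _ _).trans (max_le hf hfd')) (hw σ))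
    refine b2.mono ?_
    rw [hc']
    have b3 : ε ≤ R * ε := by
      have := mul_le_mul_of_nonneg_right hR hε
      linarith
    nlinarith [b3]
  have hQR : ∀ σ, Cf (c * R ^ 3) (Q σ) := by
    intro σ
    rw [hQ]
    have b1 := (hk σ).dD (hkd σ) hv'R
    have b2 : Cf (r * (R * R)) f' := by
      rw [hf']
      have := Cf.sum (univ : Finset (Fin r)) (P := fun ρ => C (v (pv ρ)) * kv y ρ)
        fun ρ _ => (hk ρ).C_mul (hv (pv ρ))
      rw [Finset.card_univ, Fintype.card_fin] at this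
      exact this
    refine (b1.sub (b2.dD hfd' (hw σ))).mono ?_
    rw [hc]
    have b3 : 0 ≤ R ^ 3 := by positivity
    nlinarith [b3]
  obtain ⟨y', hy'⟩ : ∃ y' : En d r (Mn d N) → ℝ, y' = Sum.elim (fun i => y (Sum.inl i))
    fun i => coeff i.2.1 (Q i.1) := ⟨_, rfl⟩
  have hwv : wv y' = wv y := by
    funext ρ a
    unfold wv
    rw [hy', Sum.elim_inl]
  have hkv : kv y' = Q := by
    funext ρ
    have b1 := pm_coeff (M := Mn d N) (Q ρ) (supp_Mn.2 (hQd ρ))
    rw [← b1]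
    unfold kv
    refine congrArg pm (_root_.funext fun k => ?_)
    rw [hy', Sum.elim_inr]
  have hcR : 1 ≤ c * R ^ 3 := one_le_mul_of_one_le_of_one_le hc1 (one_le_pow₀ hR)
  have hRc : R ≤ c * R ^ 3 := by
    have b1 : R ≤ R ^ 3 := le_self_pow₀ hR (by norm_num)
    have b2 : R ^ 3 ≤ c * R ^ 3 := le_mul_of_one_le_left (by positivity) hc1
    linarith
  have hA := havg (c * R ^ 3) hcR y' (fun i => by
    rw [hy']
    rcases i with i | i
    · exact (hy _).trans hRc
    · exact hQR _ _) (c' * R * ε) (by positivity) (fun ρ k => by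
    rw [hy']
    exact hQs _ _)
  rw [hwv, hkv] at hA
  -- the potential
  have hP : Cf (C₁ * R ^ D₁) (pot pv (wv y) (kv y)) := (hpot R hR y hy).1
  have b1 := dD_pot_comb hpv (kv y) (fun ρ => v (pv ρ))
  have b2 : (fun σ => dD (fun a => ∑ ρ, v (pv ρ) * wv y ρ a) (kv y σ) -
        ∑ ρ, C (v (pv ρ)) * dD (wv y σ) (kv y ρ)) = Q := by
    funext σ
    have b0 : Q σ = dD v' (kv y σ) - dD (wv y σ) f' := by rw [hQ]
    rw [b0, hv', hf', dD_sum]
    refine congrArg (fun z => dD (fun a => ∑ ρ, v (pv ρ) * wv y ρ a) (kv y σ) - z) ?_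
    refine Finset.sum_congr rfl fun ρ _ => ?_
    rw [dD_mul, dD_C, mul_zero, add_zero]
  rw [b2, ← hf', ← hv'] at b1
  have b3 : dD v (pot pv (wv y) (kv y)) - f = avg pv (wv y) Q +
      dD (fun a => v a - v' a) (pot pv (wv y) (kv y)) - (f - f') := by
    rw [dD_sub_dir, b1]
    ring
  rw [b3]
  have b4 := hP.dD (hdeg y) e1'
  refine ((Cf.add hA b4).sub e2).mono ?_
  have hRD : ∀ n, n ≤ 3 * D₂ + 1 + D₁ → R ^ n ≤ R ^ (3 * D₂ + 1 + D₁) := fun n hn =>
    pow_le_pow_right₀ hR hn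
  have a1 : C₂ * (c * R ^ 3) ^ D₂ * (c' * R * ε) ≤
      (C₂ * c ^ D₂ * c') * R ^ (3 * D₂ + 1 + D₁) * ε := by
    have : C₂ * (c * R ^ 3) ^ D₂ * (c' * R * ε) =
        (C₂ * c ^ D₂ * c') * R ^ (3 * D₂ + 1) * ε := by
      rw [mul_pow, ← pow_mul, pow_succ]
      ring
    rw [this]
    refine mul_le_mul_of_nonneg_right (mul_le_mul_of_nonneg_left (hRD _ (by omega)) ?_) hε
    positivity
  have a2 : (d : ℝ) * (ε * ((D₁ + 1) * (C₁ * R ^ D₁))) ≤
      (d * ((D₁ + 1) * C₁)) * R ^ (3 * D₂ + 1 + D₁) * ε := by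
    have : (d : ℝ) * (ε * ((D₁ + 1) * (C₁ * R ^ D₁))) = (d * ((D₁ + 1) * C₁)) * R ^ D₁ * ε := by
      ring
    rw [this]
    refine mul_le_mul_of_nonneg_right (mul_le_mul_of_nonneg_left (hRD _ (by omega)) ?_) hε
    positivity
  have a3 : ε ≤ 1 * R ^ (3 * D₂ + 1 + D₁) * ε := by
    have := mul_le_mul_of_nonneg_right (one_le_pow₀ (n := 3 * D₂ + 1 + D₁) hR) hε
    linarith
  calc _ ≤ (C₂ * c ^ D₂ * c') * R ^ (3 * D₂ + 1 + D₁) * ε +
        (d * ((D₁ + 1) * C₁)) * R ^ (3 * D₂ + 1 + D₁) * ε +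
        1 * R ^ (3 * D₂ + 1 + D₁) * ε := add_le_add (add_le_add a1 a2) a3
    _ = _ := by ring

end

end Pool.TIE66
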