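import Pool.Agent.H66.TIE.Pot2

/-!
# The degree of the potential
-/

set_option autoImplicit false
set_option linter.unusedSectionVars false

namespace Pool.TIE66

open Finset MvPolynomial

variable {A : Type*} [CommRing A] [Algebra ℝ A] [Nontrivial A] {d r : ℕ}

theorem deg_Lp (S : Finset (Fin d)) (e : ℕ) {P : MvPolynomial (Fin d) A} {N : ℕ}
    (hP : P.totalDegree ≤ N) : (Lp S e P).totalDegree ≤ N := by
  rw [P.as_sum, map_sum]
  refine totalDegree_finsetSum_le fun m hm => ?_
  rw [Lp_monomial]
  exact (totalDegree_monomial_le _ _).trans ((le_totalDegree hm).trans hP)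

theorem deg_aevA {y : Fin d → MvPolynomial (Fin d) A} (hy : ∀ i, (y i).totalDegree ≤ 1)
    {P : MvPolynomial (Fin d) A} {N : ℕ} (hP : P.totalDegree ≤ N) :
    (aeval y P).totalDegree ≤ N := by
  rw [aeval_def, eval₂_eq']
  refine totalDegree_finsetSum_le fun m hm => ?_
  refine (totalDegree_mul _ _).trans ?_
  have h0 : (algebraMap A (MvPolynomial (Fin d) A) (coeff m P)).totalDegree = 0 := by
    rw [algebraMap_eq, totalDegree_C]
  rw [h0, zero_add]
  refine (totalDegree_finsetProd _ _).trans ?_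
  have h1 : ∀ i ∈ (Finset.univ : Finset (Fin d)), ((y i) ^ m i).totalDegree ≤ m i := by
    intro i _
    refine (totalDegree_pow _ _).trans ?_
    calc m i * _ ≤ m i * 1 := Nat.mul_le_mul_left _ (hy i)
      _ = m i := Nat.mul_one _
  refine (Finset.sum_le_sum h1).trans ?_
  have h3 : ∑ i, m i = m.sum fun _ e => e := by
    rw [Finsupp.sum_fintype _ _ fun _ => rfl]
  rw [h3]
  exact (le_totalDegree hm).trans hP

theorem deg_ty (pv : Fin r → Fin d) (w : Fin r → Fin d → A) (a : Fin d) :
    (ty pv w a).totalDegree ≤ 1 := by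
  unfold ty
  refine (totalDegree_add _ _).trans (max_le (totalDegree_X _).le ?_)
  refine totalDegree_finsetSum_le fun σ _ => ?_
  refine (totalDegree_mul _ _).trans ?_
  rw [totalDegree_C, zero_add]
  exact (totalDegree_X _).le

/-- **The degree of the potential.** -/
theorem deg_pot (pv : Fin r → Fin d) (w : Fin r → Fin d → A)
    {κ : Fin r → MvPolynomial (Fin d) A} {N : ℕ} (hκ : ∀ ρ, (κ ρ).totalDegree ≤ N) :
    (pot pv w κ).totalDegree ≤ N + 1 := by
  unfold pot tai
  refine deg_aevA (deg_ty pv _) ?_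
  refine totalDegree_finsetSum_le fun ρ _ => ?_
  refine (totalDegree_mul _ _).trans ?_
  have h1 : (tau pv w (κ ρ)).totalDegree ≤ N := by
    unfold tau
    exact deg_aevA (deg_ty pv _) (hκ ρ)
  have h2 := deg_Lp (univ.image pv) 1 h1
  have h3 : (X (pv ρ) : MvPolynomial (Fin d) A).totalDegree ≤ 1 := (totalDegree_X _).le
  omega

theorem deg_pmA {N : ℕ} (z : {k // k ∈ Mn d N} → A) : (pm z).totalDegree ≤ N := by
  classical
  rw [← supp_Mn]
  intro k hk
  by_contra h
  exact mem_support_iff.1 hk (coeff_pm_of_notMem z h)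

end Pool.TIE66
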