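import Pool.Agent.H66.TIE.Pot2
import Pool.Agent.H20.MIC.Uni
import Pool.Agent.H30.MIC.Samp
import Pool.Agent.H46.MIC.Cpn
import Pool.Agent.H86.FRW.Coef

/-!
# The entropic Remez inequality on an event

`uni_bx`: the box form; `uni_ev`: a polynomial which is a function of the context and which is small
at the position on an event `E` has small coefficients on `E`, up to a small event.
-/

set_option autoImplicit false

namespace Pool.TIE66

open Finset Real MvPolynomial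
open Pool.Agent.H49.Ent Pool.Agent.H32.Dense Pool.STK Pool.STAT
open Pool.BFL (Pb)
open Pool.MIC.Frm (Pb_supp)

/-- The digits of a position. -/
noncomputable def dg {n : ℕ} (L : ℕ) (x : Fin n → ℝ) : Fin n → ℤ := fun i => ⌊(2 : ℝ) ^ L * x i⌋

theorem dg_zero_bd {n : ℕ} {x : Fin n → ℝ} (hx : ∀ i, |x i| ≤ 1) (L : ℕ) :
    dg L x ∈ Fintype.piFinset fun _ : Fin n => Finset.Icc (-(2 ^ L : ℤ)) (2 ^ L) := by
  rw [Fintype.mem_piFinset]
  intro i
  rw [Finset.mem_Icc]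
  have e6 := abs_le.1 (hx i)
  have e7 : (0 : ℝ) < 2 ^ L := by positivity
  unfold dg
  constructor
  · rw [Int.le_floor]
    push_cast
    nlinarith [e6.1]
  · have h1 : ⌊(2 : ℝ) ^ L * x i⌋ ≤ ⌊((2 ^ L : ℤ) : ℝ)⌋ := by
      refine Int.floor_le_floor ?_
      push_cast
      nlinarith [e6.2]
    rwa [Int.floor_intCast] at h1

/-- The entropy of the digits. -/
theorem CH_dg_le {Ω Γ : Type} [Fintype Ω] {p : Ω → ℝ} (hp : IsLaw p) {n : ℕ} (L : ℕ)
    (B : Ω → Fin n → ℝ) (c : Ω → Γ) (hB : ∀ ω, 0 < p ω → ∀ i, |B ω i| ≤ 1) :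
    CH p (fun ω => dg L (B ω)) c ≤ n * (L * Real.log 2) + n * Real.log 3 := by
  classical
  have h1 := CH_le_card hp.nonneg hp.sum_one (fun ω => dg L (B ω)) c
    (fun _ => Fintype.piFinset fun _ => Finset.Icc (-(2 ^ L : ℤ)) (2 ^ L)) (fun ω hω =>
      dg_zero_bd (hB ω hω) L)
  refine h1.trans ?_
  rw [Ex_const hp.sum_one, Fintype.card_piFinset, Finset.prod_const, Finset.card_univ,
    Fintype.card_fin, Int.card_Icc]
  have e7 : ((2 ^ L + 1 - (-(2 ^ L) : ℤ)).toNat : ℕ) = 2 * 2 ^ L + 1 := by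
    have : (2 ^ L + 1 - (-(2 ^ L) : ℤ)) = ((2 * 2 ^ L + 1 : ℕ) : ℤ) := by
      push_cast
      ring
    rw [this, Int.toNat_natCast]
  rw [e7]
  push_cast
  rw [Real.log_pow]
  have e8 : Real.log (2 * 2 ^ L + 1) ≤ L * Real.log 2 + Real.log 3 := by
    rw [← Real.log_pow, ← Real.log_mul (by positivity) (by norm_num)]
    refine Real.log_le_log (by positivity) ?_
    have : (1 : ℝ) ≤ 2 ^ L := one_le_pow₀ (by norm_num)
    linarith
  have e9 : (0 : ℝ) ≤ n := Nat.cast_nonneg _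
  nlinarith

/-- **The entropic Remez inequality**, box form. -/
theorem uni_bx (n K : ℕ) (R : ℝ) (hR : 0 ≤ R) : ∃ C : ℝ, 1 ≤ C ∧
    ∀ (Ω Γ : Type) [Fintype Ω] (p : Ω → ℝ) (L : ℕ) (B : Ω → Fin n → ℝ)
      (c : Ω → Γ) (D : Γ → MvPolynomial (Fin n) ℝ) (τ θ η : ℝ),
      IsLaw p → (∀ x, (D x).totalDegree ≤ K) → 0 ≤ θ → 0 < η → η ≤ 1 → 0 < τ →
      (∀ ω, 0 < p ω → ∀ i, |B ω i| ≤ 1) →
      n * (L * Real.log 2) - θ ≤ CH p (fun ω => dg L (B ω)) c →
      C * (θ + 1) / η ≤ L * Real.log 2 →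
      (∀ ω, 0 < p ω → |MvPolynomial.eval (B ω) (D (c ω))| ≤ τ) →
      Pb p (fun ω => ¬ ∀ b : Fin n → ℝ, (∀ i, |b i| ≤ R) →
        |MvPolynomial.eval b (D (c ω))| ≤ Real.exp (C * (θ + 1) / η) * τ) ≤ η := by
  classical
  obtain ⟨C, hC, h⟩ := Pool.UNJ.uni_core n K (R + 1) (by linarith)
  have hl3 : 0 ≤ Real.log 3 := Real.log_nonneg (by norm_num)
  obtain ⟨C', hC'⟩ : ∃ C' : ℝ, C' = C * (n * Real.log 3 + 1) := ⟨_, rfl⟩
  have hm0 : (0 : ℝ) ≤ n * Real.log 3 := by positivity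
  have hCC : C ≤ C' := by
    rw [hC']
    nlinarith
  refine ⟨C', by linarith, ?_⟩
  intro Ω Γ _ p L B c D τ θ η hp hd hθ hη hη1 hτ h1 hH hL hD
  have hp0 := hp.nonneg
  have hθ' : 0 ≤ θ + n * Real.log 3 := by linarith
  have hcmp : C * (θ + n * Real.log 3 + 1) ≤ C' * (θ + 1) := by
    rw [hC']
    have h2 : θ + n * Real.log 3 + 1 ≤ (n * Real.log 3 + 1) * (θ + 1) := by nlinarith
    have h3 := mul_le_mul_of_nonneg_left h2 (by linarith : (0 : ℝ) ≤ C)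
    linarith
  have hcmp' : C * (θ + n * Real.log 3 + 1) / η ≤ C' * (θ + 1) / η :=
    div_le_div_of_nonneg_right hcmp hη.le
  have key := h Ω Γ p L (fun _ => 0) B c D (fun ω => 0 < p ω) (fun _ => τ) (θ + n * Real.log 3) η hp
    hd hθ' hη hη1 (fun _ => hτ) ?_ ?_ (hcmp'.trans hL) hD
  · refine le_trans (Pb_supp hp0 fun ω hω0 hω => ?_) key
    intro hb
    refine hω fun b b1 => ?_
    refine (hb b fun i => ?_).trans
      (mul_le_mul_of_nonneg_right (Real.exp_le_exp.2 hcmp') hτ.le)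
    rw [pow_zero, div_one]
    have e5 := h1 ω hω0 i
    have e6 := abs_sub (b i) (B ω i)
    have e7 := b1 i
    linarith
  · have e1 : (fun ω => Pool.UNJ.cel (fun i => (fun _ : Fin n => 0) i + L) (B ω)) =
        fun ω => dg L (B ω) := by
      funext ω i
      unfold Pool.UNJ.cel dg
      simp only [Nat.zero_add]
    rw [e1]
    have e2 := CH_le_add hp0 (fun ω => dg L (B ω))
      (fun ω => Pool.UNJ.cel (fun _ : Fin n => 0) (B ω)) c
    have e3 : CH p (fun ω => Pool.UNJ.cel (fun _ : Fin n => 0) (B ω)) c ≤ n * Real.log 3 := by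
      have e4 := CH_dg_le hp 0 B c h1
      have e5 : (fun ω => Pool.UNJ.cel (fun _ : Fin n => 0) (B ω)) = fun ω => dg 0 (B ω) := by
        funext ω i
        unfold Pool.UNJ.cel dg
        rfl
      rw [e5]
      refine e4.trans (le_of_eq ?_)
      rw [Nat.cast_zero]
      ring
    linarith
  · have : Pb p (fun ω => ¬ 0 < p ω) = 0 := by
      unfold Pb
      refine Finset.sum_eq_zero fun ω _ => ?_
      by_cases hω : 0 < p ω
      · rw [if_neg (by simpa using hω)]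
      · rw [if_pos hω]
        exact le_antisymm (not_lt.1 hω) (hp0 ω)
    rw [this]
    positivity

/-- **The entropic Remez inequality on an event**, box form. -/
theorem uni_ev (n K : ℕ) (R : ℝ) (hR : 0 ≤ R) : ∃ C : ℝ, 1 ≤ C ∧
    ∀ (Ω Γ : Type) [Fintype Ω] (p : Ω → ℝ) (L : ℕ) (B : Ω → Fin n → ℝ)
      (c : Ω → Γ) (D : Γ → MvPolynomial (Fin n) ℝ) (E : Ω → Prop) (τ θ η : ℝ),
      IsLaw p → (∀ x, (D x).totalDegree ≤ K) → 0 ≤ θ → 0 < η → η ≤ 1 → 0 < τ →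
      (∀ ω, 0 < p ω → ∀ i, |B ω i| ≤ 1) →
      n * (L * Real.log 2) - θ ≤ CH p (fun ω => dg L (B ω)) c →
      C * (θ + 1) / η ^ 2 ≤ L * Real.log 2 →
      (∀ ω, 0 < p ω → E ω → |MvPolynomial.eval (B ω) (D (c ω))| ≤ τ) →
      Pb p (fun ω => E ω ∧ ¬ ∀ b : Fin n → ℝ, (∀ i, |b i| ≤ R) →
        |MvPolynomial.eval b (D (c ω))| ≤ Real.exp (C * (θ + 1) / η ^ 2) * τ) ≤ η := by
  classical
  obtain ⟨C, hC, h⟩ := uni_bx n K R hR
  have hl3 : 0 ≤ Real.log 3 := Real.log_nonneg (by norm_num)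
  have hl2 : 0 ≤ Real.log 2 := Real.log_nonneg (by norm_num)
  obtain ⟨A, hA⟩ : ∃ A : ℝ, A = Real.log 2 + n * Real.log 3 + 1 := ⟨_, rfl⟩
  have hA1 : 1 ≤ A := by
    rw [hA]
    have : (0 : ℝ) ≤ n * Real.log 3 := by positivity
    linarith
  refine ⟨C * (A + 1), by nlinarith, ?_⟩
  intro Ω Γ _ p L B c D E τ θ η hp hd hθ hη hη1 hτ h1 hH hL hD
  have hp0 := hp.nonneg
  rcases le_or_gt (Pb p E) η with hE | hE
  · exact (Pool.MIC.Pb_le_of_imp hp0 fun ω _ hω => hω.1).trans hE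
  have hE0 : 0 < Pb p E := hη.trans hE
  have hE1 : Pb p E ≤ 1 := by
    have e0 := Pool.MIC.Pb_not hp.sum_one E
    have e1 := Pool.MIC.Pb_nonneg hp0 fun ω => ¬ E ω
    linarith
  have hq := Pool.MIC.isLaw_ev hp E hE0
  have hcmp : C * ((θ + Real.log 2 + n * Real.log 3) / η + 1) / η ≤
      C * (A + 1) * (θ + 1) / η ^ 2 := by
    have e1 : C * ((θ + Real.log 2 + n * Real.log 3) / η + 1) / η =
        C * ((θ + Real.log 2 + n * Real.log 3) + η) / η ^ 2 := by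
      field_simp
    rw [e1]
    refine div_le_div_of_nonneg_right ?_ (by positivity)
    rw [mul_assoc]
    refine mul_le_mul_of_nonneg_left ?_ (by linarith)
    have : 0 ≤ θ * A := mul_nonneg hθ (by linarith)
    nlinarith
  have key := h Ω Γ (Pool.Agent.H49.Ent.cond p E True) L B c D τ
    ((θ + Real.log 2 + n * Real.log 3) / η) η hq hd (by positivity) hη hη1 hτ
    (fun ω hω i => h1 ω (Pool.MIC.ev_pos hp0 E hω).1 i) ?_ (hcmp.trans hL)
    (fun ω hω => hD ω (Pool.MIC.ev_pos hp0 E hω).1 (Pool.MIC.ev_pos hp0 E hω).2)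
  · have e1 := Pool.MIC.Pb_cond_ge (p := p) E (fun ω => ¬ ∀ b : Fin n → ℝ, (∀ i, |b i| ≤ R) →
        |MvPolynomial.eval b (D (c ω))| ≤
          Real.exp (C * ((θ + Real.log 2 + n * Real.log 3) / η + 1) / η) * τ) hE0
    have e2 : Pb p (fun ω => E ω ∧ ¬ ∀ b : Fin n → ℝ, (∀ i, |b i| ≤ R) →
        |MvPolynomial.eval b (D (c ω))| ≤ Real.exp (C * (A + 1) * (θ + 1) / η ^ 2) * τ) ≤
        Pb p (fun ω => E ω ∧ ¬ ∀ b : Fin n → ℝ, (∀ i, |b i| ≤ R) →
        |MvPolynomial.eval b (D (c ω))| ≤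
          Real.exp (C * ((θ + Real.log 2 + n * Real.log 3) / η + 1) / η) * τ) := by
      refine Pool.MIC.Pb_le_of_imp hp0 fun ω _ hω => ⟨hω.1, fun hb => hω.2 fun b hbR => ?_⟩
      exact (hb b hbR).trans (mul_le_mul_of_nonneg_right (Real.exp_le_exp.2 hcmp) hτ.le)
    refine e2.trans ?_
    rw [← e1]
    calc _ ≤ η * 1 := mul_le_mul key hE1 hE0.le hη.le
      _ = η := mul_one _
  · have e1 := Pool.MIC30.full_ev hp E hE0 (fun ω => dg L (B ω)) c (M := n * (L * Real.log 2))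
      (θ := θ) (a := n * Real.log 3) (by positivity) (fun hF => ?_) hH
    · refine le_trans ?_ e1
      have e2 : (θ + Real.log 2 + n * Real.log 3) / Pb p E ≤
          (θ + Real.log 2 + n * Real.log 3) / η :=
        div_le_div_of_nonneg_left (by positivity) hη hE.le
      linarith
    · have hF' : IsLaw (Pool.Agent.H49.Ent.cond p E False) :=
        ⟨cond_nonneg hp0 E False, sum_cond p E (by rw [Pool.MIC.law_False]; exact hF.ne')⟩
      exact CH_dg_le hF' L B c fun ω hω i => h1 ω ((cond_pos_iff hp0 E False ω).1 hω).1 i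

/-- **The entropic Remez inequality on an event**, for the coefficients. -/
theorem uni_cf (n K : ℕ) : ∃ C : ℝ, 1 ≤ C ∧
    ∀ (Ω Γ : Type) [Fintype Ω] (p : Ω → ℝ) (L : ℕ) (B : Ω → Fin n → ℝ)
      (c : Ω → Γ) (D : Γ → MvPolynomial (Fin n) ℝ) (E : Ω → Prop) (τ θ η : ℝ),
      IsLaw p → (∀ x, (D x).totalDegree ≤ K) → 0 ≤ θ → 0 < η → η ≤ 1 → 0 < τ →
      (∀ ω, 0 < p ω → ∀ i, |B ω i| ≤ 1) →
      n * (L * Real.log 2) - θ ≤ CH p (fun ω => dg L (B ω)) c →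
      C * (θ + 1) / η ^ 2 ≤ L * Real.log 2 →
      (∀ ω, 0 < p ω → E ω → |MvPolynomial.eval (B ω) (D (c ω))| ≤ τ) →
      Pb p (fun ω => E ω ∧ ¬ Cf (Real.exp (C * (θ + 1) / η ^ 2) * τ) (D (c ω))) ≤ η := by
  classical
  obtain ⟨C, hC, h⟩ := uni_ev n K 1 zero_le_one
  obtain ⟨C', hC', h'⟩ := Pool.FRP.coeff_le_box n K
  refine ⟨C + C', by linarith, ?_⟩
  intro Ω Γ _ p L B c D E τ θ η hp hd hθ hη hη1 hτ h1 hH hL hD
  have hη2 : η ^ 2 ≤ 1 := pow_le_one₀ hη.le hη1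
  have hc1 : C * (θ + 1) / η ^ 2 ≤ (C + C') * (θ + 1) / η ^ 2 :=
    div_le_div_of_nonneg_right (by nlinarith) (by positivity)
  refine (Pool.MIC.Pb_le_of_imp hp.nonneg fun ω _ hω => ⟨hω.1, fun hb => hω.2 ?_⟩).trans
    (h Ω Γ p L B c D E τ θ η hp hd hθ hη hη1 hτ h1 hH (hc1.trans hL) hD)
  intro k
  refine (h' (D (c ω)) _ (hd _) hb k).trans ?_
  have e1 : C' ≤ Real.exp (C' * (θ + 1) / η ^ 2) := by
    have e2 : C' ≤ C' * (θ + 1) / η ^ 2 := by
      rw [le_div_iff₀ (by positivity)]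
      have : C' * η ^ 2 ≤ C' * 1 := mul_le_mul_of_nonneg_left hη2 (by linarith)
      nlinarith
    have := Real.add_one_le_exp (C' * (θ + 1) / η ^ 2)
    linarith
  have e3 : Real.exp ((C + C') * (θ + 1) / η ^ 2) =
      Real.exp (C' * (θ + 1) / η ^ 2) * Real.exp (C * (θ + 1) / η ^ 2) := by
    rw [← Real.exp_add]
    refine congrArg Real.exp ?_
    field_simp
    ring
  rw [e3, mul_assoc]
  exact mul_le_mul_of_nonneg_right e1 (by positivity)

end Pool.TIE66
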